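import Pool.Agent.Swisher.WilsonArith

set_option autoImplicit false
set_option linter.unusedSectionVars false
set_option linter.unusedVariables false

open Finset

namespace Pool.Agent.NineA

open Pool.Agent.Swisher

section arith

variable (p : ℕ) [hp : Fact p.Prime]

lemma four_unit (hp2 : p ≠ 2) (T : ℕ) (hT : 1 ≤ T) : IsUnit ((4:ℤ) : ZMod (p^T)) := by
  rw [isUnit_zmod_iff p T hT]
  intro h
  have h' : p ∣ 2^2 := by norm_num; exact_mod_cast h
  exact hp2 ((Nat.prime_dvd_prime_iff_eq hp.out Nat.prime_two).mp (hp.out.dvd_of_dvd_pow h'))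

/-- elements of `1 + pR` are squares -/
lemma one_add_sq (hp2 : p ≠ 2) (T : ℕ) (hT : 1 ≤ T) (w : ZMod (p^T))
    (hw : ((p:ℕ) : ZMod (p^T)) ∣ w - 1) : ∃ a : ℕ, w = (w^a)^2 := by
  have h := dvd_sub_pow_of_dvd_sub (p := p) hw (T-1)
  have h5 : T - 1 + 1 = T := by omega
  rw [h5, one_pow] at h
  have h0 : ((p:ℕ) : ZMod (p^T))^T = 0 := by
    have := ZMod.natCast_self (p^T)
    push_cast at this
    exact this
  rw [h0, zero_dvd_iff] at h
  obtain ⟨a, ha⟩ : Odd (p^(T-1)) := (hp.out.odd_of_ne_two hp2).pow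
  refine ⟨a+1, ?_⟩
  have h1 : w^(p^(T-1)) = 1 := by linear_combination h
  rw [← pow_mul]
  have : (a+1)*2 = p^(T-1) + 1 := by omega
  rw [this, pow_succ, h1, one_mul]

/-- every residue is `± 4 j` with `j ≤ 2Q` -/
lemma four_cover (hp2 : p ≠ 2) (T : ℕ) (hT : 1 ≤ T) (Q : ℕ) (hQ : p^T = 4*Q+1) (y : ZMod (p^T)) :
    ∃ j : ℕ, j < 2*Q+1 ∧ (y = 4 * (j : ZMod (p^T)) ∨ y = -(4 * (j : ZMod (p^T)))) := by
  have : NeZero (p^T) := ⟨pow_ne_zero _ hp.out.ne_zero⟩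
  obtain ⟨u, hu⟩ := four_unit p hp2 T hT
  set z : ZMod (p^T) := ((u⁻¹ : (ZMod (p^T))ˣ) : ZMod (p^T)) * y with hz
  have h4 : (4 : ZMod (p^T)) = (u : ZMod (p^T)) := by rw [hu]; norm_num
  have hy : y = 4 * z := by
    rw [hz, h4, ← mul_assoc, Units.mul_inv, one_mul]
  have hv : z.val < p^T := ZMod.val_lt z
  have hzv : ((z.val : ℕ) : ZMod (p^T)) = z := ZMod.natCast_zmod_val z
  by_cases h : z.val < 2*Q+1
  · exact ⟨z.val, h, Or.inl (by rw [hzv]; exact hy)⟩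
  · refine ⟨p^T - z.val, by omega, Or.inr ?_⟩
    rw [Nat.cast_sub hv.le, hzv, ZMod.natCast_self]
    rw [hy]; ring

/-- index set of the product -/
def II (Q : ℕ) : Finset ℕ := (range (2*Q+1)).filter (fun i => ¬ (p:ℤ) ∣ (4*(i:ℤ)))

lemma Cint_eq (V : ℤ) (Q : ℕ) : Cint p V Q = ∏ i ∈ II p Q, ((4*(i:ℤ))^2 + V^2) := by
  unfold Cint II
  rw [prod_filter]
  apply prod_congr rfl
  intro i _
  by_cases h : (p:ℤ) ∣ (4*(i:ℤ)) <;> simp [h]

lemma II_inj (hp2 : p ≠ 2) (T : ℕ) (hT : 1 ≤ T) (Q : ℕ) (hQ : p^T = 4*Q+1) (i j : ℕ)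
    (hi : i ∈ II p Q) (hj : j ∈ II p Q)
    (h : (4 * (i : ZMod (p^T)))^2 = (4 * (j : ZMod (p^T)))^2) : i = j := by
  have hp' : Prime (p:ℤ) := Nat.prime_iff_prime_int.mp hp.out
  simp only [II, mem_filter, mem_range] at hi hj
  have hpi : ¬ (p:ℤ) ∣ (i:ℤ) := fun hd => hi.2 (Dvd.dvd.mul_left hd 4)
  have hpj : ¬ (p:ℤ) ∣ (j:ℤ) := fun hd => hj.2 (Dvd.dvd.mul_left hd 4)
  have hi0 : i ≠ 0 := by rintro rfl; exact hpi (by simp)
  have hp4 : ¬ (p:ℤ) ∣ 4 := by
    intro h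
    have h' : p ∣ 2^2 := by norm_num; exact_mod_cast h
    exact hp2 ((Nat.prime_dvd_prime_iff_eq hp.out Nat.prime_two).mp (hp.out.dvd_of_dvd_pow h'))
  have hp2' : ¬ (p:ℤ) ∣ 2 := by
    intro h
    exact hp4 (Dvd.dvd.trans h (by norm_num))
  have h1 : ((p^T : ℕ) : ℤ) ∣ (16 * (((i:ℤ) - j) * ((i:ℤ) + j))) := by
    rw [← ZMod.intCast_zmod_eq_zero_iff_dvd]
    push_cast
    linear_combination h
  have hc16 : IsCoprime ((p^T : ℕ) : ℤ) 16 := by
    push_cast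
    apply IsCoprime.pow_left
    rw [hp'.irreducible.coprime_iff_not_dvd]
    intro hd
    have : (p:ℤ) ∣ 4^2 := by norm_num; exact hd
    exact hp4 (hp'.dvd_of_dvd_pow this)
  have h2 := hc16.dvd_of_dvd_mul_left h1
  by_cases hs : (p:ℤ) ∣ (i:ℤ) + j
  · have hd : ¬ (p:ℤ) ∣ (i:ℤ) - j := by
      intro hd
      have h3 : (p:ℤ) ∣ 2 * (i:ℤ) := by
        have := dvd_add hs hd
        have e : (i:ℤ) + j + ((i:ℤ) - j) = 2 * i := by ring
        rwa [e] at this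
      rcases hp'.dvd_or_dvd h3 with h | h
      · exact hp2' h
      · exact hpi h
    have hc : IsCoprime ((p^T : ℕ) : ℤ) ((i:ℤ) - j) := by
      push_cast
      apply IsCoprime.pow_left
      rwa [hp'.irreducible.coprime_iff_not_dvd]
    have h3 := hc.dvd_of_dvd_mul_left h2
    have h4 : (p^T : ℕ) ∣ i + j := by exact_mod_cast h3
    have := Nat.le_of_dvd (by omega) h4
    omega
  · have hc : IsCoprime ((p^T : ℕ) : ℤ) ((i:ℤ) + j) := by
      push_cast
      apply IsCoprime.pow_left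
      rwa [hp'.irreducible.coprime_iff_not_dvd]
    have h3 := hc.dvd_of_dvd_mul_right h2
    have h4 : (i:ℤ) - j = 0 := by
      apply Int.eq_zero_of_abs_lt_dvd h3
      rw [abs_lt]
      rw [hQ]
      push_cast
      constructor <;> omega
    omega

lemma C_indep (hp2 : p ≠ 2) (V : ℤ) (hV : (p:ℤ) ∣ V) (T : ℕ) (hT : 1 ≤ T) (Q : ℕ)
    (hQ : p^T = 4*Q+1) :
    ((Cint p V Q : ℤ) : ZMod (p^T)) = ((Cint p 0 Q : ℤ) : ZMod (p^T)) := by
  classical
  have hp' : Prime (p:ℤ) := Nat.prime_iff_prime_int.mp hp.out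
  set S : Finset (ZMod (p^T)) := (II p Q).image (fun i : ℕ => (4 * (i : ZMod (p^T)))^2) with hS
  have hinj : Set.InjOn (fun i : ℕ => (4 * (i : ZMod (p^T)))^2) (II p Q : Finset ℕ) := by
    intro i hi j hj h
    exact II_inj p hp2 T hT Q hQ i j hi hj h
  have key : ∀ W : ℤ, ((Cint p W Q : ℤ) : ZMod (p^T)) = ∏ s ∈ S, (s + (W : ZMod (p^T))^2) := by
    intro W
    rw [Cint_eq, hS, prod_image hinj]
    push_cast
    rfl
  rw [key V, key 0]
  have hmem : ∀ s ∈ S, s + (V : ZMod (p^T))^2 ∈ S := by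
    intro s hs
    rw [hS, mem_image] at hs
    obtain ⟨i, hi, rfl⟩ := hs
    have hi' := hi
    simp only [II, mem_filter, mem_range] at hi
    -- 4i is a unit
    have hu : IsUnit ((4*(i:ℤ) : ℤ) : ZMod (p^T)) := (isUnit_zmod_iff p T hT _).mpr hi.2
    obtain ⟨u, hu⟩ := hu
    have hu' : (4 * (i : ZMod (p^T))) = (u : ZMod (p^T)) := by rw [hu]; push_cast; rfl
    obtain ⟨V', rfl⟩ := hV
    set v : ZMod (p^T) := ((u⁻¹ : (ZMod (p^T))ˣ) : ZMod (p^T)) with hv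
    have huv : (u : ZMod (p^T)) * v = 1 := Units.mul_inv u
    set w : ZMod (p^T) := 1 + (((p:ℤ) * V' : ℤ) : ZMod (p^T))^2 * v^2 with hw
    have hwd : ((p:ℕ) : ZMod (p^T)) ∣ w - 1 := by
      refine ⟨(p:ZMod (p^T)) * (V' : ZMod (p^T))^2 * v^2, ?_⟩
      rw [hw]; push_cast; ring
    obtain ⟨a, ha⟩ := one_add_sq p hp2 T hT w hwd
    obtain ⟨j, hj, hjy⟩ := four_cover p hp2 T hT Q hQ ((4 * (i : ZMod (p^T))) * w^a)
    have hsq : (4 * (j : ZMod (p^T)))^2 = (4 * (i : ZMod (p^T)))^2 + (((p:ℤ) * V' : ℤ) : ZMod (p^T))^2 := by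
      have h1 : ((4 * (i : ZMod (p^T))) * w^a)^2 = (4 * (j : ZMod (p^T)))^2 := by
        rcases hjy with h | h
        · rw [h]
        · rw [h]; ring
      rw [← h1, mul_pow, ← ha, hu', hw]
      linear_combination ((((p:ℤ) * V' : ℤ) : ZMod (p^T))^2 * ((u : ZMod (p^T)) * v + 1)) * huv
    rw [hS, mem_image]
    refine ⟨j, ?_, hsq⟩
    simp only [II, mem_filter, mem_range]
    refine ⟨hj, ?_⟩
    intro hd
    apply hi.2
    -- mod p
    have h2 : ((p^T : ℕ) : ℤ) ∣ ((4*(j:ℤ))^2 - ((4*(i:ℤ))^2 + ((p:ℤ)*V')^2)) := by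
      rw [← ZMod.intCast_zmod_eq_zero_iff_dvd]
      push_cast
      push_cast at hsq
      linear_combination hsq
    have h3 : (p:ℤ) ∣ ((4*(j:ℤ))^2 - ((4*(i:ℤ))^2 + ((p:ℤ)*V')^2)) :=
      Dvd.dvd.trans (by push_cast; exact dvd_pow_self _ (by omega)) h2
    have h4 : (p:ℤ) ∣ (4*(i:ℤ))^2 := by
      obtain ⟨c, hc⟩ := h3
      obtain ⟨d, hd⟩ := hd
      refine ⟨d * (4*(j:ℤ)) - (p:ℤ) * V'^2 - c, ?_⟩
      linear_combination (-1)*hc + (4*(j:ℤ)) * hd
    exact hp'.dvd_of_dvd_pow h4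
  have hinj2 : Set.InjOn (fun s : ZMod (p^T) => s + (V : ZMod (p^T))^2) (S : Set (ZMod (p^T))) := by
    intro a _ b _ h
    exact add_right_cancel h
  have himg : S.image (fun s : ZMod (p^T) => s + (V : ZMod (p^T))^2) = S := by
    apply eq_of_subset_of_card_le
    · intro x hx
      rw [mem_image] at hx
      obtain ⟨s, hs, rfl⟩ := hx
      exact hmem s hs
    · rw [card_image_of_injOn hinj2]
  calc ∏ s ∈ S, (s + (V : ZMod (p^T))^2) = ∏ s ∈ S.image (fun s : ZMod (p^T) => s + (V : ZMod (p^T))^2), s := by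
        rw [prod_image hinj2]
    _ = ∏ s ∈ S, s := by rw [himg]
    _ = ∏ s ∈ S, (s + ((0:ℤ) : ZMod (p^T))^2) := by simp

/-- relation for the deformed products -/
theorem PA_rel (hp2 : p ≠ 2) (K : ℕ) (hV : (p:ℤ) ∣ (2*(K:ℤ)+1)) (T : ℕ) (hT : 1 ≤ T) (Q : ℕ)
    (hQ : p^T = 4*Q+1) :
    ((p^T : ℕ) : ℤ) ∣ Pint p ((2*(K:ℤ)+1)^4) Q * rN (gV p (2*(K:ℤ)+1)) K
      - Cint p 0 Q * rD (gV p (2*(K:ℤ)+1)) K := by
  rw [← ZMod.intCast_zmod_eq_zero_iff_dvd]
  rw [Int.cast_sub, Int.cast_mul, Int.cast_mul]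
  have hg : ∀ j : ℕ, ((gV p (2*(K:ℤ)+1) j : ℤ) : ZMod (p^T)) = fV p (2*(K:ℤ)+1) T (2*(j:ℤ)) := by
    intro j
    have hp' : Prime (p:ℤ) := Nat.prime_iff_prime_int.mp hp.out
    unfold gV fV
    by_cases hd : p ∣ j
    · have hd' : (p:ℤ) ∣ 2*(j:ℤ) := Dvd.dvd.mul_left (by exact_mod_cast hd) 2
      rw [if_pos hd, if_pos hd']
      simp
    · have hd' : ¬ (p:ℤ) ∣ 2*(j:ℤ) := by
        intro h
        rcases hp'.dvd_or_dvd h with h | h
        · have h22 : p ∣ 2 := by exact_mod_cast h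
          exact hp2 ((Nat.prime_dvd_prime_iff_eq hp.out Nat.prime_two).mp h22)
        · exact hd (by exact_mod_cast h)
      rw [if_neg hd, if_neg hd']
      push_cast
      ring
  have hN : ((rN (gV p (2*(K:ℤ)+1)) K : ℤ) : ZMod (p^T))
      = rN (fun j => fV p (2*(K:ℤ)+1) T (2*(j:ℤ))) K := by
    unfold rN
    rw [Int.cast_prod]
    exact prod_congr rfl (fun j _ => hg j)
  have hD : ((rD (gV p (2*(K:ℤ)+1)) K : ℤ) : ZMod (p^T))
      = rD (fun j => fV p (2*(K:ℤ)+1) T (2*(j:ℤ))) K := by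
    unfold rD
    rw [Int.cast_prod]
    exact prod_congr rfl (fun j _ => hg j)
  rw [hN, hD, Pq_center p _ hV T hT Q hQ hp2]
  have hm := Pq_main (fV p (2*(K:ℤ)+1) T) Q (fV_per p _ T hT Q hQ) (fV_neg p _ T)
    (fV_zero p _ T) K
  rw [← Cint_cast, C_indep p hp2 _ hV T hT Q hQ] at hm
  have e : (2*(K:ℤ)+1+1) = 2*(K:ℤ)+2 := by ring
  rw [e, hm]
  ring

/-- undeformed version of the interpolating product -/
def PBint (z : ℤ) (Q : ℕ) : ℤ := ∏ i ∈ range Q, (if p ∣ (i+1) then 1 else (16*((i:ℤ)+1)^2 - z)^2)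

lemma PB_center (V : ℤ) (hV : (p:ℤ) ∣ V) (T : ℕ) (hT : 1 ≤ T) (Q : ℕ) (hQ : p^T = 4*Q+1)
    (hp2 : p ≠ 2) : ((PBint p (V^2) Q : ℤ) : ZMod (p^T)) = Pq (fV p 0 T) Q (V+1) := by
  have hper := fV_per p 0 T hT Q hQ
  have h1 : Pq (fV p 0 T) Q (V+1) = (∏ i ∈ range Q, fV p 0 T (V - 4*((i:ℤ)+1)))
      * (∏ i ∈ range Q, fV p 0 T (V + 4*((i:ℤ)+1))) := by
    unfold Pq
    rw [show 2*Q+1 = Q + (Q+1) by ring, prod_range_add]
    congr 1
    · rw [← prod_range_reflect]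
      apply prod_congr rfl
      intro i hi
      have hi' : i < Q := by simpa using hi
      have e : ((Q-1-i : ℕ) : ℤ) = Q - 1 - i := by omega
      rw [e]
      have : V + 1 + 4*((Q:ℤ) - 1 - i) = (V - 4*((i:ℤ)+1)) + (4*(Q:ℤ)+1) := by ring
      rw [this, hper]
    · rw [prod_range_succ']
      have h0 : fV p 0 T (V + 1 + 4*((Q+0:ℕ):ℤ)) = 1 := by
        have : V + 1 + 4*((Q+0:ℕ):ℤ) = V + (4*(Q:ℤ)+1) := by push_cast; ring
        rw [this, hper]
        unfold fV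
        rw [if_pos hV]
      rw [h0, mul_one]
      apply prod_congr rfl
      intro i _
      have : V + 1 + 4*((Q+(i+1):ℕ):ℤ) = (V + 4*((i:ℤ)+1)) + (4*(Q:ℤ)+1) := by push_cast; ring
      rw [this, hper]
  rw [h1, ← prod_mul_distrib]
  unfold PBint
  push_cast
  apply prod_congr rfl
  intro i _
  have hp' : Prime (p:ℤ) := Nat.prime_iff_prime_int.mp hp.out
  have h4 : ∀ z : ℤ, (p:ℤ) ∣ 4*z → (p:ℤ) ∣ z := by
    intro z hz
    rcases hp'.dvd_or_dvd hz with h | h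
    · exfalso
      have h22 : p ∣ 2^2 := by
        have : (p:ℤ) ∣ ((2^2:ℕ):ℤ) := by push_cast; exact h
        exact_mod_cast this
      have := (Nat.prime_dvd_prime_iff_eq hp.out Nat.prime_two).mp (hp.out.dvd_of_dvd_pow h22)
      exact hp2 this
    · exact h
  unfold fV
  by_cases hd : p ∣ i+1
  · have hd' : (p:ℤ) ∣ 4*((i:ℤ)+1) := by
      apply Dvd.dvd.mul_left
      exact_mod_cast hd
    rw [if_pos hd, if_pos (dvd_sub hV hd'), if_pos (dvd_add hV hd'), one_mul]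
  · have hd' : ¬ (p:ℤ) ∣ ((i:ℤ)+1) := by
      intro h; apply hd; exact_mod_cast h
    rw [if_neg hd, if_neg (fun h => hd' (h4 _ ((dvd_sub_right hV).mp h))),
      if_neg (fun h => hd' (h4 _ ((dvd_add_right hV).mp h)))]
    push_cast
    ring

theorem PB_rel (hp2 : p ≠ 2) (K : ℕ) (hV : (p:ℤ) ∣ (2*(K:ℤ)+1)) (T : ℕ) (hT : 1 ≤ T) (Q : ℕ)
    (hQ : p^T = 4*Q+1) :
    ((p^T : ℕ) : ℤ) ∣ PBint p ((2*(K:ℤ)+1)^2) Q * rN (gV p 0) K
      - Cint p 0 Q * rD (gV p 0) K := by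
  rw [← ZMod.intCast_zmod_eq_zero_iff_dvd]
  rw [Int.cast_sub, Int.cast_mul, Int.cast_mul]
  have hg : ∀ j : ℕ, ((gV p 0 j : ℤ) : ZMod (p^T)) = fV p 0 T (2*(j:ℤ)) := by
    intro j
    have hp' : Prime (p:ℤ) := Nat.prime_iff_prime_int.mp hp.out
    unfold gV fV
    by_cases hd : p ∣ j
    · have hd' : (p:ℤ) ∣ 2*(j:ℤ) := Dvd.dvd.mul_left (by exact_mod_cast hd) 2
      rw [if_pos hd, if_pos hd']
      simp
    · have hd' : ¬ (p:ℤ) ∣ 2*(j:ℤ) := by
        intro h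
        rcases hp'.dvd_or_dvd h with h | h
        · have h22 : p ∣ 2 := by exact_mod_cast h
          exact hp2 ((Nat.prime_dvd_prime_iff_eq hp.out Nat.prime_two).mp h22)
        · exact hd (by exact_mod_cast h)
      rw [if_neg hd, if_neg hd']
      push_cast
      ring
  have hN : ((rN (gV p 0) K : ℤ) : ZMod (p^T))
      = rN (fun j => fV p 0 T (2*(j:ℤ))) K := by
    unfold rN
    rw [Int.cast_prod]
    exact prod_congr rfl (fun j _ => hg j)
  have hD : ((rD (gV p 0) K : ℤ) : ZMod (p^T))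
      = rD (fun j => fV p 0 T (2*(j:ℤ))) K := by
    unfold rD
    rw [Int.cast_prod]
    exact prod_congr rfl (fun j _ => hg j)
  rw [hN, hD, PB_center p _ hV T hT Q hQ hp2]
  have hm := Pq_main (fV p 0 T) Q (fV_per p _ T hT Q hQ) (fV_neg p _ T)
    (fV_zero p _ T) K
  rw [← Cint_cast] at hm
  have e : (2*(K:ℤ)+1+1) = 2*(K:ℤ)+2 := by ring
  rw [e, hm]
  ring

lemma P_zero (Q : ℕ) : Pint p 0 Q = PBint p 0 Q := by
  unfold Pint PBint
  apply prod_congr rfl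
  intro i _
  split_ifs
  · rfl
  · ring

end arith

section monoid

variable {M : Type*} [CommMonoid M]

/-- product over odd `1 ≤ j ≤ K` -/
def rO (g : ℕ → M) (K : ℕ) : M := ∏ j ∈ (Icc 1 K).filter (fun j => Odd j), g j

/-- product over even `1 ≤ j ≤ K` -/
def rE (g : ℕ → M) (K : ℕ) : M := ∏ j ∈ (Icc 1 K).filter (fun j => Even j), g j

lemma rN_even (g : ℕ → M) (K : ℕ) (h : Even K) : rN g K = rO g K := by
  unfold rN rO
  congr 1
  apply filter_congr
  intro j _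
  simp only [Nat.odd_iff, Nat.even_iff] at *
  omega

lemma rD_even (g : ℕ → M) (K : ℕ) (h : Even K) : rD g K = rE g K := by
  unfold rD rE
  congr 1
  apply filter_congr
  intro j _
  simp only [Nat.even_iff] at *
  omega

lemma rN_odd (g : ℕ → M) (K : ℕ) (h : Odd K) : rN g K = rE g K := by
  unfold rN rE
  congr 1
  apply filter_congr
  intro j _
  simp only [Nat.odd_iff, Nat.even_iff] at *
  omega

lemma rD_odd (g : ℕ → M) (K : ℕ) (h : Odd K) : rD g K = rO g K := by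
  unfold rD rO
  congr 1
  apply filter_congr
  intro j _
  simp only [Nat.odd_iff, Nat.even_iff] at *
  omega

lemma rO_mul (g h : ℕ → M) (K : ℕ) : rO (fun j => g j * h j) K = rO g K * rO h K := by
  unfold rO; rw [prod_mul_distrib]

lemma rE_mul (g h : ℕ → M) (K : ℕ) : rE (fun j => g j * h j) K = rE g K * rE h K := by
  unfold rE; rw [prod_mul_distrib]

lemma rO_range (g : ℕ → M) (m : ℕ) :
    rO g (2*m) = ∏ j ∈ range m, g (2*j+1) ∧ rO g (2*m+1) = ∏ j ∈ range (m+1), g (2*j+1) := by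
  have h1 : ∀ m : ℕ, rO g (2*m+1) = rO g (2*m) * g (2*m+1) := by
    intro m
    unfold rO
    have : (Icc 1 (2*m+1)).filter (fun j => Odd j)
        = insert (2*m+1) ((Icc 1 (2*m)).filter (fun j => Odd j)) := by
      ext j
      simp only [mem_filter, mem_Icc, mem_insert, Nat.odd_iff]
      omega
    rw [this, prod_insert (by simp), mul_comm]
  have h2 : ∀ m : ℕ, rO g (2*(m+1)) = rO g (2*m+1) := by
    intro m
    unfold rO
    congr 1
    ext j
    simp only [mem_filter, mem_Icc, Nat.odd_iff]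
    omega
  induction m with
  | zero =>
    constructor
    · simp [rO]
    · rw [h1]; simp [rO]
  | succ m ih =>
    have e1 : rO g (2*(m+1)) = ∏ j ∈ range (m+1), g (2*j+1) := by rw [h2, ih.2]
    refine ⟨e1, ?_⟩
    rw [h1, e1, prod_range_succ _ (m+1)]

lemma rE_range (g : ℕ → M) (m : ℕ) :
    rE g (2*m) = ∏ j ∈ range m, g (2*j+2) ∧ rE g (2*m+1) = ∏ j ∈ range m, g (2*j+2) := by
  have h1 : ∀ m : ℕ, rE g (2*m+1) = rE g (2*m) := by
    intro m
    unfold rE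
    congr 1
    ext j
    simp only [mem_filter, mem_Icc, Nat.even_iff]
    omega
  have h2 : ∀ m : ℕ, rE g (2*(m+1)) = rE g (2*m+1) * g (2*m+2) := by
    intro m
    unfold rE
    have : (Icc 1 (2*(m+1))).filter (fun j => Even j)
        = insert (2*m+2) ((Icc 1 (2*m+1)).filter (fun j => Even j)) := by
      ext j
      simp only [mem_filter, mem_Icc, mem_insert, Nat.even_iff]
      omega
    rw [this, prod_insert (by simp), mul_comm]
  induction m with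
  | zero =>
    constructor
    · simp [rE]
    · rw [h1]; simp [rE]
  | succ m ih =>
    have e1 : rE g (2*(m+1)) = ∏ j ∈ range (m+1), g (2*j+2) := by
      rw [h2, ih.2, prod_range_succ]
    exact ⟨e1, by rw [h1, e1]⟩

/-- splitting off multiples of `p` -/
lemma filt_split (Pr : ℕ → Prop) [DecidablePred Pr] (g : ℕ → M) (p k K : ℕ) (hp : p % 2 = 1)
    (hK : p * (2*k+1) = 2*K+1) (hPr : ∀ j, Pr (p*j) ↔ Pr j) :
    ∏ j ∈ (Icc 1 K).filter Pr, g j
      = (∏ j ∈ (Icc 1 K).filter Pr, (if p ∣ j then 1 else g j))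
        * ∏ j ∈ (Icc 1 k).filter Pr, g (p*j) := by
  have h1 : ∏ j ∈ (Icc 1 K).filter Pr, g j
      = (∏ j ∈ (Icc 1 K).filter Pr, (if p ∣ j then 1 else g j))
        * ∏ j ∈ (Icc 1 K).filter Pr, (if p ∣ j then g j else 1) := by
    rw [← prod_mul_distrib]
    apply prod_congr rfl
    intro j _
    by_cases h : p ∣ j <;> simp [h]
  rw [h1]
  congr 1
  rw [prod_ite, prod_const_one, mul_one, filter_filter]
  symm
  apply prod_bij (fun j _ => p * j)
  · intro j hj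
    simp only [mem_filter, mem_Icc] at hj ⊢
    obtain ⟨⟨ha, hb⟩, hc⟩ := hj
    have hp0 : 1 ≤ p := by omega
    have h3 : 1 ≤ p * j := Nat.mul_pos hp0 ha
    have h4 : 2 * (p * j) + p ≤ 2*K+1 := by
      rw [← hK]; nlinarith
    exact ⟨⟨h3, by omega⟩, (hPr j).mpr hc, dvd_mul_right p j⟩
  · intro a _ b _ hab
    exact Nat.eq_of_mul_eq_mul_left (by omega) hab
  · intro b hb
    simp only [mem_filter, mem_Icc] at hb
    obtain ⟨⟨ha, hb'⟩, hc, ⟨j, rfl⟩⟩ := hb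
    refine ⟨j, ?_, rfl⟩
    simp only [mem_filter, mem_Icc]
    have hj : 1 ≤ j := by
      rcases Nat.eq_zero_or_pos j with h | h
      · subst h; simp at ha
      · exact h
    have h6 : p * (2 * j) < p * (2 * k + 1) := by
      rw [hK]
      have : p * (2*j) = 2 * (p * j) := by ring
      omega
    have h7 : 2 * j < 2 * k + 1 := Nat.lt_of_mul_lt_mul_left h6
    exact ⟨⟨hj, by omega⟩, (hPr j).mp hc⟩
  · intro a _; rfl

lemma rO_split (g : ℕ → M) (p k K : ℕ) (hp : p % 2 = 1) (hK : p * (2*k+1) = 2*K+1) :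
    rO g K = rO (fun j => if p ∣ j then 1 else g j) K * rO (fun j => g (p*j)) k := by
  unfold rO
  apply filt_split _ g p k K hp hK
  intro j
  simp only [Nat.odd_iff]
  rw [Nat.mul_mod, hp, one_mul, Nat.mod_mod]

lemma rE_split (g : ℕ → M) (p k K : ℕ) (hp : p % 2 = 1) (hK : p * (2*k+1) = 2*K+1) :
    rE g K = rE (fun j => if p ∣ j then 1 else g j) K * rE (fun j => g (p*j)) k := by
  unfold rE
  apply filt_split _ g p k K hp hK
  intro j
  simp only [Nat.even_iff]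
  rw [Nat.mul_mod, hp, one_mul, Nat.mod_mod]

lemma rO_const (c : M) (K : ℕ) :
    rO (fun _ => c) K = rE (fun _ => c) K * (if Even K then 1 else c) := by
  rcases Nat.even_or_odd' K with ⟨m, rfl | rfl⟩
  · rw [(rO_range _ m).1, (rE_range _ m).1]; simp
  · rw [(rO_range _ m).2, (rE_range _ m).2]
    have : ¬ Even (2*m+1) := by simp
    rw [if_neg this]
    simp [pow_succ]

end monoid

end Pool.Agent.NineA
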