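import Pool.Agent.NineA.StepsA

set_option autoImplicit false
set_option linter.unusedSectionVars false
set_option linter.unusedVariables false

open Finset

namespace Pool.Agent.NineA

open Pool.Agent.Swisher

variable (p : ℕ) [hp : Fact p.Prime]

/-- congruence modulo `p^n` in `ℚ_p` -/
def CE (n : ℕ) (x y : ℚ_[p]) : Prop := ‖x - y‖ ≤ (p:ℝ)^(-(n:ℤ))

variable {p}

lemma CE_refl (n : ℕ) (x : ℚ_[p]) : CE p n x x := by
  unfold CE
  rw [sub_self, norm_zero]
  have hp0 : (0:ℝ) < p := by exact_mod_cast hp.out.pos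
  positivity

lemma CE_symm {n : ℕ} {x y : ℚ_[p]} (h : CE p n x y) : CE p n y x := by
  unfold CE at *
  rwa [norm_sub_rev]

lemma CE_trans {n : ℕ} {x y z : ℚ_[p]} (h : CE p n x y) (h' : CE p n y z) : CE p n x z := by
  unfold CE at *
  have e : x - z = (x - y) + (y - z) := by ring
  rw [e]
  exact (Padic.nonarchimedean _ _).trans (max_le h h')

lemma CE_add {n : ℕ} {x y x' y' : ℚ_[p]} (h : CE p n x y) (h' : CE p n x' y') :
    CE p n (x + x') (y + y') := by
  unfold CE at *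
  have e : x + x' - (y + y') = (x - y) + (x' - y') := by ring
  rw [e]
  exact (Padic.nonarchimedean _ _).trans (max_le h h')

lemma CE_neg {n : ℕ} {x y : ℚ_[p]} (h : CE p n x y) : CE p n (-x) (-y) := by
  unfold CE at *
  have e : -x - -y = -(x - y) := by ring
  rwa [e, norm_neg]

lemma CE_sub {n : ℕ} {x y x' y' : ℚ_[p]} (h : CE p n x y) (h' : CE p n x' y') :
    CE p n (x - x') (y - y') := by
  rw [sub_eq_add_neg, sub_eq_add_neg]
  exact CE_add h (CE_neg h')

lemma CE_mul {n : ℕ} {x y x' y' : ℚ_[p]} (h : CE p n x y) (h' : CE p n x' y')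
    (hx : ‖x'‖ ≤ 1) (hy : ‖y‖ ≤ 1) : CE p n (x * x') (y * y') := by
  unfold CE at *
  have e : x * x' - y * y' = (x - y) * x' + y * (x' - y') := by ring
  rw [e]
  refine (Padic.nonarchimedean _ _).trans (max_le ?_ ?_)
  · rw [norm_mul]
    calc ‖x - y‖ * ‖x'‖ ≤ ‖x - y‖ * 1 := mul_le_mul_of_nonneg_left hx (norm_nonneg _)
      _ ≤ _ := by rw [mul_one]; exact h
  · rw [norm_mul]
    calc ‖y‖ * ‖x' - y'‖ ≤ 1 * ‖x' - y'‖ := mul_le_mul_of_nonneg_right hy (norm_nonneg _)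
      _ ≤ _ := by rw [one_mul]; exact h'

lemma CE_sum {n : ℕ} {ι : Type*} (s : Finset ι) (f g : ι → ℚ_[p])
    (h : ∀ i ∈ s, CE p n (f i) (g i)) : CE p n (∑ i ∈ s, f i) (∑ i ∈ s, g i) := by
  classical
  induction s using Finset.induction_on with
  | empty => simp only [sum_empty]; exact CE_refl n 0
  | insert a s ha ih =>
    rw [sum_insert ha, sum_insert ha]
    exact CE_add (h a (mem_insert_self a s)) (ih (fun i hi => h i (mem_insert_of_mem hi)))

lemma CE_prod {n : ℕ} (k : ℕ) (f g : ℕ → ℚ_[p])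
    (h : ∀ i < k, CE p n (f i) (g i)) (hf : ∀ i < k, ‖f i‖ ≤ 1) (hg : ∀ i < k, ‖g i‖ ≤ 1) :
    CE p n (∏ i ∈ range k, f i) (∏ i ∈ range k, g i) ∧ ‖∏ i ∈ range k, f i‖ ≤ 1
      ∧ ‖∏ i ∈ range k, g i‖ ≤ 1 := by
  induction k with
  | zero =>
    simp only [range_zero, prod_empty, norm_one, le_refl, and_true]
    exact CE_refl n 1
  | succ k ih =>
    obtain ⟨h1, h2, h3⟩ := ih (fun i hi => h i (by omega)) (fun i hi => hf i (by omega))
      (fun i hi => hg i (by omega))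
    rw [prod_range_succ, prod_range_succ]
    refine ⟨CE_mul h1 (h k (by omega)) (hf k (by omega)) h3, ?_, ?_⟩
    · rw [norm_mul]; exact mul_le_one₀ h2 (norm_nonneg _) (hf k (by omega))
    · rw [norm_mul]; exact mul_le_one₀ h3 (norm_nonneg _) (hg k (by omega))

lemma CE_inv {n : ℕ} {x y : ℚ_[p]} (h : CE p n x y) (hx : ‖x‖ = 1) (hy : ‖y‖ = 1) :
    CE p n x⁻¹ y⁻¹ := by
  unfold CE at *
  have hx0 : x ≠ 0 := by intro h0; rw [h0, norm_zero] at hx; exact zero_ne_one hx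
  have hy0 : y ≠ 0 := by intro h0; rw [h0, norm_zero] at hy; exact zero_ne_one hy
  have e : x⁻¹ - y⁻¹ = -(x - y) * (x⁻¹ * y⁻¹) := by field_simp; ring
  rw [e, norm_mul, norm_neg, norm_mul, norm_inv, norm_inv, hx, hy]
  simpa using h

lemma CE_mono {n m : ℕ} (hnm : n ≤ m) {x y : ℚ_[p]} (h : CE p m x y) : CE p n x y := by
  unfold CE at *
  refine h.trans ?_
  apply zpow_le_zpow_right₀
  · exact_mod_cast hp.out.one_lt.le
  · omega

lemma CE_pmul (j : ℕ) {n : ℕ} {x y : ℚ_[p]} (h : CE p n x y) :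
    CE p (n+j) ((p:ℚ_[p])^j * x) ((p:ℚ_[p])^j * y) := by
  have hp0 : (0:ℝ) < p := by exact_mod_cast hp.out.pos
  unfold CE at *
  rw [← mul_sub, norm_mul, norm_pow, Padic.norm_p]
  have e : (p:ℝ)^(-((n+j:ℕ):ℤ)) = (p:ℝ)⁻¹^j * (p:ℝ)^(-(n:ℤ)) := by
    push_cast
    rw [neg_add, zpow_add₀ hp0.ne', mul_comm]
    congr 1
    rw [zpow_neg, zpow_natCast, inv_pow]
  rw [e]
  exact mul_le_mul_of_nonneg_left h (by positivity)

lemma CE_int {n : ℕ} {a b : ℤ} (h : (p:ℤ)^n ∣ a - b) : CE p n (a : ℚ_[p]) (b : ℚ_[p]) := by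
  unfold CE
  have := (Padic.norm_int_le_pow_iff_dvd (p := p) (a - b) n).mpr (by exact_mod_cast h)
  push_cast at this
  exact this

section base

variable (m : ℕ) (hpm : p = 4*m+1)

include hpm

lemma unit_lt (n : ℕ) (h1 : 0 < n) (h2 : n < p) : ‖(n : ℚ_[p])‖ = 1 := by
  have := norm_unit p (n:ℤ) (by
    intro h
    have h' : p ∣ n := by exact_mod_cast h
    have := Nat.le_of_dvd h1 h'
    omega)
  exact_mod_cast this

lemma unit_odd (j : ℕ) (hj : j < 2*m) : ‖(2*(j:ℚ_[p])+1)‖ = 1 := by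
  have := unit_lt m hpm (2*j+1) (by omega) (by omega)
  push_cast at this
  exact this

lemma unit_even (j : ℕ) (hj : j < 4*m) : ‖(2*(j:ℚ_[p])+2)‖ = 1 := by
  have h1 := unit_lt m hpm (j+1) (by omega) (by omega)
  have h2 := norm_two p (by omega)
  push_cast at h1
  have e : (2*(j:ℚ_[p])+2) = 2 * ((j:ℚ_[p])+1) := by ring
  rw [e, norm_mul, h1, h2, one_mul]

/-- the harmonic numbers of order two -/
noncomputable def HH (k : ℕ) : ℚ_[p] :=
  ∑ j ∈ range k, (((2*(j:ℚ_[p])+1)^2)⁻¹ + ((2*(j:ℚ_[p])+2)^2)⁻¹)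

omit hpm in
lemma HH_succ (k : ℕ) : HH (p := p) (k+1)
    = HH k + (((2*(k:ℚ_[p])+1)^2)⁻¹ + ((2*(k:ℚ_[p])+2)^2)⁻¹) := by
  unfold HH; rw [sum_range_succ]

lemma CE_sq_inv {x y : ℚ_[p]} (h : CE p 1 x y) (hx : ‖x‖ = 1) (hy : ‖y‖ = 1) :
    CE p 1 (x^2)⁻¹ (y^2)⁻¹ := by
  apply CE_inv
  · rw [pow_two, pow_two]
    exact CE_mul h h hx.le hy.le
  · rw [norm_pow, hx, one_pow]
  · rw [norm_pow, hy, one_pow]

lemma CE_p {x y : ℚ_[p]} (z : ℤ) (h : x - y = p * z) : CE p 1 x y := by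
  unfold CE
  rw [h, norm_mul, Padic.norm_p]
  have := Padic.norm_int_le_one (p := p) z
  have hp0 : (0:ℝ) < p := by exact_mod_cast hp.out.pos
  calc (p:ℝ)⁻¹ * ‖(z:ℚ_[p])‖ ≤ (p:ℝ)⁻¹ * 1 := mul_le_mul_of_nonneg_left this (by positivity)
    _ = _ := by simp

lemma sq_neg {x y : ℚ_[p]} (z : ℤ) (h : x + y = p * z) (hx : ‖x‖ = 1) (hy : ‖y‖ = 1) :
    CE p 1 (x^2)⁻¹ (y^2)⁻¹ := by
  have : CE p 1 x (-y) := CE_p m hpm z (by rw [sub_neg_eq_add]; exact h)
  have h2 := CE_sq_inv m hpm this hx (by rw [norm_neg]; exact hy)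
  rwa [neg_sq] at h2

lemma HH_refl (k : ℕ) (hk : k ≤ 2*m) : CE p 1 (HH k + HH (2*m-k)) (HH (p := p) (2*m)) := by
  induction k with
  | zero =>
    have : HH (p := p) 0 = 0 := by simp [HH]
    rw [this, zero_add, Nat.sub_zero]
    exact CE_refl _ _
  | succ k ih =>
    have h := ih (by omega)
    refine CE_trans ?_ h
    obtain ⟨j, hj⟩ : ∃ j, 2*m - k = j+1 := ⟨2*m-k-1, by omega⟩
    have hj2 : 2*m-(k+1) = j := by omega
    rw [hj, hj2, HH_succ, HH_succ]
    have hkj : (k:ℚ_[p]) + j + 1 = 2*m := by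
      have : k + j + 1 = 2*m := by omega
      exact_mod_cast this
    have hpq : (p:ℚ_[p]) = 4*m+1 := by
      have := congrArg (fun n : ℕ => (n : ℚ_[p])) hpm
      push_cast at this
      exact this
    have a1 := sq_neg m hpm (x := (2*(k:ℚ_[p])+1)) (y := (2*(j:ℚ_[p])+2)) 1
      (by push_cast; rw [mul_one, hpq]; linear_combination 2*hkj)
      (unit_odd m hpm k (by omega)) (unit_even m hpm j (by omega))
    have a2 := sq_neg m hpm (x := (2*(k:ℚ_[p])+2)) (y := (2*(j:ℚ_[p])+1)) 1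
      (by push_cast; rw [mul_one, hpq]; linear_combination 2*hkj)
      (unit_even m hpm k (by omega)) (unit_odd m hpm j (by omega))
    have e1 : HH (p := p) k + (((2*(k:ℚ_[p])+1)^2)⁻¹ + ((2*(k:ℚ_[p])+2)^2)⁻¹) + HH j
        = (HH k + HH j) + (((2*(k:ℚ_[p])+1)^2)⁻¹ + ((2*(k:ℚ_[p])+2)^2)⁻¹) := by ring
    have e2 : HH (p := p) k + (HH j + (((2*(j:ℚ_[p])+1)^2)⁻¹ + ((2*(j:ℚ_[p])+2)^2)⁻¹))
        = (HH k + HH j) + (((2*(j:ℚ_[p])+2)^2)⁻¹ + ((2*(j:ℚ_[p])+1)^2)⁻¹) := by ring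
    rw [e1, e2]
    exact CE_add (CE_refl _ _) (CE_add a1 a2)

omit hpm in
lemma HH_pair (k : ℕ) : HH (p := p) k = ∑ i ∈ range (2*k), (((i:ℚ_[p])+1)^2)⁻¹ := by
  induction k with
  | zero => simp [HH]
  | succ k ih =>
    rw [HH_succ, ih, show 2*(k+1) = 2*k+1+1 by ring, sum_range_succ, sum_range_succ]
    push_cast
    rw [add_assoc]
    congr 4
    ring

lemma HH_full (hm : 0 < m) : CE p 1 (HH (p := p) (2*m)) 0 := by
  have hpq : (p:ℚ_[p]) = 4*m+1 := by
    have := congrArg (fun n : ℕ => (n : ℚ_[p])) hpm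
    push_cast at this
    exact this
  -- H = 4 * sum 1/(2i+2)^2
  have h1 : HH (p := p) (2*m) = 4 * ∑ i ∈ range (2*(2*m)), ((2*(i:ℚ_[p])+2)^2)⁻¹ := by
    rw [HH_pair, mul_sum]
    apply sum_congr rfl
    intro i _
    have : (2*(i:ℚ_[p])+2)^2 = 4 * ((i:ℚ_[p])+1)^2 := by ring
    rw [this, mul_inv]
    rw [← mul_assoc, mul_inv_cancel₀ (by norm_num : (4:ℚ_[p]) ≠ 0), one_mul]
  have h2 : CE p 1 (∑ i ∈ range (2*(2*m)), ((2*(i:ℚ_[p])+2)^2)⁻¹) (HH (p := p) (2*m)) := by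
    rw [two_mul (2*m), sum_range_add]
    unfold HH
    rw [sum_add_distrib, add_comm]
    apply CE_add
    · apply CE_sum
      intro i hi
      have hi' : i < 2*m := by simpa using hi
      apply CE_sq_inv m hpm
      · apply CE_p m hpm 1
        push_cast
        rw [hpq]; ring
      · have := unit_even m hpm (2*m+i) (by omega)
        exact this
      · exact unit_odd m hpm i hi'
    · exact CE_refl _ _
  have h4 : ‖(4:ℚ_[p])‖ ≤ 1 := (norm_four p (by omega)).le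
  have h3 : CE p 1 (4 * ∑ i ∈ range (2*(2*m)), ((2*(i:ℚ_[p])+2)^2)⁻¹) (4 * HH (p := p) (2*m)) := by
    unfold CE at *
    rw [← mul_sub, norm_mul]
    calc _ ≤ 1 * ‖(∑ i ∈ range (2*(2*m)), ((2*(i:ℚ_[p])+2)^2)⁻¹) - HH (p := p) (2*m)‖ :=
          mul_le_mul_of_nonneg_right h4 (norm_nonneg _)
      _ ≤ _ := by rw [one_mul]; exact h2
  rw [← h1] at h3
  unfold CE at *
  have e : HH (p := p) (2*m) - 4 * HH (p := p) (2*m) = -(3 * HH (p := p) (2*m)) := by ring
  have h33 : ‖(3:ℚ_[p])‖ = 1 := by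
    have := unit_lt m hpm 3 (by norm_num) (by omega)
    exact_mod_cast this
  rw [e, norm_neg, norm_mul, h33, one_mul] at h3
  rw [sub_zero]
  exact h3

/-- `(1/2)_k/k!` modulo `p` -/
lemma be_binom (k : ℕ) (hk : k ≤ 2*m) :
    CE p 1 ((be k : ℚ) : ℚ_[p]) ((-1)^k * ((Nat.choose (2*m) k : ℕ) : ℚ_[p])) := by
  have hpq : (p:ℚ_[p]) = 4*m+1 := by
    have := congrArg (fun n : ℕ => (n : ℚ_[p])) hpm
    push_cast at this
    exact this
  have h1 : ((-1)^k * ((Nat.choose (2*m) k : ℕ) : ℚ_[p]))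
      = ∏ j ∈ range k, ((2*(j:ℚ_[p])+1-p)/(2*(j:ℚ_[p])+2)) := by
    clear hk
    induction k with
    | zero => simp
    | succ k ih =>
      rw [prod_range_succ, ← ih]
      have hc := Nat.choose_succ_right_eq (2*m) k
      have h2 : (2*(k:ℚ_[p])+2) ≠ 0 := by
        have : ((2*k+2 : ℕ) : ℚ_[p]) ≠ 0 := by exact_mod_cast (by omega : 2*k+2 ≠ 0)
        push_cast at this; exact this
      rw [mul_div_assoc', eq_div_iff h2, pow_succ]
      rcases le_or_gt k (2*m) with hkm | hkm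
      · have hc' := congrArg (fun n : ℕ => (n : ℚ_[p])) hc
        push_cast [Nat.cast_sub hkm] at hc'
        rw [hpq]
        linear_combination (-2*(-1)^k) * hc'
      · have z1 : Nat.choose (2*m) k = 0 := Nat.choose_eq_zero_of_lt hkm
        have z2 : Nat.choose (2*m) (k+1) = 0 := Nat.choose_eq_zero_of_lt (by omega)
        rw [z1, z2]; simp
  rw [h1]
  have h2 : ((be k : ℚ) : ℚ_[p]) = ∏ j ∈ range k, ((2*(j:ℚ_[p])+1)/(2*(j:ℚ_[p])+2)) := by
    unfold be; push_cast; rfl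
  rw [h2]
  have hn : ∀ z : ℤ, ‖(z : ℚ_[p])‖ ≤ 1 := fun z => Padic.norm_int_le_one z
  refine (CE_prod k _ _ ?_ ?_ ?_).1
  · intro j hj
    rw [div_eq_mul_inv, div_eq_mul_inv]
    apply CE_mul _ (CE_refl _ _)
    · rw [norm_inv, unit_even m hpm j (by omega)]; norm_num
    · have := hn (2*(j:ℤ)+1-p); push_cast at this; exact this
    · apply CE_p m hpm 1
      push_cast; ring
  · intro j hj
    rw [norm_div, unit_even m hpm j (by omega), div_one]
    have := hn (2*(j:ℤ)+1); push_cast at this; exact this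
  · intro j hj
    rw [norm_div, unit_even m hpm j (by omega), div_one]
    have := hn (2*(j:ℤ)+1-p); push_cast at this; exact this

lemma be_refl (k : ℕ) (hk : k ≤ 2*m) :
    CE p 1 ((be k : ℚ) : ℚ_[p]) ((be (2*m-k) : ℚ) : ℚ_[p]) := by
  refine CE_trans (be_binom m hpm k hk) ?_
  have h := be_binom m hpm (2*m-k) (by omega)
  rw [Nat.choose_symm hk] at h
  have e : ((-1:ℚ_[p]))^(2*m-k) = (-1)^k := by
    have h1 : ((-1:ℚ_[p]))^(2*m-k) * (-1)^k = 1 := by
      rw [← pow_add, Nat.sub_add_cancel hk, pow_mul]; norm_num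
    have h2 : ((-1:ℚ_[p]))^k * (-1)^k = 1 := by
      rw [← pow_add, ← two_mul, pow_mul]; norm_num
    have h3 : ((-1:ℚ_[p]))^k ≠ 0 := pow_ne_zero _ (by norm_num)
    exact mul_right_cancel₀ h3 (h1.trans h2.symm)
  rw [e] at h
  exact CE_symm h

lemma HH_norm (k : ℕ) (hk : k ≤ 2*m) : ‖HH (p := p) k‖ ≤ 1 := by
  induction k with
  | zero => simp [HH]
  | succ k ih =>
    rw [HH_succ]
    refine (Padic.nonarchimedean _ _).trans (max_le (ih (by omega)) ?_)
    refine (Padic.nonarchimedean _ _).trans (max_le ?_ ?_)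
    · rw [norm_inv, norm_pow, unit_odd m hpm k (by omega)]; norm_num
    · rw [norm_inv, norm_pow, unit_even m hpm k (by omega)]; norm_num

/-- the cubes -/
noncomputable def gg (k : ℕ) : ℚ_[p] := ((be k : ℚ) : ℚ_[p])^3

lemma gg_norm (k : ℕ) : ‖gg (p := p) k‖ ≤ 1 := by
  unfold gg
  rw [norm_pow]
  exact pow_le_one₀ (norm_nonneg _) (be_norm p (by omega) k)

lemma sum_gH (hm : 0 < m) : CE p 1 (∑ k ∈ range (2*m+1), gg (p := p) k * HH k) 0 := by
  set S := ∑ k ∈ range (2*m+1), gg (p := p) k * HH k with hS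
  have hg : ∀ k ≤ 2*m, CE p 1 (gg (p := p) k) (gg (2*m-k)) := by
    intro k hk
    have h := be_refl m hpm k hk
    have n1 := be_norm p (by omega) k
    have n2 := be_norm p (by omega) (2*m-k)
    unfold gg
    have e : ∀ x : ℚ_[p], x^3 = x * (x * x) := by intro x; ring
    rw [e, e]
    have hh := CE_mul h h n1 n2
    have n3 : ‖((be k : ℚ) : ℚ_[p]) * ((be k : ℚ) : ℚ_[p])‖ ≤ 1 := by
      rw [norm_mul]; exact mul_le_one₀ n1 (norm_nonneg _) n1
    exact CE_mul h hh n3 n2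
  have hrefl : S = ∑ k ∈ range (2*m+1), gg (p := p) (2*m-k) * HH (2*m-k) := by
    rw [hS, ← sum_range_reflect]
    apply sum_congr rfl
    intro k hk
    have : 2*m+1-1-k = 2*m-k := by omega
    rw [this]
  have h2 : CE p 1 (S + S) 0 := by
    nth_rewrite 2 [hrefl]
    rw [hS, ← sum_add_distrib]
    have h0 : (0:ℚ_[p]) = ∑ k ∈ range (2*m+1), (0:ℚ_[p]) := by simp
    rw [h0]
    apply CE_sum
    intro k hk
    have hk' : k ≤ 2*m := by simp at hk; omega
    have a1 := hg k hk'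
    have a2 := HH_refl m hpm k hk'
    have a3 := CE_trans a2 (HH_full m hpm hm)
    have e : gg (p := p) k * HH k + gg (2*m-k) * HH (2*m-k)
        = gg k * (HH k + HH (2*m-k)) - (gg k - gg (2*m-k)) * HH (2*m-k) := by ring
    rw [e]
    have b1 : CE p 1 (gg (p := p) k * (HH k + HH (2*m-k))) 0 := by
      unfold CE at *
      rw [sub_zero] at *
      rw [norm_mul]
      calc _ ≤ 1 * ‖HH (p := p) k + HH (2*m-k)‖ :=
            mul_le_mul_of_nonneg_right (gg_norm m hpm k) (norm_nonneg _)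
        _ ≤ _ := by rw [one_mul]; exact a3
    have b2 : CE p 1 ((gg (p := p) k - gg (2*m-k)) * HH (2*m-k)) 0 := by
      unfold CE at *
      rw [sub_zero, norm_mul]
      calc _ ≤ ‖gg (p := p) k - gg (2*m-k)‖ * 1 :=
            mul_le_mul_of_nonneg_left (HH_norm m hpm _ (by omega)) (norm_nonneg _)
        _ ≤ _ := by rw [mul_one]; exact a1
    have := CE_sub b1 b2
    rwa [sub_zero] at this
  unfold CE at *
  rw [sub_zero] at *
  rw [← two_mul, norm_mul, norm_two p (by omega), one_mul] at h2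
  exact h2

/-- first order expansion of the deformed summand -/
lemma tB_expand (k : ℕ) (hk : k ≤ 2*m) :
    CE p 4 ((tB (-(p:ℚ)^2) p k : ℚ) : ℚ_[p]) (gg k * (1 - (p:ℚ_[p])^2 * HH k)) := by
  induction k with
  | zero =>
    have e1 : tB (-(p:ℚ)^2) p 0 = 1 := tB_zero _ _
    have e2 : gg (p := p) 0 * (1 - (p:ℚ_[p])^2 * HH 0) = 1 := by simp [gg, be_zero, HH]
    rw [e1, e2]
    push_cast
    exact CE_refl _ _
  | succ k ih =>
    have ih' := ih (by omega)
    have ua := unit_odd m hpm k (by omega)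
    have ub := unit_even m hpm k (by omega)
    set a : ℚ_[p] := 2*(k:ℚ_[p])+1 with ha
    set b : ℚ_[p] := 2*(k:ℚ_[p])+2 with hb
    set q : ℚ_[p] := (p:ℚ_[p])^2 with hq
    have hb0 : b ≠ 0 := by intro h0; rw [h0, norm_zero] at ub; exact zero_ne_one ub
    have ha0 : a ≠ 0 := by intro h0; rw [h0, norm_zero] at ua; exact zero_ne_one ua
    have hqn : ‖q‖ < 1 := by
      rw [hq, norm_pow, Padic.norm_p]
      have hp1 : (1:ℝ) < p := by exact_mod_cast hp.out.one_lt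
      exact pow_lt_one₀ (by positivity) (inv_lt_one_of_one_lt₀ hp1) (by norm_num)
    have hb2 : ‖b^2‖ = 1 := by rw [norm_pow, ub, one_pow]
    have ubq : ‖b^2 + q‖ = 1 := by
      rw [Padic.add_eq_max_of_ne (by rw [hb2]; exact hqn.ne'), hb2, max_eq_left hqn.le]
    have hbq0 : b^2 + q ≠ 0 := by intro h0; rw [h0, norm_zero] at ubq; exact zero_ne_one ubq
    have hna : ∀ x y : ℚ_[p], ‖x‖ ≤ 1 → ‖y‖ ≤ 1 → ‖x + y‖ ≤ 1 := fun x y h1 h2 =>
      (Padic.nonarchimedean x y).trans (max_le h1 h2)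
    have hHn := HH_norm (p := p) m hpm k (by omega)
    have hgn := gg_norm (p := p) m hpm k
    set t : ℚ_[p] := ((tB (-(p:ℚ)^2) p k : ℚ) : ℚ_[p]) with ht
    set H : ℚ_[p] := HH (p := p) k with hH
    set g : ℚ_[p] := gg (p := p) k with hg
    have et : ((tB (-(p:ℚ)^2) p (k+1) : ℚ) : ℚ_[p]) = t * (a/b) * ((a^2-q)/(b^2+q)) := by
      rw [tB_succ, ht, ha, hb, hq]
      push_cast
      rw [sub_neg_eq_add]
    have eg : gg (p := p) (k+1) = g * (a/b)^3 := by
      rw [hg, ha, hb]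
      unfold gg
      rw [be_succ]
      push_cast
      ring
    have eH : HH (p := p) (k+1) = H + ((a^2)⁻¹ + (b^2)⁻¹) := HH_succ k
    rw [et, eg, eH]
    unfold CE at *
    have key : t * (a/b) * ((a^2-q)/(b^2+q)) - g * (a/b)^3 * (1 - q * (H + ((a^2)⁻¹ + (b^2)⁻¹)))
        = (a/b) * ((a^2-q)/(b^2+q)) * (t - g * (1 - q*H))
          + (a/b) * g * (q^2) * ((a^2+b^2)*(1+H*b^2)/(b^4*(b^2+q))) := by
      clear_value a b q t H g
      field_simp
      ring
    have hab : ‖a/b‖ = 1 := by rw [norm_div, ua, ub]; norm_num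
    have ha2 : ‖a^2‖ ≤ 1 := by rw [norm_pow, ua, one_pow]
    rw [key]
    refine (Padic.nonarchimedean _ _).trans (max_le ?_ ?_)
    · rw [norm_mul, norm_mul, hab, one_mul, norm_div, ubq, div_one]
      have : ‖a^2 - q‖ ≤ 1 := by
        rw [sub_eq_add_neg]
        exact hna _ _ ha2 (by rw [norm_neg]; exact hqn.le)
      calc ‖a^2 - q‖ * ‖t - g * (1 - q*H)‖ ≤ 1 * ‖t - g * (1 - q*H)‖ :=
            mul_le_mul_of_nonneg_right this (norm_nonneg _)
        _ ≤ _ := by rw [one_mul]; exact ih'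
    · have h1 : ‖(a^2+b^2)*(1+H*b^2)/(b^4*(b^2+q))‖ ≤ 1 := by
        rw [norm_div, norm_mul, norm_mul, ubq, norm_pow b, ub, one_pow, one_mul, div_one]
        apply mul_le_one₀ (hna _ _ ha2 hb2.le) (norm_nonneg _)
        apply hna
        · rw [norm_one]
        · rw [norm_mul, hb2, mul_one]; exact hHn
      have h2 : ‖q^2‖ = (p:ℝ)^(-((4:ℕ):ℤ)) := by
        rw [hq, norm_pow, norm_pow, Padic.norm_p, ← pow_mul, zpow_neg, zpow_natCast, inv_pow]
      rw [norm_mul, norm_mul, norm_mul, hab, one_mul, h2]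
      have hp0 : (0:ℝ) < p := by exact_mod_cast hp.out.pos
      have h3 : ‖g‖ * (p:ℝ)^(-((4:ℕ):ℤ)) ≤ 1 * (p:ℝ)^(-((4:ℕ):ℤ)) :=
        mul_le_mul_of_nonneg_right hgn (by positivity)
      calc ‖g‖ * (p:ℝ)^(-((4:ℕ):ℤ)) * ‖(a^2+b^2)*(1+H*b^2)/(b^4*(b^2+q))‖
          ≤ (1 * (p:ℝ)^(-((4:ℕ):ℤ))) * 1 := mul_le_mul h3 h1 (norm_nonneg _) (by positivity)
        _ = _ := by ring

/-- terms of the `B` sum -/
lemma Bsum_eq (M : ℕ) : ((Bsum M : ℚ) : ℚ_[p]) = ∑ k ∈ range (M+1), gg (p := p) k := by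
  unfold Bsum TS gg
  push_cast
  apply sum_congr rfl
  intro k _
  have : ∏ j ∈ range k, ((((ν2 j : ℚ) : ℚ_[p]) - 0) / (((μ2 j : ℚ) : ℚ_[p]) - 0 * 0))
      = ((be k : ℚ) : ℚ_[p])^2 := by
    unfold be ν2 μ2
    push_cast
    rw [← prod_pow]
    apply prod_congr rfl
    intro j _
    rw [mul_zero, sub_zero, sub_zero, div_pow]
  rw [this]
  ring

lemma be_small (k : ℕ) (h1 : 2*m < k) (h2 : k ≤ 4*m) : ‖((be k : ℚ) : ℚ_[p])‖ ≤ (p:ℝ)⁻¹ := by
  have hb : ((be k : ℚ) : ℚ_[p]) = ∏ j ∈ range k, ((2*(j:ℚ_[p])+1)/(2*(j:ℚ_[p])+2)) := by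
    unfold be; push_cast; rfl
  rw [hb, norm_prod]
  have hmem : 2*m ∈ range k := by simpa using h1
  rw [← mul_prod_erase _ _ hmem]
  have hp0 : (0:ℝ) < p := by exact_mod_cast hp.out.pos
  have e1 : ‖(2*((2*m:ℕ):ℚ_[p])+1)/(2*((2*m:ℕ):ℚ_[p])+2)‖ = (p:ℝ)⁻¹ := by
    rw [norm_div, unit_even m hpm (2*m) (by omega), div_one]
    have hpq : (p:ℚ_[p]) = 4*m+1 := by
      have := congrArg (fun n : ℕ => (n : ℚ_[p])) hpm
      push_cast at this
      exact this
    have : (2*((2*m:ℕ):ℚ_[p])+1) = p := by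
      rw [hpq]; push_cast; ring
    rw [this, Padic.norm_p]
  have e2 : ∏ x ∈ (range k).erase (2*m), ‖(2*(x:ℚ_[p])+1)/(2*(x:ℚ_[p])+2)‖ ≤ 1 := by
    apply prod_le_one
    · intro i _; exact norm_nonneg _
    · intro i hi
      have hi' : i < k := by simp at hi; exact hi.2
      rw [norm_div, unit_even m hpm i (by omega), div_one]
      have := Padic.norm_int_le_one (p := p) (2*(i:ℤ)+1)
      push_cast at this; exact this
  rw [e1]
  calc (p:ℝ)⁻¹ * _ ≤ (p:ℝ)⁻¹ * 1 := mul_le_mul_of_nonneg_left e2 (by positivity)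
    _ = _ := mul_one _

lemma B_base (hm : 0 < m) : CE p 3 ((Bsum (4*m) : ℚ) : ℚ_[p]) ((W p (2*m) : ℚ) : ℚ_[p]) := by
  have hp0 : (0:ℝ) < p := by exact_mod_cast hp.out.pos
  have h1 : ((W p (2*m) : ℚ) : ℚ_[p])
      = ∑ k ∈ range (2*m+1), ((tB (-(p:ℚ)^2) p k : ℚ) : ℚ_[p]) := by
    have hw : ∀ j : ℕ, (2*(j:ℚ)+2)^2 - (-(p:ℚ)^2) ≠ 0 := by
      intro j
      rw [sub_neg_eq_add]
      positivity
    have h := SB_even (-(p:ℚ)^2) hw m
    unfold SB at h
    have e1 : (2*((2*m:ℕ):ℚ)+1) = p := by rw [hpm]; push_cast; ring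
    rw [e1] at h
    have h2 : W p (2*m) = ∏ j ∈ range m, (((4*(j:ℚ)+2)^2 - -(p:ℚ)^2)/((4*(j:ℚ)+4)^2 - -(p:ℚ)^2)) := by
      unfold W
      rw [(rO_range _ m).1, (rE_range _ m).1, ← prod_div_distrib]
      apply prod_congr rfl
      intro j _
      unfold gq
      push_cast
      congr 1
      · ring
      · ring
    rw [h2, ← h]
    push_cast
    rfl
  have h2 : CE p 3 (∑ k ∈ range (2*m+1), ((tB (-(p:ℚ)^2) p k : ℚ) : ℚ_[p]))
      (∑ k ∈ range (2*m+1), gg (p := p) k) := by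
    have a1 : CE p 3 (∑ k ∈ range (2*m+1), ((tB (-(p:ℚ)^2) p k : ℚ) : ℚ_[p]))
        (∑ k ∈ range (2*m+1), gg k * (1 - (p:ℚ_[p])^2 * HH k)) := by
      apply CE_sum
      intro k hk
      exact CE_mono (by norm_num) (tB_expand m hpm k (by simp at hk; omega))
    refine CE_trans a1 ?_
    have e : ∑ k ∈ range (2*m+1), gg (p := p) k * (1 - (p:ℚ_[p])^2 * HH k)
        = (∑ k ∈ range (2*m+1), gg (p := p) k)
          - (p:ℚ_[p])^2 * ∑ k ∈ range (2*m+1), gg (p := p) k * HH k := by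
      rw [mul_sum, ← sum_sub_distrib]
      apply sum_congr rfl
      intro k _; ring
    rw [e]
    have a2 := CE_pmul 2 (sum_gH (p := p) m hpm hm)
    rw [mul_zero] at a2
    have a3 := CE_sub (CE_refl 3 (∑ k ∈ range (2*m+1), gg (p := p) k)) a2
    rwa [sub_zero] at a3
  rw [h1, Bsum_eq m hpm]
  refine CE_trans ?_ (CE_symm h2)
  have e : ∑ k ∈ range (4*m+1), gg (p := p) k
      = (∑ k ∈ range (2*m+1), gg (p := p) k) + ∑ k ∈ range (2*m), gg (p := p) (2*m+1+k) := by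
    rw [← sum_range_add]
    congr 2
    ring
  rw [e]
  have a4 : CE p 3 (∑ k ∈ range (2*m), gg (p := p) (2*m+1+k)) 0 := by
    have h0 : (0:ℚ_[p]) = ∑ k ∈ range (2*m), (0:ℚ_[p]) := by simp
    rw [h0]
    apply CE_sum
    intro k hk
    have hk' : k < 2*m := by simpa using hk
    unfold CE gg
    rw [sub_zero, norm_pow]
    have := be_small (p := p) m hpm (2*m+1+k) (by omega) (by omega)
    have e3 : (p:ℝ)^(-((3:ℕ):ℤ)) = ((p:ℝ)⁻¹)^3 := by rw [zpow_neg, zpow_natCast, inv_pow]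
    rw [e3]
    exact pow_le_pow_left₀ (norm_nonneg _) this 3
  have := CE_add (CE_refl 3 (∑ k ∈ range (2*m+1), gg (p := p) k)) a4
  rwa [add_zero] at this

lemma aA_norm1 (hm : 0 < m) (k : ℕ) (hk : k ≤ 4*m) : ‖((aA k : ℚ) : ℚ_[p])‖ ≤ 1 := by
  have hp0 : (0:ℝ) < p := by exact_mod_cast hp.out.pos
  have hp2 : p ≠ 2 := by omega
  have h8 : ‖(1+8*(k:ℚ_[p]))‖ ≤ 1 := by
    have := Padic.norm_int_le_one (p := p) (1+8*(k:ℤ))
    push_cast at this
    exact this
  set q1 := ∏ j ∈ range k, (((1:ℤ) : ℚ_[p]) + 4 * (j : ℚ_[p])) with hq1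
  set q2 := ∏ j ∈ range k, (((2:ℤ) : ℚ_[p]) + 4 * (j : ℚ_[p])) with hq2
  set q3 := ∏ j ∈ range k, (((3:ℤ) : ℚ_[p]) + 4 * (j : ℚ_[p])) with hq3
  set q4 := ∏ j ∈ range k, (4 * (j : ℚ_[p]) + 4) with hq4
  have hcA : ((cA 1 k : ℚ) : ℚ_[p]) = (q1 / q3) * (q2 / q4) := by
    unfold cA
    push_cast
    rw [hq1, hq2, hq3, hq4, div_mul_div_comm, ← prod_mul_distrib, ← prod_mul_distrib,
      ← prod_div_distrib]
    apply prod_congr rfl
    intro j _
    push_cast
    congr 1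
    · ring
    · ring
  have n2 : ‖q2 / q4‖ ≤ 1 := by
    rw [norm_div, hq4, norm44 p hp2]
    exact div_le_one_of_le₀ (ap_norm p hp2 2 k) (norm_nonneg _)
  have h3 : ∀ j : ℕ, j < k → j ≠ 3*m → ‖(((3:ℤ) : ℚ_[p]) + 4 * (j : ℚ_[p]))‖ = 1 := by
    intro j hj hj3
    have := norm_unit p (3+4*(j:ℤ)) (by
      intro hd
      have hd' : p ∣ 3+4*j := by exact_mod_cast hd
      obtain ⟨t, ht⟩ := hd'
      have ht4 : t < 4 := by
        by_contra hcon
        push Not at hcon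
        have : p*4 ≤ p*t := Nat.mul_le_mul_left _ hcon
        omega
      interval_cases t <;> omega)
    push_cast at this ⊢
    exact this
  have n1 : ‖q1 / q3‖ ≤ 1 := by
    rw [norm_div]
    rcases le_or_gt k (3*m) with hk3 | hk3
    · have e3 : ‖q3‖ = 1 := by
        rw [hq3, norm_prod]
        apply prod_eq_one
        intro j hj
        have hj' : j < k := by simpa using hj
        exact h3 j hj' (by omega)
      rw [e3, div_one, hq1, norm_prod]
      apply prod_le_one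
      · intro i _; exact norm_nonneg _
      · intro i _
        have := Padic.norm_int_le_one (p := p) (1+4*(i:ℤ))
        push_cast at this ⊢
        exact this
    · have hpq : (p:ℚ_[p]) = 4*m+1 := by
        have := congrArg (fun n : ℕ => (n : ℚ_[p])) hpm
        push_cast at this
        exact this
      have h33 : ‖(3:ℚ_[p])‖ = 1 := by
        have := unit_lt m hpm 3 (by norm_num) (by omega)
        exact_mod_cast this
      have e3 : ‖q3‖ = (p:ℝ)⁻¹ := by
        rw [hq3, norm_prod]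
        rw [prod_eq_single (3*m)]
        · have : (((3:ℤ) : ℚ_[p]) + 4 * ((3*m:ℕ) : ℚ_[p])) = 3 * p := by
            rw [hpq]; push_cast; ring
          rw [this, norm_mul, h33, Padic.norm_p, one_mul]
        · intro j hj hne
          exact h3 j (by simpa using hj) hne
        · intro hcon
          exact absurd (by simpa using hk3) hcon
      have e1 : ‖q1‖ ≤ (p:ℝ)⁻¹ := by
        rw [hq1, norm_prod]
        have hmem : m ∈ range k := by simp; omega
        rw [← mul_prod_erase _ _ hmem]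
        have : (((1:ℤ) : ℚ_[p]) + 4 * ((m:ℕ) : ℚ_[p])) = p := by
          rw [hpq]; push_cast; ring
        rw [this, Padic.norm_p]
        have e2 : ∏ x ∈ (range k).erase m, ‖(((1:ℤ) : ℚ_[p]) + 4 * (x : ℚ_[p]))‖ ≤ 1 := by
          apply prod_le_one
          · intro i _; exact norm_nonneg _
          · intro i _
            have := Padic.norm_int_le_one (p := p) (1+4*(i:ℤ))
            push_cast at this ⊢
            exact this
        calc (p:ℝ)⁻¹ * _ ≤ (p:ℝ)⁻¹ * 1 := mul_le_mul_of_nonneg_left e2 (by positivity)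
          _ = _ := mul_one _
      rw [e3]
      exact div_le_one_of_le₀ e1 (by positivity)
  unfold aA
  push_cast
  rw [hcA, norm_mul, norm_mul]
  exact mul_le_one₀ h8 (by positivity) (mul_le_one₀ n1 (norm_nonneg _) n2)

lemma A_base (hm : 0 < m) : CE p 4 ((Asum (4*m) : ℚ) : ℚ_[p]) ((p:ℚ_[p]) * ((W p (2*m) : ℚ) : ℚ_[p])) := by
  have hp0 : (0:ℝ) < p := by exact_mod_cast hp.out.pos
  have hpq : (p:ℚ) = 4*m+1 := by
    have := congrArg (fun n : ℕ => (n : ℚ)) hpm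
    push_cast at this
    exact this
  have h1 := clA m (4*m) (by omega)
  rw [← hpq] at h1
  have h2 := congrArg (fun z : ℚ => (z : ℚ_[p])) h1
  push_cast at h2
  rw [← h2]
  unfold Asum TS
  push_cast
  apply CE_sum
  intro k hk
  have hk' : k ≤ 4*m := by simp at hk; omega
  apply CE_mul (CE_refl _ _) _ _ (aA_norm1 m hpm hm k hk')
  · -- products
    have hint : ∀ z : ℤ, ‖(z : ℚ_[p])‖ ≤ 1 := fun z => Padic.norm_int_le_one z
    have hmu : ∀ j < k, ‖((4*(j:ℚ_[p])+4)^4)‖ = 1 := by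
      intro j hj
      have := unit_even m hpm j (by omega)
      have e : (4*(j:ℚ_[p])+4)^4 = (2*(2*(j:ℚ_[p])+2))^4 := by ring
      rw [e, norm_pow, norm_mul, this, norm_two p (by omega)]; norm_num
    have hp4n : ‖(p:ℚ_[p])^4‖ < 1 := by
      rw [norm_pow, Padic.norm_p]
      have hp1 : (1:ℝ) < p := by exact_mod_cast hp.out.one_lt
      exact pow_lt_one₀ (by positivity) (inv_lt_one_of_one_lt₀ hp1) (by norm_num)
    have hmup : ∀ j < k, ‖((4*(j:ℚ_[p])+4)^4 - (p:ℚ_[p])^4)‖ = 1 := by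
      intro j hj
      have h3 := hmu j hj
      rw [sub_eq_add_neg, Padic.add_eq_max_of_ne (by rw [norm_neg, h3]; exact hp4n.ne'), norm_neg, h3,
        max_eq_left hp4n.le]
    refine (CE_prod k _ _ ?_ ?_ ?_).1
    · intro j hj
      unfold ν4 μ4
      push_cast
      rw [div_eq_mul_inv, div_eq_mul_inv]
      have c1 : CE p 4 (0:ℚ_[p]) ((p:ℚ_[p])^4) := by
        unfold CE
        rw [zero_sub, norm_neg, norm_pow, Padic.norm_p, zpow_neg, zpow_natCast, inv_pow]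
      apply CE_mul
      · exact CE_sub (CE_refl _ _) c1
      · apply CE_inv
        · apply CE_sub (CE_refl _ _)
          rw [mul_zero, one_mul]
          exact c1
        · rw [mul_zero, sub_zero]; exact hmu j hj
        · rw [one_mul]; exact hmup j hj
      · rw [norm_inv, mul_zero, sub_zero, hmu j hj]; norm_num
      · have := hint ((4*(j:ℤ)+1)^4 - (p:ℤ)^4)
        push_cast at this
        exact this
    · intro j hj
      unfold ν4 μ4
      push_cast
      rw [norm_div, mul_zero, sub_zero, sub_zero, hmu j hj, div_one]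
      have := hint ((4*(j:ℤ)+1)^4)
      push_cast at this
      exact this
    · intro j hj
      unfold ν4 μ4
      push_cast
      rw [norm_div, one_mul, hmup j hj, div_one]
      have := hint ((4*(j:ℤ)+1)^4 - (p:ℤ)^4)
      push_cast at this
      exact this
  · -- norm of the undeformed product
    rw [norm_prod]
    apply prod_le_one
    · intro i _; exact norm_nonneg _
    · intro j hj
      have hj' : j < k := by simpa using hj
      unfold ν4 μ4
      push_cast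
      have hmu : ‖((4*(j:ℚ_[p])+4)^4)‖ = 1 := by
        have := unit_even m hpm j (by omega)
        have e : (4*(j:ℚ_[p])+4)^4 = (2*(2*(j:ℚ_[p])+2))^4 := by ring
        rw [e, norm_pow, norm_mul, this, norm_two p (by omega)]; norm_num
      rw [norm_div, mul_zero, sub_zero, sub_zero, hmu, div_one]
      have := Padic.norm_int_le_one (p := p) ((4*(j:ℤ)+1)^4)
      push_cast at this
      exact this

lemma AB_base (hm : 0 < m) : CE p 4 ((Asum (4*m) : ℚ) : ℚ_[p]) ((p:ℚ_[p]) * ((Bsum (4*m) : ℚ) : ℚ_[p])) := by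
  have h1 := A_base m hpm hm
  have h2 := CE_pmul 1 (B_base m hpm hm)
  rw [pow_one] at h2
  exact CE_trans h1 (CE_symm h2)

end base

end Pool.Agent.NineA
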