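import Pool.Agent.NineA.Sum

set_option autoImplicit false
set_option linter.unusedSectionVars false
set_option linter.unusedVariables false

open Finset

namespace Pool.Agent.NineA

lemma tA_nat_zero (e Y : ℚ) (m k : ℕ) (h : m < k) : tA e Y (e+4*(m:ℚ)) k = 0 := by
  unfold tA
  have : ∏ j ∈ range k, ((((4*(j:ℚ)+e)^2 - (e+4*(m:ℚ))^2)*((4*(j:ℚ)+e)^2 - Y))
    /(((4*(j:ℚ)+4)^2 - (e+4*(m:ℚ))^2)*((4*(j:ℚ)+4)^2 - Y))) = 0 := by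
    apply prod_eq_zero (i := m) (by simpa using h)
    have : (4*(m:ℚ)+e)^2 - (e+4*(m:ℚ))^2 = 0 := by ring
    rw [this]; simp
  rw [this, mul_zero]

def SA (e Y : ℚ) (m K : ℕ) : ℚ := ∑ k ∈ range (K+1), tA e Y (e+4*(m:ℚ)) k

lemma SA_trunc (e Y : ℚ) (m K : ℕ) (h : m ≤ K) : SA e Y m K = SA e Y m m := by
  unfold SA
  symm
  apply sum_subset (range_subset_range.mpr (by omega))
  intro k _ hk
  exact tA_nat_zero e Y m k (by simp at hk; omega)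

lemma SA_step (e Y : ℚ) (he : 0 < e) (hne : ∀ j m : ℕ, 4*(j:ℚ)+4-(e+4*(m:ℚ)) ≠ 0)
    (hY : ∀ j : ℕ, (4*(j:ℚ)+4)^2 - Y ≠ 0) (m : ℕ) :
    (3*e+4*(m:ℚ))*(e+4*(m:ℚ))*((4*(m:ℚ)+4)^2-Y) * SA e Y (m+1) (m+1)
      = (e+4*(m:ℚ)+4)*(4*(m:ℚ)+4-e)*((2*e+4*(m:ℚ))^2-Y) * SA e Y m m := by
  have hx2 : ∀ j : ℕ, 4*(j:ℚ)+4+(e+4*(m:ℚ)) ≠ 0 := by intro j; positivity
  have hx0 : e+4*(m:ℚ) ≠ 0 := by positivity
  have he3 : ∀ j : ℕ, 3*e+4*(j:ℚ) ≠ 0 := by intro j; positivity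
  have h := partA e Y (e+4*(m:ℚ)) (fun j => hne j m) hx2 hx0 hY he3 (m+1)
  have e0 : (e+4*((m+1:ℕ):ℚ)-4-(e+4*(m:ℚ))) = 0 := by push_cast; ring
  rw [e0] at h
  have e1 : ∑ k ∈ range (m+1+1), tA e Y (e+4*(m:ℚ)+4) k = SA e Y (m+1) (m+1) := by
    unfold SA; apply sum_congr rfl; intro k _; congr 1; push_cast; ring
  have e2 : ∑ k ∈ range (m+1+1), tA e Y (e+4*(m:ℚ)) k = SA e Y m m := by
    rw [← SA_trunc e Y m (m+1) (by omega)]; rfl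
  rw [e1, e2] at h
  have h1 : (4*((m+1:ℕ):ℚ)+4+(e+4*(m:ℚ)))*(e+(e+4*(m:ℚ)))*(e-4-(e+4*(m:ℚ))) ≠ 0 := by
    have a1 : (4*((m+1:ℕ):ℚ)+4+(e+4*(m:ℚ))) ≠ 0 := by positivity
    have a2 : (e+(e+4*(m:ℚ))) ≠ 0 := by positivity
    have a3 : (e-4-(e+4*(m:ℚ))) ≠ 0 := by
      have : (e-4-(e+4*(m:ℚ))) = -(4*(m:ℚ)+4) := by ring
      rw [this]
      exact neg_ne_zero.mpr (by positivity)
    exact mul_ne_zero (mul_ne_zero a1 a2) a3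
  have h2 : ((2*e+(e+4*(m:ℚ)))*(e+4*(m:ℚ))*((e+4*(m:ℚ)-e+4)^2-Y) * SA e Y (m+1) (m+1)
      - (e+4*(m:ℚ)+4)*(e+4*(m:ℚ)+4-2*e)*((e+4*(m:ℚ)+e)^2-Y) * SA e Y m m)
      * ((4*((m+1:ℕ):ℚ)+4+(e+4*(m:ℚ)))*(e+(e+4*(m:ℚ)))*(e-4-(e+4*(m:ℚ)))) = 0 := by
    rw [h]; ring
  have h3 := (mul_eq_zero.mp h2).resolve_right h1
  linear_combination h3

lemma SA_zero (e Y : ℚ) : SA e Y 0 0 = e := by simp [SA, tA, cA]

lemma ne1 (j m : ℕ) : 4*(j:ℚ)+4-(1+4*(m:ℚ)) ≠ 0 := by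
  intro h
  have : (4*(j:ℤ)+4-(1+4*(m:ℤ)) : ℤ) = 0 := by exact_mod_cast h
  omega

lemma ne3 (j m : ℕ) : 4*(j:ℚ)+4-(3+4*(m:ℚ)) ≠ 0 := by
  intro h
  have : (4*(j:ℤ)+4-(3+4*(m:ℤ)) : ℤ) = 0 := by exact_mod_cast h
  omega

lemma SA_one (Y : ℚ) (hY : ∀ j : ℕ, (4*(j:ℚ)+4)^2 - Y ≠ 0) (m : ℕ) :
    SA 1 Y m m = (4*(m:ℚ)+1) * ((∏ j ∈ range m, ((4*(j:ℚ)+2)^2-Y))
      / ∏ j ∈ range m, ((4*(j:ℚ)+4)^2-Y)) := by
  induction m with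
  | zero => simp [SA_zero]
  | succ m ih =>
    have h := SA_step 1 Y (by norm_num) ne1 hY m
    rw [prod_range_succ, prod_range_succ]
    have hp : ∏ j ∈ range m, ((4*(j:ℚ)+4)^2-Y) ≠ 0 := prod_ne_zero_iff.mpr (fun j _ => hY j)
    have hm := hY m
    rw [mul_div_assoc', eq_div_iff hp] at ih
    rw [mul_div_assoc', eq_div_iff (mul_ne_zero hp hm)]
    have c1 : (3*1+4*(m:ℚ))*(1+4*(m:ℚ)) ≠ 0 := by positivity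
    apply mul_left_cancel₀ c1
    push_cast
    linear_combination (∏ j ∈ range m, ((4*(j:ℚ)+4)^2-Y)) * h
      + (1+4*(m:ℚ)+4)*(4*(m:ℚ)+4-1)*((2*1+4*(m:ℚ))^2-Y) * ih

lemma SA_three (Y : ℚ) (hY : ∀ j : ℕ, (4*(j:ℚ)+4)^2 - Y ≠ 0) (m : ℕ) :
    SA 3 Y m m * ((4*(m:ℚ)+1)*(4*(m:ℚ)+5)) = 5 * (4*(m:ℚ)+3) *
      ((∏ j ∈ range m, ((4*(j:ℚ)+6)^2-Y)) / ∏ j ∈ range m, ((4*(j:ℚ)+4)^2-Y)) := by
  induction m with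
  | zero => simp [SA_zero]; norm_num
  | succ m ih =>
    have h := SA_step 3 Y (by norm_num) ne3 hY m
    rw [prod_range_succ, prod_range_succ]
    have hp : ∏ j ∈ range m, ((4*(j:ℚ)+4)^2-Y) ≠ 0 := prod_ne_zero_iff.mpr (fun j _ => hY j)
    have hm := hY m
    rw [mul_div_assoc', eq_div_iff hp] at ih
    rw [mul_div_assoc', eq_div_iff (mul_ne_zero hp hm)]
    have c1 : (3*3+4*(m:ℚ))*(3+4*(m:ℚ)) ≠ 0 := by positivity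
    apply mul_left_cancel₀ c1
    push_cast
    linear_combination (∏ j ∈ range m, ((4*(j:ℚ)+4)^2-Y)) * (4*((m:ℚ)+1)+1)*(4*((m:ℚ)+1)+5) * h
      + (3+4*(m:ℚ)+4)*(4*((m:ℚ)+1)+5)*((2*3+4*(m:ℚ))^2-Y) * ih

/-- general truncated sum with deformation -/
def TS (a ν μ : ℕ → ℚ) (δ U : ℚ) (K : ℕ) : ℚ :=
  ∑ k ∈ range (K+1), a k * ∏ j ∈ range k, ((ν j - U)/(μ j - δ*U))

def aA (k : ℕ) : ℚ := (1+8*(k:ℚ)) * cA 1 k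
def aD (k : ℕ) : ℚ := (3+8*(k:ℚ)) * cA 3 k / 5
def aC (k : ℕ) : ℚ := -(4*(k:ℚ)^2)/(2*(k:ℚ)-1) * be k
def ν4 (e : ℚ) (j : ℕ) : ℚ := (4*(j:ℚ)+e)^4
def ν2 (j : ℕ) : ℚ := (2*(j:ℚ)+1)^2
def μ4 (j : ℕ) : ℚ := (4*(j:ℚ)+4)^4
def μ2 (j : ℕ) : ℚ := (2*(j:ℚ)+2)^2

def gq (V : ℚ) (j : ℕ) : ℚ := (2*(j:ℚ))^2 + V^2
def W (V : ℚ) (K : ℕ) : ℚ := rO (gq V) K / rE (gq V) K

lemma TS_eq_SA (e : ℚ) (m K : ℕ) (c : ℚ) :
    TS (fun k => (e+8*(k:ℚ)) * cA e k * c) (ν4 e) μ4 1 ((4*(m:ℚ)+e)^4) K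
      = SA e (-(4*(m:ℚ)+e)^2) m K * c := by
  unfold TS SA tA
  rw [sum_mul]
  apply sum_congr rfl
  intro k _
  have : ∏ j ∈ range k, ((ν4 e j - (4*(m:ℚ)+e)^4)/(μ4 j - 1*(4*(m:ℚ)+e)^4))
      = ∏ j ∈ range k, ((((4*(j:ℚ)+e)^2 - (e+4*(m:ℚ))^2)*((4*(j:ℚ)+e)^2 - -(4*(m:ℚ)+e)^2))
    /(((4*(j:ℚ)+4)^2 - (e+4*(m:ℚ))^2)*((4*(j:ℚ)+4)^2 - -(4*(m:ℚ)+e)^2))) := by
    apply prod_congr rfl
    intro j _
    unfold ν4 μ4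
    congr 1
    · ring
    · ring
  rw [this]
  ring

lemma hYneg (V : ℚ) (j : ℕ) : (4*(j:ℚ)+4)^2 - -V^2 ≠ 0 := by
  have : 0 < (4*(j:ℚ)+4)^2 + V^2 := by positivity
  rw [sub_neg_eq_add]; exact this.ne'

lemma clA (m K : ℕ) (h : m ≤ K) :
    TS aA (ν4 1) μ4 1 ((4*(m:ℚ)+1)^4) K = (4*(m:ℚ)+1) * W (4*(m:ℚ)+1) (2*m) := by
  have h1 := TS_eq_SA 1 m K 1
  have e1 : (fun k : ℕ => (1+8*(k:ℚ)) * cA 1 k * 1) = aA := by funext k; unfold aA; ring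
  rw [e1] at h1
  rw [h1, mul_one, SA_trunc _ _ _ _ h, SA_one _ (hYneg _)]
  unfold W
  rw [(rO_range _ m).1, (rE_range _ m).1]
  congr 1
  congr 1
  · apply prod_congr rfl; intro j _; unfold gq; push_cast; ring
  · apply prod_congr rfl; intro j _; unfold gq; push_cast; ring

lemma clD (m K : ℕ) (h : m ≤ K) :
    ((4*(m:ℚ)+3)^4 - 16) * TS aD (ν4 3) μ4 1 ((4*(m:ℚ)+3)^4) K
      = (4*(m:ℚ)+3) * W (4*(m:ℚ)+3) (2*m+1) := by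
  have h1 := TS_eq_SA 3 m K (1/5)
  have e1 : (fun k : ℕ => (3+8*(k:ℚ)) * cA 3 k * (1/5)) = aD := by funext k; unfold aD; ring
  rw [e1] at h1
  have h2 := SA_three _ (hYneg (4*(m:ℚ)+3)) m
  rw [h1, SA_trunc _ _ _ _ h]
  unfold W
  rw [(rO_range _ m).2, (rE_range _ m).2]
  have e2 : ∏ j ∈ range m, gq (4*(m:ℚ)+3) (2*j+2)
      = ∏ j ∈ range m, ((4*(j:ℚ)+4)^2 - -(4*(m:ℚ)+3)^2) := by
    apply prod_congr rfl; intro j _; unfold gq; push_cast; ring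
  have e3 : ∏ j ∈ range (m+1), gq (4*(m:ℚ)+3) (2*j+1)
      = (4 + (4*(m:ℚ)+3)^2) * ∏ j ∈ range m, ((4*(j:ℚ)+6)^2 - -(4*(m:ℚ)+3)^2) := by
    rw [prod_range_succ', mul_comm]
    congr 1
    · unfold gq; push_cast; ring
    · apply prod_congr rfl; intro j _; unfold gq; push_cast; ring
  rw [e2, e3]
  set Pn := ∏ j ∈ range m, ((4*(j:ℚ)+6)^2 - -(4*(m:ℚ)+3)^2)
  set Pd := ∏ j ∈ range m, ((4*(j:ℚ)+4)^2 - -(4*(m:ℚ)+3)^2)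
  rw [mul_div_assoc]
  linear_combination (1/5) * (4 + (4*(m:ℚ)+3)^2) * h2

lemma TS_eq_SB (i K : ℕ) : TS be ν2 μ2 0 ((2*(i:ℚ)+1)^2) K = SB 0 i K := by
  unfold TS SB tB ν2 μ2
  apply sum_congr rfl
  intro k _
  congr 1
  apply prod_congr rfl
  intro j _
  congr 1
  ring

lemma TS_eq_SC (i K : ℕ) : TS aC ν2 μ2 0 ((2*(i:ℚ)+1)^2) K = SC i K := by
  unfold TS SC tC tB ν2 μ2 aC
  apply sum_congr rfl
  intro k _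
  rw [mul_assoc]
  congr 1
  congr 1
  apply prod_congr rfl
  intro j _
  congr 1
  ring

lemma hw0 (j : ℕ) : (2*(j:ℚ)+2)^2 - 0 ≠ 0 := by rw [sub_zero]; positivity

lemma clB (i K : ℕ) (h : i ≤ K) :
    TS be ν2 μ2 0 ((2*(i:ℚ)+1)^2) K = if Even i then W 0 i else 0 := by
  rw [TS_eq_SB, SB_trunc _ _ _ h]
  rcases Nat.even_or_odd' i with ⟨m, rfl | rfl⟩
  · rw [if_pos (by simp), SB_even 0 hw0]
    unfold W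
    rw [(rO_range _ m).1, (rE_range _ m).1, ← prod_div_distrib]
    apply prod_congr rfl
    intro j _
    unfold gq
    push_cast
    congr 1
    · ring
    · ring
  · rw [if_neg (by simp), SB_odd]

lemma clC (i K : ℕ) (h : i ≤ K) :
    TS aC ν2 μ2 0 ((2*(i:ℚ)+1)^2) K = if Even i then 0 else W 0 i := by
  rw [TS_eq_SC, SC_trunc _ _ h]
  rcases Nat.even_or_odd' i with ⟨m, rfl | rfl⟩
  · rw [if_pos (by simp), SC_even]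
  · rw [if_neg (by simp), SC_odd]
    unfold W
    rw [(rO_range _ m).2, (rE_range _ m).2]
    congr 1
    · apply prod_congr rfl; intro j _; unfold gq; push_cast; ring
    · apply prod_congr rfl; intro j _; unfold gq; push_cast; ring

end Pool.Agent.NineA
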