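import Pool.Agent.NineA.Val
import Pool.Agent.Swisher.Poly

set_option autoImplicit false
set_option linter.unusedSectionVars false
set_option linter.unusedVariables false

open Finset Polynomial

namespace Pool.Agent.NineA

open Pool.Agent.Swisher

def ν4z (e : ℤ) (j : ℕ) : ℤ := (4*(j:ℤ)+e)^4
def μ4z (j : ℕ) : ℤ := (4*(j:ℤ)+4)^4
def ν2z (j : ℕ) : ℤ := (2*(j:ℤ)+1)^2
def μ2z (j : ℕ) : ℤ := (2*(j:ℤ)+2)^2

lemma ν4z_one : (fun j => ((ν4z 1 j : ℤ) : ℚ)) = ν4 1 := by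
  funext j; unfold ν4z ν4; push_cast; ring
lemma ν4z_three : (fun j => ((ν4z 3 j : ℤ) : ℚ)) = ν4 3 := by
  funext j; unfold ν4z ν4; push_cast; ring
lemma μ4z_eq : (fun j => ((μ4z j : ℤ) : ℚ)) = μ4 := by
  funext j; unfold μ4z μ4; push_cast; ring
lemma ν2z_eq : (fun j => ((ν2z j : ℤ) : ℚ)) = ν2 := by
  funext j; unfold ν2z ν2; push_cast; ring
lemma μ2z_eq : (fun j => ((μ2z j : ℤ) : ℚ)) = μ2 := by
  funext j; unfold μ2z μ2; push_cast; ring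

lemma TS_smul (c : ℚ) (a ν μ : ℕ → ℚ) (δ U : ℚ) (K : ℕ) :
    TS (fun k => c * a k) ν μ δ U K = c * TS a ν μ δ U K := by
  unfold TS
  rw [mul_sum]
  apply sum_congr rfl
  intro k _
  ring

def Asum (M : ℕ) : ℚ := TS aA (ν4 1) μ4 1 0 M
def Dsum (M : ℕ) : ℚ := -16 * TS aD (ν4 3) μ4 1 0 M
def Bsum (M : ℕ) : ℚ := TS be ν2 μ2 0 0 M
def Csum (M : ℕ) : ℚ := TS aC ν2 μ2 0 0 M

variable (p : ℕ) [hp : Fact p.Prime]

lemma lift_exists (α : ℕ → ℚ) (I M : ℕ) (h : ∀ k, k ≤ M → ‖((α k : ℚ) : ℚ_[p])‖ ≤ (p:ℝ)^I) :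
    ∃ a : ℕ → ℤ_[p], ∀ k, k ≤ M → ((a k : ℤ_[p]) : ℚ_[p]) = (p:ℚ_[p])^I * ((α k : ℚ) : ℚ_[p]) := by
  have hp0 : (0:ℝ) < p := by exact_mod_cast hp.out.pos
  have h2 : ∀ k, k ≤ M → ‖(p:ℚ_[p])^I * ((α k : ℚ) : ℚ_[p])‖ ≤ 1 := by
    intro k hk
    rw [norm_mul, norm_pow, Padic.norm_p]
    calc (p:ℝ)⁻¹^I * ‖((α k : ℚ) : ℚ_[p])‖ ≤ (p:ℝ)⁻¹^I * (p:ℝ)^I :=
          mul_le_mul_of_nonneg_left (h k hk) (by positivity)
      _ = 1 := by rw [← mul_pow, inv_mul_cancel₀ hp0.ne', one_pow]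
  classical
  refine ⟨fun k => if hk : k ≤ M then ⟨(p:ℚ_[p])^I * ((α k : ℚ) : ℚ_[p]), h2 k hk⟩ else 0, ?_⟩
  intro k hk
  beta_reduce
  rw [dif_pos hk]

lemma not_dvd_gV (hp2 : p ≠ 2) (V : ℤ) (hV : (p:ℤ) ∣ V) (j : ℕ) : ¬ (p:ℤ) ∣ gV p V j := by
  have hp' : Prime (p:ℤ) := Nat.prime_iff_prime_int.mp hp.out
  unfold gV
  by_cases hpj : p ∣ j
  · rw [if_pos hpj]
    exact hp'.not_dvd_one
  · rw [if_neg hpj]
    intro hd
    have h1 : (p:ℤ) ∣ (2*(j:ℤ))^2 := by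
      have h2 : (p:ℤ) ∣ V^2 := Dvd.dvd.pow hV (by norm_num)
      exact (dvd_add_left h2).mp hd
    have h3 := hp'.dvd_of_dvd_pow h1
    rcases hp'.dvd_or_dvd h3 with h | h
    · have h22 : p ∣ 2 := by exact_mod_cast h
      exact hp2 ((Nat.prime_dvd_prime_iff_eq hp.out Nat.prime_two).mp h22)
    · exact hpj (by exact_mod_cast h)

lemma not_dvd_rO (hp2 : p ≠ 2) (V : ℤ) (hV : (p:ℤ) ∣ V) (K : ℕ) : ¬ (p:ℤ) ∣ rO (gV p V) K := by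
  have hp' : Prime (p:ℤ) := Nat.prime_iff_prime_int.mp hp.out
  intro hd
  obtain ⟨j, hj, hdj⟩ := (hp'.dvd_finsetProd_iff _).mp hd
  exact not_dvd_gV p hp2 V hV j hdj

lemma not_dvd_rE (hp2 : p ≠ 2) (V : ℤ) (hV : (p:ℤ) ∣ V) (K : ℕ) : ¬ (p:ℤ) ∣ rE (gV p V) K := by
  have hp' : Prime (p:ℤ) := Nat.prime_iff_prime_int.mp hp.out
  intro hd
  obtain ⟨j, hj, hdj⟩ := (hp'.dvd_finsetProd_iff _).mp hd
  exact not_dvd_gV p hp2 V hV j hdj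

lemma cast_rO (V : ℤ) (K : ℕ) : rO (fun j => if p ∣ j then (1:ℚ) else gq V j) K
    = ((rO (gV p V) K : ℤ) : ℚ) := by
  unfold rO
  rw [Int.cast_prod]
  apply prod_congr rfl
  intro j _
  unfold gV gq
  by_cases hd : p ∣ j
  · simp only [if_pos hd, Int.cast_one]
  · simp only [if_neg hd]
    push_cast; ring

lemma cast_rE (V : ℤ) (K : ℕ) : rE (fun j => if p ∣ j then (1:ℚ) else gq V j) K
    = ((rE (gV p V) K : ℤ) : ℚ) := by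
  unfold rE
  rw [Int.cast_prod]
  apply prod_congr rfl
  intro j _
  unfold gV gq
  by_cases hd : p ∣ j
  · simp only [if_pos hd, Int.cast_one]
  · simp only [if_neg hd]
    push_cast; ring

lemma W_rel (hp2 : p ≠ 2) (V l : ℤ) (hV : V = p * l) (K k : ℕ) (hK : p * (2*k+1) = 2*K+1) :
    W V K * ((rE (gV p V) K : ℤ) : ℚ)
      = W l k * (if Even k then 1 else (p:ℚ)^2) * ((rO (gV p V) K : ℤ) : ℚ) := by
  have hodd : p % 2 = 1 := Nat.odd_iff.mp (hp.out.odd_of_ne_two hp2)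
  have hp0 : (p:ℚ) ≠ 0 := by exact_mod_cast hp.out.ne_zero
  have s1 := rO_split (gq V) p k K hodd hK
  have s2 := rE_split (gq V) p k K hodd hK
  have e1 : (fun j => gq V (p*j)) = fun j => (p:ℚ)^2 * gq l j := by
    funext j
    unfold gq
    rw [hV]
    push_cast
    ring
  rw [cast_rO, e1, rO_mul] at s1
  rw [cast_rE, e1, rE_mul] at s2
  have hc := rO_const ((p:ℚ)^2) k
  have hEc : rE (fun _ => (p:ℚ)^2) k ≠ 0 := prod_ne_zero_iff.mpr (fun j _ => pow_ne_zero _ hp0)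
  have hEl : rE (gq l) k ≠ 0 := by
    apply prod_ne_zero_iff.mpr
    intro j hj
    simp only [mem_filter, mem_Icc] at hj
    unfold gq
    have : (0:ℚ) < (j:ℚ) := by exact_mod_cast hj.1.1
    positivity
  have hEp : ((rE (gV p V) K : ℤ) : ℚ) ≠ 0 := by
    have : rE (gV p V) K ≠ 0 := by
      intro h
      apply not_dvd_rE p hp2 V (by rw [hV]; exact dvd_mul_right _ _) K
      rw [h]; exact dvd_zero _
    exact_mod_cast this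
  unfold W
  rw [s1, s2, hc]
  generalize (if Even k then 1 else (p:ℚ)^2) = cc
  generalize rE (fun _ => (p:ℚ)^2) k = Ec at *
  generalize rE (gq l) k = El at *
  generalize rO (gq l) k = Ol at *
  generalize ((rE (gV p V) K : ℤ) : ℚ) = Ep at *
  generalize ((rO (gV p V) K : ℤ) : ℚ) = Op at *
  field_simp

/-- polynomial version of `PBint` -/
noncomputable def PBT (Q : ℕ) : ℤ[X] :=
  ∏ i ∈ range Q, (if p ∣ (i+1) then 1 else (C (16*((i:ℤ)+1)^2) - X)^2)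

lemma eval_PBT (Q : ℕ) (z : ℤ) : (PBT p Q).eval z = PBint p z Q := by
  unfold PBT PBint
  rw [eval_prod]
  apply prod_congr rfl
  intro i _
  split_ifs <;> simp

/-- nodes -/
def u4 (e : ℕ) (i : ℕ) : ℤ := ((p:ℤ)*(4*(i:ℤ)+e))^4
def u2 (i : ℕ) : ℤ := ((p:ℤ)*(2*(i:ℤ)+1))^2

lemma u4_inj (e : ℕ) : Function.Injective (u4 p e) := by
  intro a b hab
  unfold u4 at hab
  have hpz : (0:ℤ) < p := by exact_mod_cast hp.out.pos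
  have ha : (0:ℤ) ≤ (p:ℤ)*(4*(a:ℤ)+e) := by positivity
  have hb : (0:ℤ) ≤ (p:ℤ)*(4*(b:ℤ)+e) := by positivity
  have h1 := (pow_left_inj₀ ha hb (by norm_num : (4:ℕ) ≠ 0)).mp hab
  have h2 := mul_left_cancel₀ hpz.ne' h1
  omega

lemma u2_inj : Function.Injective (u2 p) := by
  intro a b hab
  unfold u2 at hab
  have hpz : (0:ℤ) < p := by exact_mod_cast hp.out.pos
  have ha : (0:ℤ) ≤ (p:ℤ)*(2*(a:ℤ)+1) := by positivity
  have hb : (0:ℤ) ≤ (p:ℤ)*(2*(b:ℤ)+1) := by positivity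
  have h1 := (pow_left_inj₀ ha hb (by norm_num : (2:ℕ) ≠ 0)).mp hab
  have h2 := mul_left_cancel₀ hpz.ne' h1
  omega

lemma u4_ne (e : ℕ) (he : 0 < e) (i : ℕ) : u4 p e i ≠ 0 := by
  unfold u4
  have hpz : (0:ℤ) < p := by exact_mod_cast hp.out.pos
  have : (0:ℤ) < e := by exact_mod_cast he
  positivity

lemma u2_ne (i : ℕ) : u2 p i ≠ 0 := by
  unfold u2
  have hpz : (0:ℤ) < p := by exact_mod_cast hp.out.pos
  positivity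

lemma μ4z_ne (l : ℕ) : μ4z l ≠ 0 := by unfold μ4z; positivity
lemma μ2z_ne (l : ℕ) : μ2z l ≠ 0 := by unfold μ2z; positivity

lemma μ4z_p (l : ℕ) : μ4z (p*(l+1)-1) = μ4z l * (p:ℤ)^4 := by
  unfold μ4z
  have h3 : 1 ≤ p*(l+1) := Nat.mul_pos hp.out.pos (by omega)
  rw [Nat.cast_sub h3]
  push_cast
  ring

lemma μ2z_p (l : ℕ) : μ2z (p*(l+1)-1) = μ2z l * (p:ℤ)^2 := by
  unfold μ2z
  have h3 : 1 ≤ p*(l+1) := Nat.mul_pos hp.out.pos (by omega)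
  rw [Nat.cast_sub h3]
  push_cast
  ring

lemma hU4 (hp2 : p ≠ 2) (e : ℕ) (he : Odd e) (i l : ℕ) : μ4z l - 1 * u4 p e i ≠ 0 := by
  intro h
  have hodd : Odd (u4 p e i) := by
    unfold u4
    apply Odd.pow
    apply Odd.mul
    · exact_mod_cast hp.out.odd_of_ne_two hp2
    · obtain ⟨t, ht⟩ := he
      refine ⟨2*(i:ℤ)+t, ?_⟩
      rw [ht]; push_cast; ring
  have heven : Even (u4 p e i) := by
    have : u4 p e i = μ4z l := by linarith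
    rw [this]
    unfold μ4z
    refine ⟨2*(64*((l:ℤ)+1)^4), ?_⟩
    ring
  exact (Int.not_even_iff_odd.mpr hodd) heven

lemma ratio4 (hp2 : p ≠ 2) (e m M r : ℕ) (hr : 1 ≤ r) (hm : m + 1 = p^(r-1))
    (hM : M + 1 = p^r) :
    ‖((∏ i ∈ range (m+1), (u4 p e i) : ℤ) : ℚ_[p])‖
      ≤ (p:ℝ)^(-((4*r:ℕ):ℤ)) * ‖((∏ l ∈ range M, (μ4z l) : ℤ) : ℚ_[p])‖ := by
  have hp0 : (0:ℝ) < p := by exact_mod_cast hp.out.pos
  have h := node_ratio p hp2 e m M r hr hm hM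
  have e1 : ((∏ i ∈ range (m+1), (u4 p e i) : ℤ) : ℚ_[p])
      = (∏ i ∈ range (m+1), ((p : ℚ_[p]) * ((((e:ℕ):ℤ) : ℚ_[p]) + 4 * (i : ℚ_[p]))))^4 := by
    rw [← prod_pow]
    push_cast
    apply prod_congr rfl
    intro i _
    unfold u4
    push_cast
    ring
  have e2 : ((∏ l ∈ range M, (μ4z l) : ℤ) : ℚ_[p]) = (∏ l ∈ range M, (4 * (l : ℚ_[p]) + 4))^4 := by
    rw [← prod_pow]
    push_cast
    apply prod_congr rfl
    intro i _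
    unfold μ4z
    push_cast
    ring
  rw [e1, e2, norm_pow, norm_pow]
  have e3 : (p:ℝ)^(-((4*r:ℕ):ℤ)) = ((p:ℝ)^(-(r:ℤ)))^4 := by
    rw [← zpow_natCast, ← zpow_mul]
    congr 1
    push_cast
    ring
  rw [e3, ← mul_pow]
  exact pow_le_pow_left₀ (norm_nonneg _) h 4

lemma ratio2 (hp2 : p ≠ 2) (m M r : ℕ) (hr : 1 ≤ r) (hm : m + 1 = p^(r-1))
    (hM : M + 1 = p^r) :
    ‖((∏ i ∈ range (m+1), (u2 p i) : ℤ) : ℚ_[p])‖
      ≤ (p:ℝ)^(-((2*r:ℕ):ℤ)) * ‖((∏ l ∈ range M, (μ2z l) : ℤ) : ℚ_[p])‖ := by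
  have hp0 : (0:ℝ) < p := by exact_mod_cast hp.out.pos
  have h := node_ratio p hp2 2 m M r hr hm hM
  have e1 : (4:ℚ_[p])^(m+1) * ((∏ i ∈ range (m+1), (u2 p i) : ℤ) : ℚ_[p])
      = (∏ i ∈ range (m+1), ((p : ℚ_[p]) * (((2:ℤ) : ℚ_[p]) + 4 * (i : ℚ_[p]))))^2 := by
    rw [← prod_pow]
    have : (4:ℚ_[p])^(m+1) = ∏ _j ∈ range (m+1), (4:ℚ_[p]) := by simp
    rw [this]
    push_cast
    rw [← prod_mul_distrib]
    apply prod_congr rfl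
    intro i _
    unfold u2
    push_cast
    ring
  have e2 : (4:ℚ_[p])^M * ((∏ l ∈ range M, (μ2z l) : ℤ) : ℚ_[p])
      = (∏ l ∈ range M, (4 * (l : ℚ_[p]) + 4))^2 := by
    rw [← prod_pow]
    have : (4:ℚ_[p])^M = ∏ _j ∈ range M, (4:ℚ_[p]) := by simp
    rw [this]
    push_cast
    rw [← prod_mul_distrib]
    apply prod_congr rfl
    intro i _
    unfold μ2z
    push_cast
    ring
  have n1 := congrArg (fun z => ‖z‖) e1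
  have n2 := congrArg (fun z => ‖z‖) e2
  beta_reduce at n1 n2
  rw [norm_mul, norm_pow, norm_four p hp2, one_pow, one_mul, norm_pow] at n1 n2
  rw [n1, n2]
  have e3 : (p:ℝ)^(-((2*r:ℕ):ℤ)) = ((p:ℝ)^(-(r:ℤ)))^2 := by
    rw [← zpow_natCast, ← zpow_mul]
    congr 1
    push_cast
    ring
  rw [e3, ← mul_pow]
  exact pow_le_pow_left₀ (norm_nonneg _) h 2

/-- cleaning up the conclusion of `step` -/
lemma clean (I h : ℕ) (X Mu Uu : ℚ_[p]) (hMu : Mu ≠ 0) (h1 : ‖(p:ℚ_[p])^I‖ * ‖Mu‖ * ‖X‖ ≤ ‖Uu‖)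
    (h2 : ‖Uu‖ ≤ (p:ℝ)^(-(h:ℤ)) * ‖Mu‖) : ‖X‖ ≤ (p:ℝ)^((I:ℤ)-(h:ℤ)) := by
  have hp0 : (0:ℝ) < p := by exact_mod_cast hp.out.pos
  have hMp : 0 < ‖Mu‖ := norm_pos_iff.mpr hMu
  have h3 := h1.trans h2
  rw [norm_pow, Padic.norm_p] at h3
  have h4 : (p:ℝ)⁻¹^I * ‖X‖ ≤ (p:ℝ)^(-(h:ℤ)) := by
    have : ((p:ℝ)⁻¹^I * ‖X‖) * ‖Mu‖ ≤ (p:ℝ)^(-(h:ℤ)) * ‖Mu‖ := by
      calc ((p:ℝ)⁻¹^I * ‖X‖) * ‖Mu‖ = (p:ℝ)⁻¹^I * ‖Mu‖ * ‖X‖ := by ring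
        _ ≤ _ := h3
    exact le_of_mul_le_mul_right this hMp
  have h5 : (p:ℝ)^I * ((p:ℝ)⁻¹^I * ‖X‖) ≤ (p:ℝ)^I * (p:ℝ)^(-(h:ℤ)) :=
    mul_le_mul_of_nonneg_left h4 (by positivity)
  have e1 : (p:ℝ)^I * ((p:ℝ)⁻¹^I * ‖X‖) = ‖X‖ := by
    rw [← mul_assoc, ← mul_pow, mul_inv_cancel₀ hp0.ne', one_pow, one_mul]
  have e2 : (p:ℝ)^I * (p:ℝ)^(-(h:ℤ)) = (p:ℝ)^((I:ℤ)-(h:ℤ)) := by
    rw [sub_eq_add_neg, zpow_add₀ hp0.ne', zpow_natCast]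
  rwa [e1, e2] at h5

end Pool.Agent.NineA
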