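import Pool.Agent.NineA.Base

set_option autoImplicit false
set_option linter.unusedSectionVars false
set_option linter.unusedVariables false

open Finset

namespace Pool.Agent.NineA

open Pool.Agent.Swisher

variable (p : ℕ) [hp : Fact p.Prime]

lemma norm_P0 (hp2 : p ≠ 2) (Q : ℕ) : ‖((Pint p 0 Q : ℤ) : ℚ_[p])‖ = 1 := by
  have hp' : Prime (p:ℤ) := Nat.prime_iff_prime_int.mp hp.out
  apply norm_unit
  unfold Pint
  intro hd
  obtain ⟨j, _, hdj⟩ := (hp'.dvd_finsetProd_iff _).mp hd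
  by_cases hpj : p ∣ j+1
  · rw [if_pos hpj] at hdj
    exact hp'.not_dvd_one hdj
  · rw [if_neg hpj] at hdj
    have h1 : (256:ℤ)*((j:ℤ)+1)^4 + 4*0 = (2^2*((j:ℤ)+1))^4 := by ring
    rw [h1] at hdj
    have h2 := hp'.dvd_of_dvd_pow hdj
    rcases hp'.dvd_or_dvd h2 with h | h
    · have h22 := hp'.dvd_of_dvd_pow h
      have h3 : p ∣ 2 := by exact_mod_cast h22
      exact hp2 ((Nat.prime_dvd_prime_iff_eq hp.out Nat.prime_two).mp h3)
    · exact hpj (by exact_mod_cast h)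

variable {p}

/-- a congruence from a norm bound with integer exponents -/
lemma CE_of_zpow {x y : ℚ_[p]} (n : ℕ) (e : ℤ) (h : ‖x - y‖ ≤ (p:ℝ)^e) (he : e ≤ -(n:ℤ)) :
    CE p n x y := by
  unfold CE
  refine h.trans ?_
  apply zpow_le_zpow_right₀
  · exact_mod_cast hp.out.one_lt.le
  · exact he

lemma CE_lmul {n : ℕ} {x y : ℚ_[p]} (c : ℚ_[p]) (hc : ‖c‖ ≤ 1) (h : CE p n x y) :
    CE p n (c * x) (c * y) := by
  unfold CE at *
  rw [← mul_sub, norm_mul]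
  calc ‖c‖ * ‖x - y‖ ≤ 1 * ‖x - y‖ := mul_le_mul_of_nonneg_right hc (norm_nonneg _)
    _ ≤ _ := by rw [one_mul]; exact h

lemma CE_cancel {n : ℕ} {x y : ℚ_[p]} (c : ℚ_[p]) (hc : ‖c‖ = 1) (h : CE p n (c * x) (c * y)) :
    CE p n x y := by
  unfold CE at *
  rw [← mul_sub, norm_mul, hc, one_mul] at h
  exact h

lemma norm_p_le : ‖(p : ℚ_[p])‖ ≤ 1 := by
  have := Padic.norm_int_le_one (p := p) (p:ℤ)
  exact_mod_cast this

/-- `A` at level `r` -/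
noncomputable def Ar (r : ℕ) : ℚ_[p] := ((Asum (p^r-1) : ℚ) : ℚ_[p])
noncomputable def Br (r : ℕ) : ℚ_[p] := ((Bsum (p^r-1) : ℚ) : ℚ_[p])
noncomputable def Cr (r : ℕ) : ℚ_[p] := ((Csum (p^r-1) : ℚ) : ℚ_[p])
noncomputable def Dr (r : ℕ) : ℚ_[p] := ((Dsum (p^r-1) : ℚ) : ℚ_[p])

lemma lev (r : ℕ) : p^r - 1 + 1 = p^r := Nat.sub_add_cancel (Nat.one_le_pow _ _ hp.out.pos)

lemma main1 (hp4 : p % 4 = 1) (r : ℕ) (hr : 1 ≤ r) :
    CE p (r+3) (Ar (p := p) r) ((p:ℚ_[p])^r * Br r) := by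
  have hp2 : p ≠ 2 := by omega
  have hp5 : 5 ≤ p := by
    have := hp.out.two_le
    omega
  induction r, hr using Nat.le_induction with
  | base =>
    obtain ⟨m, hm⟩ : ∃ m, p = 4*m+1 := ⟨p/4, by omega⟩
    have h := AB_base (p := p) m hm (by omega)
    unfold Ar Br
    have e : p^1 - 1 = 4*m := by rw [pow_one]; omega
    rw [e, pow_one]
    exact h
  | succ r hr ih =>
    obtain ⟨TA, hTA⟩ := stepA1 p hp4 (p^r-1) (p^(r+1)-1) (r+1) (r+1) (by omega)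
      (by rw [lev, Nat.add_sub_cancel]) (lev (r+1)) (by
        rw [pow_succ p (r+1)]
        have : 0 < p^(r+1) := pow_pos hp.out.pos _
        nlinarith)
    obtain ⟨TB, hTB⟩ := stepB1 p hp4 (p^r-1) (p^(r+1)-1) (r+1) (by omega)
      (by rw [lev, Nat.add_sub_cancel]) (lev (r+1))
    set T := max TA TB with hT
    obtain ⟨Q, hQ⟩ : ∃ Q, p^T = 4*Q+1 := by
      refine ⟨p^T/4, ?_⟩
      have : p^T % 4 = 1 := by rw [Nat.pow_mod, hp4, one_pow]; norm_num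
      omega
    have h1 := hTA T (le_max_left _ _) Q hQ
    have h2 := hTB T (le_max_right _ _) Q hQ
    push_cast at h1 h2
    set P : ℚ_[p] := ((Pint p 0 Q : ℤ) : ℚ_[p]) with hP
    set C : ℚ_[p] := ((Cint p 0 Q : ℤ) : ℚ_[p]) with hC
    have hPn : ‖P‖ = 1 := norm_P0 p hp2 Q
    have hCn : ‖C‖ ≤ 1 := Padic.norm_int_le_one _
    have g1 : CE p (r+1+3) (P * Ar (r+1)) (C * ((p:ℚ_[p]) * Ar r)) := by
      apply CE_of_zpow _ _ h1
      push_cast; omega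
    have g2 : CE p (2*(r+1)) (P * Br (r+1)) (C * Br r) := by
      apply CE_of_zpow _ _ h2
      push_cast; omega
    have g3 := CE_pmul (r+1) g2
    have g3' : CE p (r+1+3) ((p:ℚ_[p])^(r+1) * (P * Br (r+1))) ((p:ℚ_[p])^(r+1) * (C * Br r)) :=
      CE_mono (by omega) g3
    have g4 := CE_pmul 1 ih
    rw [pow_one] at g4
    have g5 : CE p (r+1+3) (C * ((p:ℚ_[p]) * Ar r)) (C * ((p:ℚ_[p]) * ((p:ℚ_[p])^r * Br r))) := by
      apply CE_lmul C hCn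
      have e : r+1+3 = r+3+1 := by ring
      rw [e]; exact g4
    apply CE_cancel P hPn
    have e1 : C * ((p:ℚ_[p]) * ((p:ℚ_[p])^r * Br r)) = (p:ℚ_[p])^(r+1) * (C * Br r) := by ring
    have e2 : (p:ℚ_[p])^(r+1) * (P * Br (r+1)) = P * ((p:ℚ_[p])^(r+1) * Br (r+1)) := by ring
    rw [e1] at g5
    rw [e2] at g3'
    exact CE_trans g1 (CE_trans g5 (CE_symm g3'))

lemma zero_level : Ar (p := p) 0 = 1 ∧ Br (p := p) 0 = 1 := by
  unfold Ar Br Asum Bsum TS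
  simp [aA, cA, be]

lemma exists_T (hp4 : p % 4 = 3) (T0 : ℕ) : ∃ T Q : ℕ, T0 ≤ T ∧ p^T = 4*Q+1 := by
  refine ⟨2*T0, p^(2*T0)/4, by omega, ?_⟩
  have : p^(2*T0) % 4 = 1 := by
    rw [pow_mul, Nat.pow_mod]
    have : p^2 % 4 = 1 := by rw [Nat.pow_mod, hp4]
    rw [this, one_pow]; norm_num
  omega

/-- choice of the loss exponent -/
lemma exists_I (hp4 : p % 4 = 3) (r : ℕ) (hr : 1 ≤ r) (h3 : p = 3 → 2 ≤ r) :
    ∃ I, 1 ≤ I ∧ I ≤ 2*r-1 ∧ 4*p^r ≤ p^(I+1) ∧ 4*p^(r-1)+1 < p^I := by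
  obtain ⟨s, rfl⟩ : ∃ s, r = s+1 := ⟨r-1, by omega⟩
  have hps : 1 ≤ p^s := Nat.one_le_pow _ _ hp.out.pos
  by_cases h : p = 3
  · have hr2 := h3 h
    refine ⟨s+2, by omega, by omega, ?_, ?_⟩
    · rw [h]; rw [h] at hps; have e : 3^(s+2+1) = 27 * 3^s := by ring
      have e2 : 3^(s+1) = 3 * 3^s := by ring
      rw [e, e2]; omega
    · rw [Nat.add_sub_cancel, h]; rw [h] at hps; have e : 3^(s+2) = 9 * 3^s := by ring
      rw [e]; omega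
  · have h7 : 7 ≤ p := by
      have := hp.out.two_le
      omega
    refine ⟨s+1, by omega, by omega, ?_, ?_⟩
    · have e : p^(s+1+1) = p * p^(s+1) := by ring
      have : 1 ≤ p^(s+1) := Nat.one_le_pow _ _ hp.out.pos
      rw [e]; nlinarith
    · rw [Nat.add_sub_cancel]
      have e : p^(s+1) = p * p^s := by ring
      rw [e]; nlinarith

lemma exists_I' (hp4 : p % 4 = 3) (s : ℕ) (hs : 1 ≤ s) :
    ∃ I, I ≤ 2*s ∧ 4*p^s+1 < p^(I+1) := by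
  have hps : 1 ≤ p^s := Nat.one_le_pow _ _ hp.out.pos
  by_cases h : p = 3
  · refine ⟨s+1, by omega, ?_⟩
    rw [h]; rw [h] at hps; have e : 3^(s+1+1) = 9 * 3^s := by ring
    rw [e]; omega
  · have h7 : 7 ≤ p := by
      have := hp.out.two_le
      omega
    refine ⟨s, by omega, ?_⟩
    have e : p^(s+1) = p * p^s := by ring
    rw [e]; nlinarith

lemma Dr_zero (hp4 : p % 4 = 3) : ‖Dr (p := p) 0‖ ≤ 1 := by
  have e : Dr (p := p) 0 = ((-48 : ℤ) : ℚ_[p]) / ((5:ℤ) : ℚ_[p]) := by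
    unfold Dr Dsum TS aD cA
    simp
    ring
  have h5 : ‖((5:ℤ) : ℚ_[p])‖ = 1 := by
    apply norm_unit
    intro h
    have h' : p ∣ 5 := by exact_mod_cast h
    have := (Nat.prime_dvd_prime_iff_eq hp.out (by norm_num : Nat.Prime 5)).mp h'
    omega
  rw [e, norm_div, h5, div_one]
  exact Padic.norm_int_le_one _

lemma Cr_zero : Cr (p := p) 0 = 0 := by
  unfold Cr Csum TS aC
  simp

/-- one step, `p ≡ 3`, for `A` and `B` simultaneously -/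
lemma main3_one (hp4 : p % 4 = 3) (h3 : p ≠ 3) :
    CE p 3 (Ar (p := p) 1) ((p:ℚ_[p])^1 * Br 1) := by
  have hp2 : p ≠ 2 := by omega
  obtain ⟨I, hI1, hI2, hI3, hI4⟩ := exists_I (p := p) hp4 1 (le_refl 1) (fun h => absurd h h3)
  obtain ⟨TA, hTA⟩ := stepA3 p hp4 (p^0-1) (p^1-1) 1 I (le_refl 1) (by rw [lev]) (lev 1) hI3 hI1 hI4
  obtain ⟨TB, hTB⟩ := stepB3 p hp4 (p^0-1) (p^1-1) 1 (le_refl 1) (by rw [lev]) (lev 1)
  obtain ⟨T, Q, hT, hQ⟩ := exists_T (p := p) hp4 (max TA TB)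
  have h1 := hTA T (le_trans (le_max_left _ _) hT) Q hQ
  have h2 := hTB T (le_trans (le_max_right _ _) hT) Q hQ
  push_cast at h1 h2
  set P : ℚ_[p] := ((Pint p 0 Q : ℤ) : ℚ_[p]) with hP
  set C : ℚ_[p] := ((Cint p 0 Q : ℤ) : ℚ_[p]) with hC
  have hPn : ‖P‖ = 1 := norm_P0 p hp2 Q
  have hCn : ‖C‖ ≤ 1 := Padic.norm_int_le_one _
  have g1 : CE p 3 (P * Ar 1) (C * ((p:ℚ_[p])^3 * Dr 0)) := by
    apply CE_of_zpow _ _ h1
    push_cast; omega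
  have g2 : CE p 2 (P * Br 1) (C * ((p:ℚ_[p])^2 * Cr 0)) := by
    apply CE_of_zpow _ _ h2
    norm_num
  have hD : CE p 3 (C * ((p:ℚ_[p])^3 * Dr 0)) 0 := by
    have h0 : CE p 0 (Dr (p := p) 0) 0 := by
      unfold CE
      simpa using Dr_zero (p := p) hp4
    have := CE_lmul C hCn (CE_pmul 3 h0)
    simpa using this
  rw [Cr_zero, mul_zero, mul_zero] at g2
  have g3 := CE_pmul 1 g2
  apply CE_cancel P hPn
  have g4 : CE p 3 (P * ((p:ℚ_[p])^1 * Br 1)) 0 := by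
    have e : P * ((p:ℚ_[p])^1 * Br 1) = (p:ℚ_[p])^1 * (P * Br 1) := by ring
    rw [e]
    simpa using g3
  exact CE_trans g1 (CE_trans hD (CE_symm g4))

lemma main3_three : CE 3 3 (Ar (p := 3) 1) ((3:ℚ_[3])^1 * Br 1) := by
  have e : Ar (p := 3) 1 - (3:ℚ_[3])^1 * Br 1
      = (3:ℚ_[3])^3 * (((-5494561/58720256 : ℚ)) : ℚ_[3]) := by
    have h : Asum (3^1-1) - 3^1 * Bsum (3^1-1) = 3^3 * (-5494561/58720256) := by
      unfold Asum Bsum TS aA be cA ν4 μ4 ν2 μ2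
      norm_num [sum_range_succ, prod_range_succ]
    have := congrArg (fun z : ℚ => (z : ℚ_[3])) h
    unfold Ar Br
    push_cast at this ⊢
    exact this
  unfold CE
  rw [e, norm_mul, norm_pow]
  have h3 : ‖(3:ℚ_[3])‖ = ((3:ℕ):ℝ)⁻¹ := by
    have := Padic.norm_p (p := 3)
    exact_mod_cast this
  have h1 : ‖(((-5494561/58720256 : ℚ)) : ℚ_[3])‖ ≤ 1 := by
    apply Padic.norm_rat_le_one
    norm_num
  rw [h3]
  calc (((3:ℕ):ℝ)⁻¹)^3 * ‖(((-5494561/58720256 : ℚ)) : ℚ_[3])‖ ≤ (((3:ℕ):ℝ)⁻¹)^3 * 1 :=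
        mul_le_mul_of_nonneg_left h1 (by positivity)
    _ = _ := by rw [mul_one, zpow_neg, zpow_natCast, inv_pow]

lemma main3_step (hp4 : p % 4 = 3) (r : ℕ) (ih : CE p (2*r+1) (Ar (p := p) r) ((p:ℚ_[p])^r * Br r)) :
    CE p (2*(r+2)+1) (Ar (p := p) (r+2)) ((p:ℚ_[p])^(r+2) * Br (r+2)) := by
  have hp2 : p ≠ 2 := by omega
  obtain ⟨I, hI1, hI2, hI3, hI4⟩ := exists_I (p := p) hp4 (r+2) (by omega) (fun _ => by omega)
  obtain ⟨J, hJ1, hJ2⟩ := exists_I' (p := p) hp4 (r+1) (by omega)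
  obtain ⟨T1, hT1⟩ := stepA3 p hp4 (p^(r+1)-1) (p^(r+2)-1) (r+2) I (by omega)
    (by rw [lev]; congr 1) (lev (r+2)) hI3 hI1 hI4
  obtain ⟨T2, hT2⟩ := stepA3' p hp4 (p^r-1) (p^(r+1)-1) (r+1) J (by omega)
    (by rw [lev]; congr 1) (lev (r+1)) hJ2
  obtain ⟨T3, hT3⟩ := stepB3 p hp4 (p^(r+1)-1) (p^(r+2)-1) (r+2) (by omega)
    (by rw [lev]; congr 1) (lev (r+2))
  obtain ⟨T4, hT4⟩ := stepB3' p hp4 (p^r-1) (p^(r+1)-1) (r+1) (by omega)
    (by rw [lev]; congr 1) (lev (r+1))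
  obtain ⟨T, Q, hT, hQ⟩ := exists_T (p := p) hp4 (max (max T1 T2) (max T3 T4))
  have h1 := hT1 T (le_trans (le_trans (le_max_left _ _) (le_max_left _ _)) hT) Q hQ
  have h2 := hT2 T (le_trans (le_trans (le_max_right _ _) (le_max_left _ _)) hT) Q hQ
  have h3 := hT3 T (le_trans (le_trans (le_max_left _ _) (le_max_right _ _)) hT) Q hQ
  have h4 := hT4 T (le_trans (le_trans (le_max_right _ _) (le_max_right _ _)) hT) Q hQ
  push_cast at h1 h2 h3 h4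
  set P : ℚ_[p] := ((Pint p 0 Q : ℤ) : ℚ_[p]) with hP
  set C : ℚ_[p] := ((Cint p 0 Q : ℤ) : ℚ_[p]) with hC
  have hPn : ‖P‖ = 1 := norm_P0 p hp2 Q
  have g1 : CE p (2*(r+2)+1) (P * Ar (r+2)) (C * ((p:ℚ_[p])^3 * Dr (r+1))) := by
    apply CE_of_zpow _ _ h1
    push_cast; omega
  have g2 : CE p (2*(r+1)) (C * Dr (r+1)) (P * ((p:ℚ_[p]) * Ar r)) := by
    apply CE_of_zpow _ _ h2
    push_cast; omega
  have g3 : CE p (2*(r+2)) (P * Br (r+2)) (C * ((p:ℚ_[p])^2 * Cr (r+1))) := by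
    apply CE_of_zpow _ _ h3
    push_cast; omega
  have g4 : CE p (2*(r+1)) (C * Cr (r+1)) (P * Br r) := by
    apply CE_of_zpow _ _ h4
    push_cast; omega
  have k1 : CE p (2*(r+2)+1) (C * ((p:ℚ_[p])^3 * Dr (r+1))) (P * ((p:ℚ_[p])^4 * Ar r)) := by
    have := CE_mono (by omega : 2*(r+2)+1 ≤ 2*(r+1)+3) (CE_pmul 3 g2)
    have e1 : (p:ℚ_[p])^3 * (C * Dr (r+1)) = C * ((p:ℚ_[p])^3 * Dr (r+1)) := by ring
    have e2 : (p:ℚ_[p])^3 * (P * ((p:ℚ_[p]) * Ar r)) = P * ((p:ℚ_[p])^4 * Ar r) := by ring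
    rwa [e1, e2] at this
  have k2 : CE p (2*(r+2)) (P * Br (r+2)) (P * ((p:ℚ_[p])^2 * Br r)) := by
    refine CE_trans g3 ?_
    have := CE_mono (by omega : 2*(r+2) ≤ 2*(r+1)+2) (CE_pmul 2 g4)
    have e1 : (p:ℚ_[p])^2 * (C * Cr (r+1)) = C * ((p:ℚ_[p])^2 * Cr (r+1)) := by ring
    have e2 : (p:ℚ_[p])^2 * (P * Br r) = P * ((p:ℚ_[p])^2 * Br r) := by ring
    rwa [e1, e2] at this
  have k3 : CE p (2*(r+2)+1) (P * ((p:ℚ_[p])^(r+2) * Br (r+2))) (P * ((p:ℚ_[p])^(r+4) * Br r)) := by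
    have := CE_mono (by omega : 2*(r+2)+1 ≤ 2*(r+2)+(r+2)) (CE_pmul (r+2) k2)
    have e1 : (p:ℚ_[p])^(r+2) * (P * Br (r+2)) = P * ((p:ℚ_[p])^(r+2) * Br (r+2)) := by ring
    have e2 : (p:ℚ_[p])^(r+2) * (P * ((p:ℚ_[p])^2 * Br r)) = P * ((p:ℚ_[p])^(r+4) * Br r) := by ring
    rwa [e1, e2] at this
  have k4 : CE p (2*(r+2)+1) (P * ((p:ℚ_[p])^4 * Ar r)) (P * ((p:ℚ_[p])^(r+4) * Br r)) := by
    apply CE_lmul P hPn.le
    have := CE_mono (by omega : 2*(r+2)+1 ≤ 2*r+1+4) (CE_pmul 4 ih)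
    have e2 : (p:ℚ_[p])^4 * ((p:ℚ_[p])^r * Br r) = (p:ℚ_[p])^(r+4) * Br r := by ring
    rwa [e2] at this
  apply CE_cancel P hPn
  exact CE_trans g1 (CE_trans k1 (CE_trans k4 (CE_symm k3)))

lemma main3 (hp4 : p % 4 = 3) (r : ℕ) :
    CE p (2*r+1) (Ar (p := p) r) ((p:ℚ_[p])^r * Br r) := by
  induction r using Nat.twoStepInduction with
  | zero =>
    obtain ⟨h1, h2⟩ := zero_level (p := p)
    rw [h1, h2, pow_zero, one_mul]
    exact CE_refl _ _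
  | one =>
    by_cases h3 : p = 3
    · subst h3
      have := main3_three
      exact_mod_cast this
    · exact main3_one hp4 h3
  | more r ih _ => exact main3_step hp4 r ih

/-- from a norm bound to an explicit fraction -/
lemma frac_of_CE (x y : ℚ) (n : ℕ) (h : CE p n (x : ℚ_[p]) (y : ℚ_[p])) :
    ∃ u v : ℤ, ¬ (p:ℤ) ∣ v ∧ x - y = (p:ℚ)^n * ((u:ℚ)/(v:ℚ)) := by
  have hp0 : (p:ℚ) ≠ 0 := by exact_mod_cast hp.out.ne_zero
  have hpR : (0:ℝ) < p := by exact_mod_cast hp.out.pos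
  set z : ℚ := (x - y)/(p:ℚ)^n with hz
  have hzn : ‖(z : ℚ_[p])‖ ≤ 1 := by
    rw [hz]
    push_cast
    rw [norm_div, norm_pow, Padic.norm_p]
    unfold CE at h
    rw [zpow_neg, zpow_natCast, ← inv_pow] at h
    rw [div_le_one (by positivity)]
    exact h
  have hu := PadicInt.isUnit_den z hzn
  rw [PadicInt.isUnit_iff] at hu
  refine ⟨z.num, z.den, ?_, ?_⟩
  · intro hd
    have h2 : ‖((z.den : ℤ) : ℚ_[p])‖ < 1 := Padic.norm_intCast_lt_one_iff.mpr hd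
    rw [PadicInt.norm_def] at hu
    push_cast at hu h2
    rw [hu] at h2
    exact lt_irrefl _ h2
  · have : (z.num : ℚ)/((z.den : ℤ) : ℚ) = z := by
      push_cast
      exact Rat.num_div_den z
    rw [this, hz]
    field_simp

end Pool.Agent.NineA
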