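import Pool.Agent.NineA.Closed

set_option autoImplicit false
set_option linter.unusedSectionVars false
set_option linter.unusedVariables false

open Finset Polynomial

namespace Pool.Agent.NineA

/-- splitting a product over `range M` according to divisibility by `p` -/
lemma range_split' {R : Type*} [CommMonoid R] (g : ℕ → R) (p m M : ℕ) (hp : 1 ≤ p)
    (hM : p * (m+1) = M+1) :
    ∏ l ∈ range M, g (l+1)
      = (∏ l ∈ range M, (if p ∣ (l+1) then 1 else g (l+1))) * ∏ l ∈ range m, g (p*(l+1)) := by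
  have h1 : ∏ l ∈ range M, g (l+1) = (∏ l ∈ range M, (if p ∣ (l+1) then 1 else g (l+1)))
      * ∏ l ∈ range M, (if p ∣ (l+1) then g (l+1) else 1) := by
    rw [← prod_mul_distrib]
    apply prod_congr rfl
    intro j _
    by_cases h : p ∣ (j+1) <;> simp [h]
  rw [h1]
  congr 1
  rw [prod_ite, prod_const_one, mul_one]
  symm
  apply prod_bij (fun (l:ℕ) _ => p*(l+1)-1)
  · intro l hl
    simp only [mem_filter, mem_range] at hl ⊢
    have h3 : 1 ≤ p*(l+1) := Nat.mul_pos hp (by omega)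
    have h4 : p*(l+1) + p ≤ M+1 := by rw [← hM]; nlinarith
    refine ⟨by omega, ?_⟩
    rw [Nat.sub_add_cancel h3]
    exact dvd_mul_right _ _
  · intro a _ b _ hab
    have h3 : 1 ≤ p*(a+1) := Nat.mul_pos hp (by omega)
    have h4 : 1 ≤ p*(b+1) := Nat.mul_pos hp (by omega)
    have h5 : p*(a+1) = p*(b+1) := by omega
    have := Nat.eq_of_mul_eq_mul_left (by omega) h5
    omega
  · intro b hb
    simp only [mem_filter, mem_range] at hb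
    obtain ⟨hb1, ⟨j, hj⟩⟩ := hb
    have hj1 : 1 ≤ j := by
      rcases Nat.eq_zero_or_pos j with h | h
      · subst h; simp at hj
      · exact h
    refine ⟨j-1, ?_, ?_⟩
    · simp only [mem_range]
      have h6 : p*j < p*(m+1) := by rw [hM]; omega
      have h7 : j < m+1 := Nat.lt_of_mul_lt_mul_left h6
      omega
    · rw [Nat.sub_add_cancel hj1, ← hj]
      simp
  · intro a _
    have h3 : 1 ≤ p*(a+1) := Nat.mul_pos hp (by omega)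
    rw [Nat.sub_add_cancel h3]

variable (p : ℕ) [hp : Fact p.Prime]

lemma coe_sumZ {ι : Type*} (t : Finset ι) (f : ι → ℤ_[p]) :
    ((∑ i ∈ t, f i : ℤ_[p]) : ℚ_[p]) = ∑ i ∈ t, ((f i : ℤ_[p]) : ℚ_[p]) :=
  map_sum (PadicInt.Coe.ringHom (p := p)) f t

lemma coe_prodZ {ι : Type*} (t : Finset ι) (f : ι → ℤ_[p]) :
    ((∏ i ∈ t, f i : ℤ_[p]) : ℚ_[p]) = ∏ i ∈ t, ((f i : ℤ_[p]) : ℚ_[p]) :=
  map_prod (PadicInt.Coe.ringHom (p := p)) f t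

/-- homogenised polynomial -/
noncomputable def GS (a : ℕ → ℤ_[p]) (ν μ : ℕ → ℤ) (δ s : ℤ) (M : ℕ) : ℤ_[p][X] :=
  ∑ k ∈ range (M+1), C (a k) * ((∏ l ∈ range k, (C (((ν l * s : ℤ)) : ℤ_[p]) - X)) *
     ∏ l ∈ Ico k M, (C (((μ l * s : ℤ)) : ℤ_[p]) - C ((δ : ℤ) : ℤ_[p]) * X))

lemma eval_GS (a : ℕ → ℤ_[p]) (α : ℕ → ℚ) (lam : ℚ_[p]) (ν μ : ℕ → ℤ) (δ s : ℤ) (M : ℕ)
    (ha : ∀ k, k ≤ M → ((a k : ℤ_[p]) : ℚ_[p]) = lam * ((α k : ℚ) : ℚ_[p]))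
    (hs : s ≠ 0) (U : ℤ) (hU : ∀ l : ℕ, μ l * s - δ * U ≠ 0) :
    (((GS p a ν μ δ s M).eval ((U : ℤ) : ℤ_[p]) : ℤ_[p]) : ℚ_[p])
      = lam * ((((∏ l ∈ range M, ((μ l : ℚ) * s - δ * U)) *
        TS α (fun j => (ν j : ℚ)) (fun j => (μ j : ℚ)) δ ((U:ℚ)/s) M : ℚ)) : ℚ_[p]) := by
  have hs' : (s:ℚ) ≠ 0 := by exact_mod_cast hs
  have hU' : ∀ l : ℕ, (μ l : ℚ) * s - δ * U ≠ 0 := by
    intro l
    exact_mod_cast hU l
  unfold GS TS
  rw [eval_finsetSum, mul_sum, coe_sumZ]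
  push_cast
  rw [mul_sum]
  apply sum_congr rfl
  intro k hk
  have hk' : k ≤ M := by simpa [Nat.lt_succ_iff] using hk
  simp only [eval_mul, eval_C, eval_prod, eval_sub, eval_X]
  rw [PadicInt.coe_mul, PadicInt.coe_mul, coe_prodZ, coe_prodZ]
  push_cast
  rw [ha k hk']
  have h1 : ∏ l ∈ range M, ((μ l : ℚ) * s - δ * U)
      = (∏ l ∈ range k, ((μ l : ℚ) * s - δ * U)) * ∏ l ∈ Ico k M, ((μ l : ℚ) * s - δ * U) := by
    rw [range_eq_Ico, range_eq_Ico, prod_Ico_consecutive _ (Nat.zero_le k) hk']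
  have h2 : ∏ j ∈ range k, (((ν j : ℚ) - U/s)/((μ j : ℚ) - δ*(U/s)))
      = (∏ j ∈ range k, ((ν j : ℚ) * s - U)) / ∏ j ∈ range k, ((μ j : ℚ) * s - δ * U) := by
    rw [← prod_div_distrib]
    apply prod_congr rfl
    intro j _
    have e1 : (ν j : ℚ) - U/s = ((ν j : ℚ)*s - U)/s := by field_simp
    have e2 : (μ j : ℚ) - δ*(U/s) = ((μ j : ℚ)*s - δ*U)/s := by field_simp
    rw [e1, e2, div_div_div_cancel_right₀ hs']
  have h3 : ∏ l ∈ range k, ((μ l : ℚ) * s - δ * U) ≠ 0 := prod_ne_zero_iff.mpr (fun l _ => hU' l)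
  have h4 : (∏ l ∈ range M, ((μ l : ℚ) * s - δ * U)) * (α k *
      ∏ j ∈ range k, (((ν j : ℚ) - U/s)/((μ j : ℚ) - δ*(U/s))))
      = α k * ((∏ j ∈ range k, ((ν j : ℚ) * s - U)) * ∏ l ∈ Ico k M, ((μ l : ℚ) * s - δ * U)) := by
    rw [h1, h2]
    generalize (∏ l ∈ range k, ((μ l : ℚ) * s - δ * U)) = P1 at *
    generalize (∏ l ∈ Ico k M, ((μ l : ℚ) * s - δ * U)) = P2 at *
    generalize (∏ l ∈ range k, ((ν l : ℚ) * s - U)) = P3 at *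
    field_simp
  have h5 := congrArg (fun z : ℚ => (z : ℚ_[p])) h4
  push_cast at h5
  rw [h5]
  ring

/-- prime-to-`p` part of the denominator -/
noncomputable def Dq (μ : ℕ → ℤ) (δ : ℤ) (M : ℕ) : ℤ_[p][X] :=
  ∏ l ∈ range M, (if p ∣ (l+1) then 1 else C (((μ l : ℤ)) : ℤ_[p]) - C ((δ : ℤ) : ℤ_[p]) * X)

noncomputable def EQ (P P' e1 e2 : ℤ[X]) (a b : ℕ → ℤ_[p]) (ν1 ν2 μ : ℕ → ℤ) (δ s : ℤ)
    (m M : ℕ) : ℤ_[p][X] :=
  ((P * e1).map (Int.castRingHom ℤ_[p])) * GS p a ν1 μ δ 1 M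
    - ((P' * e2).map (Int.castRingHom ℤ_[p])) * (GS p b ν2 μ δ s m * Dq p μ δ M)

lemma eval_EQ (P P' e1 e2 : ℤ[X]) (a b : ℕ → ℤ_[p]) (α β : ℕ → ℚ) (lam : ℚ_[p])
    (ν1 ν2 μ : ℕ → ℤ) (δ s : ℤ)
    (m M : ℕ) (hM : p * (m+1) = M+1)
    (ha : ∀ k, k ≤ M → ((a k : ℤ_[p]) : ℚ_[p]) = lam * ((α k : ℚ) : ℚ_[p]))
    (hb : ∀ k, k ≤ m → ((b k : ℤ_[p]) : ℚ_[p]) = lam * ((β k : ℚ) : ℚ_[p]))
    (hs : s ≠ 0) (hμ : ∀ l, μ (p*(l+1)-1) = μ l * s) (U : ℤ) (hU : ∀ l : ℕ, μ l - δ * U ≠ 0) :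
    (((EQ p P P' e1 e2 a b ν1 ν2 μ δ s m M).eval ((U : ℤ) : ℤ_[p]) : ℤ_[p]) : ℚ_[p])
      = lam * ((((∏ l ∈ range M, ((μ l : ℚ) - δ * U)) *
        (((P.eval U : ℤ) : ℚ) * ((e1.eval U : ℤ) : ℚ) *
          TS α (fun j => (ν1 j : ℚ)) (fun j => (μ j : ℚ)) δ (U:ℚ) M
        - ((P'.eval U : ℤ) : ℚ) * ((e2.eval U : ℤ) : ℚ) *
          TS β (fun j => (ν2 j : ℚ)) (fun j => (μ j : ℚ)) δ ((U:ℚ)/s) m) : ℚ)) : ℚ_[p]) := by
  have hp1 : 1 ≤ p := hp.out.one_lt.le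
  have h1 : ∀ l : ℕ, μ l * 1 - δ * U ≠ 0 := by intro l; rw [mul_one]; exact hU l
  have h2 : ∀ l : ℕ, μ l * s - δ * U ≠ 0 := by intro l; rw [← hμ]; exact hU _
  have g1 := eval_GS p a α lam ν1 μ δ 1 M ha one_ne_zero U h1
  have g2 := eval_GS p b β lam ν2 μ δ s m hb hs U h2
  have hsp := range_split' (fun j => ((μ (j-1) : ℤ) : ℚ) - δ * U) p m M hp1 hM
  simp only [Nat.add_sub_cancel] at hsp
  have hsp2 : ∏ l ∈ range m, (((μ (p*(l+1)-1) : ℤ) : ℚ) - δ * U)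
      = ∏ l ∈ range m, ((μ l : ℚ) * s - δ * U) := by
    apply prod_congr rfl; intro l _; rw [hμ]; push_cast; ring
  rw [hsp2] at hsp
  have hD : (((Dq p μ δ M).eval ((U : ℤ) : ℤ_[p]) : ℤ_[p]) : ℚ_[p])
      = ((∏ l ∈ range M, (if p ∣ (l+1) then 1 else (μ l : ℚ) - δ * U) : ℚ) : ℚ_[p]) := by
    unfold Dq
    rw [eval_prod, coe_prodZ]
    push_cast
    apply prod_congr rfl
    intro l _
    split_ifs
    · simp
    · simp only [eval_sub, eval_C, eval_mul, eval_X]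
      push_cast
      rfl
  have hP : ∀ F : ℤ[X], (((F.map (Int.castRingHom ℤ_[p])).eval ((U : ℤ) : ℤ_[p]) : ℤ_[p]) : ℚ_[p])
      = (((F.eval U : ℤ) : ℚ) : ℚ_[p]) := by
    intro F
    have : (F.map (Int.castRingHom ℤ_[p])).eval ((U : ℤ) : ℤ_[p]) = ((F.eval U : ℤ) : ℤ_[p]) := by
      rw [eval_intCast_map]
      simp
    rw [this]
    push_cast
    rfl
  unfold EQ
  rw [eval_sub, eval_mul, eval_mul, eval_mul]
  rw [PadicInt.coe_sub, PadicInt.coe_mul, PadicInt.coe_mul, PadicInt.coe_mul]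
  rw [hP, hP, g1, g2, hD, hsp]
  rw [eval_mul, eval_mul]
  have e1' : ∏ l ∈ range M, ((μ l : ℚ) * ((1:ℤ):ℚ) - δ * U)
      = (∏ l ∈ range M, (if p ∣ (l+1) then 1 else (μ l : ℚ) - δ * U))
        * ∏ l ∈ range m, ((μ l : ℚ) * s - δ * U) := by
    rw [← hsp]
    apply prod_congr rfl; intro l _; push_cast; ring
  rw [e1']
  push_cast
  rw [div_one]
  ring

/-- interpolation bound -/
theorem interp (N : ℕ) (u : ℕ → ℤ) (hu : Function.Injective u) :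
    ∃ L : ℝ, 0 ≤ L ∧ ∀ (ε : ℝ) (E : ℤ_[p][X]), 0 ≤ ε →
      (∀ i ∈ range N, ‖E.eval ((u i : ℤ) : ℤ_[p])‖ ≤ ε) →
      ‖E.eval 0‖ ≤ max (‖∏ i ∈ range N, ((u i : ℤ) : ℤ_[p])‖) (ε * L) := by
  have hinj : Set.InjOn (fun i => ((u i : ℤ) : ℚ_[p])) (range N : Finset ℕ) := by
    intro a _ b _ hab
    apply hu
    have hab' : ((u a : ℤ) : ℚ_[p]) = ((u b : ℤ) : ℚ_[p]) := hab
    exact_mod_cast hab'
  refine ⟨∑ i ∈ range N, ‖(Lagrange.basis (range N) (fun i => ((u i : ℤ) : ℚ_[p])) i).eval 0‖,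
    sum_nonneg (fun i _ => norm_nonneg _), ?_⟩
  intro ε E hε hE
  set M : ℤ_[p][X] := ∏ i ∈ range N, (X - C (((u i : ℤ)) : ℤ_[p])) with hM
  have hMm : M.Monic := monic_prod_of_monic _ _ (fun i _ => monic_X_sub_C _)
  have hMd : M.natDegree = N := by
    rw [hM, natDegree_prod_of_monic _ _ (fun i _ => monic_X_sub_C _)]
    simp only [natDegree_X_sub_C]
    simp
  set R := E %ₘ M with hR
  set g := E /ₘ M with hg
  have hsplit : R + M * g = E := modByMonic_add_div E M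
  have hRd : R.degree < ((N : ℕ) : WithBot ℕ) := by
    have h1 := degree_modByMonic_lt E hMm
    rw [degree_eq_natDegree hMm.ne_zero, hMd] at h1
    exact h1
  have hMu : ∀ i ∈ range N, M.eval ((u i : ℤ) : ℤ_[p]) = 0 := by
    intro i hi
    rw [hM, eval_prod]
    apply prod_eq_zero hi
    simp
  have hM0 : M.eval 0 = (-1)^N * ∏ i ∈ range N, ((u i : ℤ) : ℤ_[p]) := by
    rw [hM, eval_prod]
    have : ∏ i ∈ range N, eval 0 (X - C (((u i : ℤ)) : ℤ_[p])) = ∏ i ∈ range N, ((-1) * ((u i : ℤ) : ℤ_[p])) := by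
      apply prod_congr rfl
      intro i _
      simp
    rw [this, prod_mul_distrib, prod_const, card_range]
  have hEu : ∀ i ∈ range N, E.eval ((u i : ℤ) : ℤ_[p]) = R.eval ((u i : ℤ) : ℤ_[p]) := by
    intro i hi
    rw [← hsplit]
    simp only [eval_mul, eval_add, hMu i hi]
    ring
  have hE0 : E.eval 0 = M.eval 0 * g.eval 0 + R.eval 0 := by
    rw [← hsplit]
    simp only [eval_mul, eval_add]
    ring
  rw [hE0]
  refine (PadicInt.nonarchimedean _ _).trans (max_le_max ?_ ?_)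
  · rw [hM0, norm_mul, norm_mul, norm_pow, norm_neg, norm_one, one_pow, one_mul]
    calc ‖∏ i ∈ range N, ((u i : ℤ) : ℤ_[p])‖ * ‖eval 0 g‖
        ≤ ‖∏ i ∈ range N, ((u i : ℤ) : ℤ_[p])‖ * 1 :=
          mul_le_mul_of_nonneg_left (PadicInt.norm_le_one _) (norm_nonneg _)
      _ = _ := mul_one _
  · -- Lagrange
    set f : ℚ_[p][X] := R.map (PadicInt.Coe.ringHom) with hf
    have hfd : f.degree < (range N).card := by
      rw [card_range]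
      exact lt_of_le_of_lt (degree_map_le) hRd
    have h := Lagrange.eq_interpolate hinj hfd
    have h2 : eval 0 f = eval 0 ((Lagrange.interpolate (range N) (fun i => ((u i : ℤ) : ℚ_[p])))
        fun i => eval ((u i : ℤ) : ℚ_[p]) f) := congrArg (fun g => eval 0 g) h
    rw [Lagrange.interpolate_apply, eval_finsetSum] at h2
    have e0 : eval 0 f = ((R.eval 0 : ℤ_[p]) : ℚ_[p]) := by
      rw [hf, eval_map]
      have := eval₂_hom (p := R) (PadicInt.Coe.ringHom (p := p)) 0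
      rw [map_zero] at this
      exact this
    have eu : ∀ i, eval ((u i : ℤ) : ℚ_[p]) f = ((R.eval ((u i : ℤ) : ℤ_[p]) : ℤ_[p]) : ℚ_[p]) := by
      intro i
      rw [hf, eval_map]
      have := eval₂_hom (p := R) (PadicInt.Coe.ringHom (p := p)) ((u i : ℤ) : ℤ_[p])
      rw [map_intCast] at this
      exact this
    have hn : ‖R.eval 0‖ = ‖eval 0 f‖ := by rw [e0, PadicInt.norm_def]
    rw [hn, h2]
    refine (norm_sum_le _ _).trans ?_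
    rw [mul_sum]
    apply sum_le_sum
    intro i hi
    rw [eval_mul, eval_C, norm_mul]
    apply mul_le_mul_of_nonneg_right _ (norm_nonneg _)
    rw [eu i, ← PadicInt.norm_def, ← hEu i hi]
    exact hE i hi

/-- the abstract step -/
theorem step (e1 e2 : ℤ[X]) (a b : ℕ → ℤ_[p]) (α β : ℕ → ℚ) (lam : ℚ_[p])
    (ν1 ν2 μ : ℕ → ℤ) (δ s : ℤ)
    (m M : ℕ) (hM : p * (m+1) = M+1)
    (ha : ∀ k, k ≤ M → ((a k : ℤ_[p]) : ℚ_[p]) = lam * ((α k : ℚ) : ℚ_[p]))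
    (hb : ∀ k, k ≤ m → ((b k : ℤ_[p]) : ℚ_[p]) = lam * ((β k : ℚ) : ℚ_[p]))
    (hs : s ≠ 0) (hμ : ∀ l, μ (p*(l+1)-1) = μ l * s) (hμ0 : ∀ l, μ l ≠ 0)
    (u : ℕ → ℤ) (hu : Function.Injective u) (hu0 : ∀ i, u i ≠ 0)
    (hU : ∀ i l : ℕ, μ l - δ * u i ≠ 0)
    (rho sig : ℕ → ℤ) (hsig : ∀ i, ¬ (p:ℤ) ∣ sig i)
    (hrel : ∀ i, i ≤ m → ((e1.eval (u i) : ℤ) : ℚ) *
      TS α (fun j => (ν1 j : ℚ)) (fun j => (μ j : ℚ)) δ (u i : ℚ) M * sig i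
      = ((e2.eval (u i) : ℤ) : ℚ) *
      TS β (fun j => (ν2 j : ℚ)) (fun j => (μ j : ℚ)) δ ((u i : ℚ)/s) m * rho i) :
    ∃ T0 : ℕ, ∀ T : ℕ, T0 ≤ T → ∀ P P' : ℤ[X],
      (∀ i, i ≤ m → (p:ℤ)^T ∣ P.eval (u i) * rho i - P'.eval (u i) * sig i) →
      ‖lam‖ * ‖((∏ l ∈ range M, (μ l) : ℤ) : ℚ_[p])‖ *
      ‖(((((P.eval 0 : ℤ) : ℚ) * ((e1.eval 0 : ℤ) : ℚ) *
          TS α (fun j => (ν1 j : ℚ)) (fun j => (μ j : ℚ)) δ 0 M
        - ((P'.eval 0 : ℤ) : ℚ) * ((e2.eval 0 : ℤ) : ℚ) *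
          TS β (fun j => (ν2 j : ℚ)) (fun j => (μ j : ℚ)) δ 0 m) : ℚ) : ℚ_[p])‖
      ≤ ‖((∏ i ∈ range (m+1), (u i) : ℤ) : ℚ_[p])‖ := by
  have hpr1 : (1:ℝ) < p := by exact_mod_cast hp.out.one_lt
  have hp0 : (0:ℝ) < p := by linarith
  obtain ⟨L, hL0, hL⟩ := interp p (m+1) u hu
  set T1 : ℕ → ℚ := fun i => TS α (fun j => (ν1 j : ℚ)) (fun j => (μ j : ℚ)) δ (u i : ℚ) M with hT1
  set T2 : ℕ → ℚ := fun i => TS β (fun j => (ν2 j : ℚ)) (fun j => (μ j : ℚ)) δ ((u i : ℚ)/s) m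
    with hT2
  set cc : ℕ → ℝ := fun i => ‖lam * (((∏ l ∈ range M, ((μ l : ℚ) - δ * u i)) *
    (((e2.eval (u i) : ℤ) : ℚ) * T2 i) : ℚ) : ℚ_[p])‖ with hcc
  set c : ℝ := ∑ i ∈ range (m+1), cc i with hc
  have hcc0 : ∀ i, 0 ≤ cc i := fun i => norm_nonneg _
  have hc0 : 0 ≤ c := sum_nonneg (fun i _ => hcc0 i)
  have hcci : ∀ i, i ≤ m → cc i ≤ c := by
    intro i hi
    exact single_le_sum (f := cc) (fun i _ => hcc0 i) (by simpa [Nat.lt_succ_iff] using hi)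
  have hne : (∏ i ∈ range (m+1), (u i) : ℤ) ≠ 0 := prod_ne_zero_iff.mpr (fun i _ => hu0 i)
  have hpos : 0 < ‖((∏ i ∈ range (m+1), (u i) : ℤ) : ℚ_[p])‖ := by
    rw [norm_pos_iff]
    exact_mod_cast hne
  -- choose T0
  obtain ⟨T0, hT0⟩ : ∃ T0 : ℕ, ∀ T : ℕ, T0 ≤ T →
      c * (p:ℝ)^(-(T:ℤ)) * L ≤ ‖((∏ i ∈ range (m+1), (u i) : ℤ) : ℚ_[p])‖ := by
    have htend : Filter.Tendsto (fun T : ℕ => c * (p:ℝ)^(-(T:ℤ)) * L) Filter.atTop (nhds (c * 0 * L)) := by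
      apply Filter.Tendsto.mul_const
      apply Filter.Tendsto.const_mul
      have : (fun k : ℕ => (p:ℝ)^(-(k:ℤ))) = fun k : ℕ => ((p:ℝ)⁻¹)^k := by
        funext k
        rw [zpow_neg, zpow_natCast, inv_pow]
      rw [this]
      exact tendsto_pow_atTop_nhds_zero_of_lt_one (by positivity) (inv_lt_one_of_one_lt₀ hpr1)
    have hlt : c * 0 * L < ‖((∏ i ∈ range (m+1), (u i) : ℤ) : ℚ_[p])‖ := by
      rw [mul_zero, zero_mul]; exact hpos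
    obtain ⟨T0, h⟩ := Filter.eventually_atTop.mp (htend.eventually (gt_mem_nhds hlt))
    exact ⟨T0, fun T hT => (h T hT).le⟩
  refine ⟨T0, ?_⟩
  intro T hT P P' hdvd
  set E := EQ p P P' e1 e2 a b ν1 ν2 μ δ s m M with hE
  have hEval := fun (U : ℤ) (hU : ∀ l : ℕ, μ l - δ * U ≠ 0) =>
    eval_EQ p P P' e1 e2 a b α β lam ν1 ν2 μ δ s m M hM ha hb hs hμ U hU
  -- node values
  have hnode : ∀ i ∈ range (m+1), ‖E.eval ((u i : ℤ) : ℤ_[p])‖ ≤ c * (p:ℝ)^(-(T:ℤ)) := by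
    intro i hi
    have hi' : i ≤ m := by simpa [Nat.lt_succ_iff] using hi
    rw [PadicInt.norm_def, hE, hEval (u i) (hU i)]
    have hr := hrel i hi'
    have hsig1 : ‖((sig i : ℤ) : ℚ_[p])‖ = 1 := by
      apply le_antisymm (Padic.norm_int_le_one _)
      by_contra hlt
      push Not at hlt
      exact hsig i (Padic.norm_intCast_lt_one_iff.mp hlt)
    have key : (((P.eval (u i) : ℤ) : ℚ) * ((e1.eval (u i) : ℤ) : ℚ) * T1 i
        - ((P'.eval (u i) : ℤ) : ℚ) * ((e2.eval (u i) : ℤ) : ℚ) * T2 i) * sig i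
        = ((e2.eval (u i) : ℤ) : ℚ) * T2 i *
          ((P.eval (u i) * rho i - P'.eval (u i) * sig i : ℤ) : ℚ) := by
      push_cast
      linear_combination ((P.eval (u i) : ℤ) : ℚ) * hr
    have key2 : lam * ((((∏ l ∈ range M, ((μ l : ℚ) - δ * u i)) *
        (((P.eval (u i) : ℤ) : ℚ) * ((e1.eval (u i) : ℤ) : ℚ) * T1 i
        - ((P'.eval (u i) : ℤ) : ℚ) * ((e2.eval (u i) : ℤ) : ℚ) * T2 i) : ℚ)) : ℚ_[p]) * ((sig i : ℤ) : ℚ_[p])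
        = lam * (((∏ l ∈ range M, ((μ l : ℚ) - δ * u i)) *
    (((e2.eval (u i) : ℤ) : ℚ) * T2 i) : ℚ) : ℚ_[p]) *
          ((P.eval (u i) * rho i - P'.eval (u i) * sig i : ℤ) : ℚ_[p]) := by
      have := congrArg (fun z : ℚ => (z : ℚ_[p])) key
      push_cast at this ⊢
      linear_combination lam * (∏ l ∈ range M, ((μ l : ℚ_[p]) - δ * u i)) * this
    have hnorm := congrArg (fun z => ‖z‖) key2
    beta_reduce at hnorm
    rw [norm_mul _ ((sig i : ℤ) : ℚ_[p]), hsig1, mul_one, norm_mul _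
      ((P.eval (u i) * rho i - P'.eval (u i) * sig i : ℤ) : ℚ_[p])] at hnorm
    rw [hnorm]
    have hd := (Padic.norm_int_le_pow_iff_dvd (p := p) _ T).mpr (by exact_mod_cast hdvd i hi')
    exact mul_le_mul (hcci i hi') hd (norm_nonneg _) hc0
  have hfin := hL (c * (p:ℝ)^(-(T:ℤ))) E (by positivity) hnode
  have hz : ∀ l : ℕ, μ l - δ * 0 ≠ 0 := by intro l; rw [mul_zero, sub_zero]; exact hμ0 l
  have h0 := hEval 0 hz
  have hmax : max (‖∏ i ∈ range (m+1), ((u i : ℤ) : ℤ_[p])‖) (c * (p:ℝ)^(-(T:ℤ)) * L)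
      ≤ ‖((∏ i ∈ range (m+1), (u i) : ℤ) : ℚ_[p])‖ := by
    apply max_le
    · apply le_of_eq
      rw [PadicInt.norm_def]
      congr 1
      rw [coe_prodZ]
      push_cast
      rfl
    · exact hT0 T hT
  refine le_trans (le_of_eq ?_) (hfin.trans hmax)
  rw [PadicInt.norm_def]
  have hz0 : (0 : ℤ_[p]) = ((0:ℤ) : ℤ_[p]) := by simp
  rw [hz0, hE, h0]
  rw [norm_mul, mul_assoc]
  congr 1
  have e : ∏ l ∈ range M, ((μ l : ℚ) - δ * ((0:ℤ):ℚ)) = ((∏ l ∈ range M, (μ l) : ℤ) : ℚ) := by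
    push_cast
    simp
  rw [e]
  rw [← norm_mul]
  congr 1
  push_cast
  rw [zero_div]

end Pool.Agent.NineA
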