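import Pool.Agent.NineA.Inst

set_option autoImplicit false
set_option linter.unusedSectionVars false
set_option linter.unusedVariables false

open Finset Polynomial

namespace Pool.Agent.NineA

open Pool.Agent.Swisher

variable (p : ℕ) [hp : Fact p.Prime]

/-- half of the node -/
def K4 (e i : ℕ) : ℕ := (p*(4*i+e))/2

lemma K4_spec (hp2 : p ≠ 2) (e i : ℕ) (he : e % 2 = 1) : 2 * K4 p e i + 1 = p*(4*i+e) := by
  unfold K4
  have h1 : p % 2 = 1 := Nat.odd_iff.mp (hp.out.odd_of_ne_two hp2)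
  have : (p*(4*i+e)) % 2 = 1 := by
    rw [Nat.mul_mod, h1]
    have : (4*i+e) % 2 = 1 := by omega
    rw [this]
  omega

lemma u4_eq (hp2 : p ≠ 2) (e i : ℕ) (he : e % 2 = 1) :
    u4 p e i = (2*(K4 p e i : ℤ)+1)^4 := by
  have h := K4_spec p hp2 e i he
  unfold u4
  congr 1
  have : ((p*(4*i+e) : ℕ) : ℤ) = ((2 * K4 p e i + 1 : ℕ) : ℤ) := by rw [h]
  push_cast at this
  exact this

lemma K4_dvd (hp2 : p ≠ 2) (e i : ℕ) (he : e % 2 = 1) : (p:ℤ) ∣ (2*(K4 p e i : ℤ)+1) := by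
  have h := K4_spec p hp2 e i he
  have : ((p*(4*i+e) : ℕ) : ℤ) = ((2 * K4 p e i + 1 : ℕ) : ℤ) := by rw [h]
  push_cast at this
  rw [← this]
  exact dvd_mul_right _ _

lemma K4_le (hp2 : p ≠ 2) (e i m M : ℕ) (he : e % 2 = 1) (he4 : e < 4) (hM : p*(m+1) = M+1)
    (hi : i ≤ m) : K4 p e i ≤ 2*M+1 := by
  have h := K4_spec p hp2 e i he
  have h1 : p*(4*i+e) ≤ p*(4*m+3) := Nat.mul_le_mul_left _ (by omega)
  have h2 : p*(4*m+3) + p = 4*(p*(m+1)) := by ring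
  have := hp.out.two_le
  omega

/-- relation between the `W` values at a node, integers version -/
lemma W_rel4 (hp2 : p ≠ 2) (e i k : ℕ) (he : e % 2 = 1) (hk : 2*k+1 = 4*i+e) :
    W (2*(K4 p e i : ℚ)+1) (K4 p e i) * ((rE (gV p (2*(K4 p e i : ℤ)+1)) (K4 p e i) : ℤ) : ℚ)
      = W (4*(i:ℚ)+e) k * (if Even k then 1 else (p:ℚ)^2)
        * ((rO (gV p (2*(K4 p e i : ℤ)+1)) (K4 p e i) : ℤ) : ℚ) := by
  have h := K4_spec p hp2 e i he
  have hz : (2*(K4 p e i : ℤ)+1) = p * (4*(i:ℤ)+e) := by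
    have : ((p*(4*i+e) : ℕ) : ℤ) = ((2 * K4 p e i + 1 : ℕ) : ℤ) := by rw [h]
    push_cast at this
    exact this.symm
  have := W_rel p hp2 (2*(K4 p e i : ℤ)+1) (4*(i:ℤ)+e) hz (K4 p e i) k (by rw [hk, h])
  push_cast at this
  exact this

lemma norm_p_mul (α : ℕ → ℚ) (k : ℕ) (B : ℝ) (h : ‖((α k : ℚ) : ℚ_[p])‖ ≤ B) :
    ‖((((p:ℚ) * α k : ℚ)) : ℚ_[p])‖ ≤ B := by
  push_cast
  rw [norm_mul, Padic.norm_p]
  have hp1 : (1:ℝ) ≤ p := by exact_mod_cast hp.out.one_lt.le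
  have : (p:ℝ)⁻¹ ≤ 1 := inv_le_one_of_one_le₀ hp1
  calc (p:ℝ)⁻¹ * ‖((α k : ℚ) : ℚ_[p])‖ ≤ 1 * B := mul_le_mul this h (norm_nonneg _) (by norm_num)
    _ = B := one_mul B

lemma prodμ4_ne (M : ℕ) : ((∏ l ∈ range M, (μ4z l) : ℤ) : ℚ_[p]) ≠ 0 := by
  have : (∏ l ∈ range M, (μ4z l) : ℤ) ≠ 0 := prod_ne_zero_iff.mpr (fun l _ => μ4z_ne l)
  exact_mod_cast this

theorem stepA1 (hp4 : p % 4 = 1) (m M r I : ℕ) (hr : 1 ≤ r) (hm : m + 1 = p^(r-1))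
    (hM : M + 1 = p^r) (hI : 4*p^r ≤ p^(I+1)) :
    ∃ T0 : ℕ, ∀ T : ℕ, T0 ≤ T → ∀ Q : ℕ, p^T = 4*Q+1 →
      ‖((((Pint p 0 Q : ℤ) : ℚ) * Asum M - ((Cint p 0 Q : ℤ) : ℚ) * ((p:ℚ) * Asum m) : ℚ) : ℚ_[p])‖
        ≤ (p:ℝ)^((I:ℤ)-((4*r:ℕ):ℤ)) := by
  have hp2 : p ≠ 2 := by omega
  have hMm : p * (m+1) = M+1 := by rw [hm, hM, ← pow_succ']; congr 1; omega
  have hppos : 0 < p := hp.out.pos
  have hmM : m ≤ M := by nlinarith
  obtain ⟨a, ha⟩ := lift_exists p aA I M (fun k hk => aA_norm p hp2 I k (by omega))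
  obtain ⟨b, hb⟩ := lift_exists p (fun k => (p:ℚ) * aA k) I m
    (fun k hk => norm_p_mul p aA k _ (aA_norm p hp2 I k (by omega)))
  have hpz : ((p:ℤ)^4) ≠ 0 := pow_ne_zero _ (by exact_mod_cast hppos.ne')
  have hpq : (p:ℚ) ≠ 0 := by exact_mod_cast hppos.ne'
  obtain ⟨T0, hT0⟩ := step p 1 1 a b aA (fun k => (p:ℚ) * aA k) ((p:ℚ_[p])^I) (ν4z 1) (ν4z 1) μ4z 1
    ((p:ℤ)^4) m M hMm ha hb hpz (μ4z_p p) μ4z_ne (u4 p 1) (u4_inj p 1) (u4_ne p 1 (by norm_num))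
    (fun i l => hU4 p hp2 1 (by decide) i l)
    (fun i => rO (gV p (2*(K4 p 1 i : ℤ)+1)) (K4 p 1 i))
    (fun i => rE (gV p (2*(K4 p 1 i : ℤ)+1)) (K4 p 1 i))
    (fun i => not_dvd_rE p hp2 _ (K4_dvd p hp2 1 i rfl) _) (by
      intro i hi
      have hK := K4_spec p hp2 1 i rfl
      have hKle := K4_le p hp2 1 i m M rfl (by norm_num) hMm hi
      obtain ⟨k', hk'⟩ : ∃ k', K4 p 1 i = 2*k' := by
        refine ⟨K4 p 1 i / 2, ?_⟩
        obtain ⟨t, ht⟩ : ∃ t, p = 4*t+1 := ⟨p/4, by omega⟩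
        have : p*(4*i+1) = 4*(t*(4*i+1)+i)+1 := by rw [ht]; ring
        omega
      have hk'M : k' ≤ M := by omega
      have hW := W_rel4 p hp2 1 i (2*i) rfl (by ring)
      rw [if_pos (by simp)] at hW
      have hV : (((u4 p 1 i : ℤ)) : ℚ) = (4*(k':ℚ)+1)^4 := by
        rw [u4_eq p hp2 1 i rfl, hk']; push_cast; ring
      have hVl : (4*(k':ℚ)+1) = p * (4*(i:ℚ)+1) := by
        have : ((p*(4*i+1) : ℕ) : ℚ) = ((2 * K4 p 1 i + 1 : ℕ) : ℚ) := by rw [hK]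
        rw [hk'] at this
        push_cast at this
        linear_combination -this
      have hl : (((u4 p 1 i : ℤ)) : ℚ) / (((p:ℤ)^4 : ℤ) : ℚ) = (4*(i:ℚ)+1)^4 := by
        rw [hV, hVl]; push_cast; field_simp
      rw [hl, hV, ν4z_one, μ4z_eq, TS_smul]
      push_cast
      rw [clA k' M hk'M, clA i m hi]
      rw [hk'] at hW ⊢
      push_cast at hW ⊢
      have e1 : (2*(2*(k':ℚ))+1) = 4*(k':ℚ)+1 := by ring
      rw [e1] at hW
      simp only [eval_one, Int.cast_one, one_mul]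
      rw [mul_assoc, hW]
      rw [hVl]
      ring)
  refine ⟨max T0 1, ?_⟩
  intro T hT Q hQ
  have h := hT0 T (le_of_max_le_left hT) (PT p Q) (C (Cint p 0 Q)) (by
    intro i hi
    have hev : Even (K4 p 1 i) := by
      have hK := K4_spec p hp2 1 i rfl
      rw [Nat.even_iff]
      obtain ⟨t, ht⟩ : ∃ t, p = 4*t+1 := ⟨p/4, by omega⟩
      have : p*(4*i+1) = 4*(t*(4*i+1)+i)+1 := by rw [ht]; ring
      omega
    have hr := PA_rel p hp2 (K4 p 1 i) (K4_dvd p hp2 1 i rfl) T (le_of_max_le_right hT) Q hQ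
    rw [rN_even _ _ hev, rD_even _ _ hev] at hr
    rw [eval_PT, eval_C, u4_eq p hp2 1 i rfl]
    push_cast at hr
    exact hr)
  rw [ν4z_one, μ4z_eq, TS_smul, eval_PT, eval_C] at h
  have h2 := clean p I (4*r) _ _ _ (prodμ4_ne p M) h (ratio4 p hp2 1 m M r hr hm hM)
  refine le_trans (le_of_eq ?_) h2
  congr 1
  unfold Asum
  simp only [eval_one]
  push_cast
  ring

theorem stepA3 (hp4 : p % 4 = 3) (m M r I : ℕ) (hr : 1 ≤ r) (hm : m + 1 = p^(r-1))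
    (hM : M + 1 = p^r) (hI : 4*p^r ≤ p^(I+1)) (hI1 : 1 ≤ I) (hI2 : 4*p^(r-1)+1 < p^I) :
    ∃ T0 : ℕ, ∀ T : ℕ, T0 ≤ T → ∀ Q : ℕ, p^T = 4*Q+1 →
      ‖((((Pint p 0 Q : ℤ) : ℚ) * Asum M - ((Cint p 0 Q : ℤ) : ℚ) * ((p:ℚ)^3 * Dsum m) : ℚ) : ℚ_[p])‖
        ≤ (p:ℝ)^((I:ℤ)-((4*r:ℕ):ℤ)) := by
  have hp2 : p ≠ 2 := by omega
  have hMm : p * (m+1) = M+1 := by rw [hm, hM, ← pow_succ']; congr 1; omega
  have hppos : 0 < p := hp.out.pos
  have hmM : m ≤ M := by nlinarith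
  have hpR : (0:ℝ) < p := by exact_mod_cast hppos
  obtain ⟨a, ha⟩ := lift_exists p aA I M (fun k hk => aA_norm p hp2 I k (by omega))
  obtain ⟨b, hb⟩ := lift_exists p (fun k => (1/(p:ℚ)) * aD k) I m
    (fun k hk => by
      have h1 := aD_norm p hp2 (I-1) k (by rw [Nat.sub_add_cancel hI1]; omega)
      push_cast
      rw [norm_mul, norm_div, norm_one, Padic.norm_p, one_div, inv_inv]
      have e : (p:ℝ)^I = p * (p:ℝ)^(I-1) := by rw [← pow_succ', Nat.sub_add_cancel hI1]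
      rw [e]
      exact mul_le_mul_of_nonneg_left h1 hpR.le)
  have hpz : ((p:ℤ)^4) ≠ 0 := pow_ne_zero _ (by exact_mod_cast hppos.ne')
  have hpq : (p:ℚ) ≠ 0 := by exact_mod_cast hppos.ne'
  have hKeven : ∀ i, ∃ k', K4 p 3 i = 2*k' := by
    intro i
    have hK := K4_spec p hp2 3 i rfl
    refine ⟨K4 p 3 i / 2, ?_⟩
    obtain ⟨t, ht⟩ : ∃ t, p = 4*t+3 := ⟨p/4, by omega⟩
    have : p*(4*i+3) = 4*(t*(4*i+3)+3*i+2)+1 := by rw [ht]; ring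
    omega
  obtain ⟨T0, hT0⟩ := step p 1 (X - C (16*(p:ℤ)^4)) a b aA (fun k => (1/(p:ℚ)) * aD k)
    ((p:ℚ_[p])^I) (ν4z 1) (ν4z 3) μ4z 1
    ((p:ℤ)^4) m M hMm ha hb hpz (μ4z_p p) μ4z_ne (u4 p 3) (u4_inj p 3) (u4_ne p 3 (by norm_num))
    (fun i l => hU4 p hp2 3 (by decide) i l)
    (fun i => rO (gV p (2*(K4 p 3 i : ℤ)+1)) (K4 p 3 i))
    (fun i => rE (gV p (2*(K4 p 3 i : ℤ)+1)) (K4 p 3 i))
    (fun i => not_dvd_rE p hp2 _ (K4_dvd p hp2 3 i rfl) _) (by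
      intro i hi
      have hK := K4_spec p hp2 3 i rfl
      have hKle := K4_le p hp2 3 i m M rfl (by norm_num) hMm hi
      obtain ⟨k', hk'⟩ := hKeven i
      have hk'M : k' ≤ M := by omega
      have hW := W_rel4 p hp2 3 i (2*i+1) rfl (by ring)
      rw [if_neg (by simp)] at hW
      have hV : (((u4 p 3 i : ℤ)) : ℚ) = (4*(k':ℚ)+1)^4 := by
        rw [u4_eq p hp2 3 i rfl, hk']; push_cast; ring
      have hVl : (4*(k':ℚ)+1) = p * (4*(i:ℚ)+3) := by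
        have : ((p*(4*i+3) : ℕ) : ℚ) = ((2 * K4 p 3 i + 1 : ℕ) : ℚ) := by rw [hK]
        rw [hk'] at this
        push_cast at this
        linear_combination -this
      have hl : (((u4 p 3 i : ℤ)) : ℚ) / (((p:ℤ)^4 : ℤ) : ℚ) = (4*(i:ℚ)+3)^4 := by
        rw [hV, hVl]; push_cast; field_simp
      have he2 : ((((X - C (16*(p:ℤ)^4)) : ℤ[X]).eval (u4 p 3 i) : ℤ) : ℚ)
          = (p:ℚ)^4 * ((4*(i:ℚ)+3)^4 - 16) := by
        simp only [eval_sub, eval_X, eval_C]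
        push_cast
        rw [hV, hVl]; ring
      have hD := clD i m hi
      rw [hl, he2, hV, ν4z_one, ν4z_three, μ4z_eq, TS_smul]
      push_cast
      rw [clA k' M hk'M]
      rw [hk'] at hW ⊢
      push_cast at hW ⊢
      have e1 : (2*(2*(k':ℚ))+1) = 4*(k':ℚ)+1 := by ring
      rw [e1] at hW
      simp only [eval_one, Int.cast_one, one_mul]
      rw [mul_assoc, hW]
      rw [hVl]
      have e2 : (p:ℚ)^4 * ((4*(i:ℚ)+3)^4 - 16) * (1/(p:ℚ) * TS aD (ν4 3) μ4 1 ((4*(i:ℚ)+3)^4) m)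
          = (p:ℚ)^3 * ((4*(i:ℚ)+3) * W (4*(i:ℚ)+3) (2*i+1)) := by
        rw [← hD]; field_simp
      rw [e2]
      ring)
  refine ⟨max T0 1, ?_⟩
  intro T hT Q hQ
  have h := hT0 T (le_of_max_le_left hT) (PT p Q) (C (Cint p 0 Q)) (by
    intro i hi
    have hev : Even (K4 p 3 i) := by
      obtain ⟨k', hk'⟩ := hKeven i
      rw [hk']; simp
    have hr := PA_rel p hp2 (K4 p 3 i) (K4_dvd p hp2 3 i rfl) T (le_of_max_le_right hT) Q hQ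
    rw [rN_even _ _ hev, rD_even _ _ hev] at hr
    rw [eval_PT, eval_C, u4_eq p hp2 3 i rfl]
    push_cast at hr
    exact hr)
  rw [ν4z_one, ν4z_three, μ4z_eq, TS_smul, eval_PT, eval_C] at h
  have h2 := clean p I (4*r) _ _ _ (prodμ4_ne p M) h (ratio4 p hp2 3 m M r hr hm hM)
  refine le_trans (le_of_eq ?_) h2
  congr 1
  have hpp : (p:ℚ_[p]) ≠ 0 := by exact_mod_cast hppos.ne'
  unfold Asum Dsum
  simp only [eval_one, eval_sub, eval_X, eval_C]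
  push_cast
  have e3 : (0 - 16 * (p:ℚ_[p])^4) * (1/(p:ℚ_[p]) * (((TS aD (ν4 3) μ4 1 0 m : ℚ)) : ℚ_[p]))
      = (p:ℚ_[p])^3 * (-16 * ((TS aD (ν4 3) μ4 1 0 m : ℚ) : ℚ_[p])) := by
    field_simp
    ring
  rw [← e3]
  ring

theorem stepA3' (hp4 : p % 4 = 3) (m M r I : ℕ) (hr : 1 ≤ r) (hm : m + 1 = p^(r-1))
    (hM : M + 1 = p^r) (hI : 4*p^r+1 < p^(I+1)) :
    ∃ T0 : ℕ, ∀ T : ℕ, T0 ≤ T → ∀ Q : ℕ, p^T = 4*Q+1 →
      ‖((((Cint p 0 Q : ℤ) : ℚ) * Dsum M - ((Pint p 0 Q : ℤ) : ℚ) * ((p:ℚ) * Asum m) : ℚ) : ℚ_[p])‖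
        ≤ (p:ℝ)^((I:ℤ)-((4*r:ℕ):ℤ)) := by
  have hp2 : p ≠ 2 := by omega
  have hMm : p * (m+1) = M+1 := by rw [hm, hM, ← pow_succ']; congr 1; omega
  have hppos : 0 < p := hp.out.pos
  have hmM : m ≤ M := by nlinarith
  have hpR : (0:ℝ) < p := by exact_mod_cast hppos
  obtain ⟨a, ha⟩ := lift_exists p aD I M (fun k hk => aD_norm p hp2 I k (by omega))
  obtain ⟨b, hb⟩ := lift_exists p (fun k => (p:ℚ) * aA k) I m
    (fun k hk => norm_p_mul p aA k _ (aA_norm p hp2 I k (by omega)))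
  have hpz : ((p:ℤ)^4) ≠ 0 := pow_ne_zero _ (by exact_mod_cast hppos.ne')
  have hpq : (p:ℚ) ≠ 0 := by exact_mod_cast hppos.ne'
  have hKodd : ∀ i, ∃ k', K4 p 1 i = 2*k'+1 := by
    intro i
    have hK := K4_spec p hp2 1 i rfl
    refine ⟨K4 p 1 i / 2, ?_⟩
    obtain ⟨t, ht⟩ : ∃ t, p = 4*t+3 := ⟨p/4, by omega⟩
    have : p*(4*i+1) = 4*(t*(4*i+1)+3*i)+3 := by rw [ht]; ring
    omega
  obtain ⟨T0, hT0⟩ := step p (X - C 16) 1 a b aD (fun k => (p:ℚ) * aA k)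
    ((p:ℚ_[p])^I) (ν4z 3) (ν4z 1) μ4z 1
    ((p:ℤ)^4) m M hMm ha hb hpz (μ4z_p p) μ4z_ne (u4 p 1) (u4_inj p 1) (u4_ne p 1 (by norm_num))
    (fun i l => hU4 p hp2 1 (by decide) i l)
    (fun i => rO (gV p (2*(K4 p 1 i : ℤ)+1)) (K4 p 1 i))
    (fun i => rE (gV p (2*(K4 p 1 i : ℤ)+1)) (K4 p 1 i))
    (fun i => not_dvd_rE p hp2 _ (K4_dvd p hp2 1 i rfl) _) (by
      intro i hi
      have hK := K4_spec p hp2 1 i rfl
      have hKle := K4_le p hp2 1 i m M rfl (by norm_num) hMm hi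
      obtain ⟨k', hk'⟩ := hKodd i
      have hk'M : k' ≤ M := by omega
      have hW := W_rel4 p hp2 1 i (2*i) rfl (by ring)
      rw [if_pos (by simp)] at hW
      have hV : (((u4 p 1 i : ℤ)) : ℚ) = (4*(k':ℚ)+3)^4 := by
        rw [u4_eq p hp2 1 i rfl, hk']; push_cast; ring
      have hVl : (4*(k':ℚ)+3) = p * (4*(i:ℚ)+1) := by
        have : ((p*(4*i+1) : ℕ) : ℚ) = ((2 * K4 p 1 i + 1 : ℕ) : ℚ) := by rw [hK]
        rw [hk'] at this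
        push_cast at this
        linear_combination -this
      have hl : (((u4 p 1 i : ℤ)) : ℚ) / (((p:ℤ)^4 : ℤ) : ℚ) = (4*(i:ℚ)+1)^4 := by
        rw [hV, hVl]; push_cast; field_simp
      have he1 : ((((X - C 16) : ℤ[X]).eval (u4 p 1 i) : ℤ) : ℚ)
          = (4*(k':ℚ)+3)^4 - 16 := by
        simp only [eval_sub, eval_X, eval_C]
        push_cast
        rw [hV]
      rw [hl, he1, hV, ν4z_one, ν4z_three, μ4z_eq, TS_smul]
      push_cast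
      rw [clD k' M hk'M, clA i m hi]
      rw [hk'] at hW ⊢
      push_cast at hW ⊢
      have e1 : (2*(2*(k':ℚ)+1)+1) = 4*(k':ℚ)+3 := by ring
      rw [e1] at hW
      simp only [eval_one, Int.cast_one, one_mul]
      rw [mul_assoc, hW]
      rw [hVl]
      ring)
  refine ⟨max T0 1, ?_⟩
  intro T hT Q hQ
  have h := hT0 T (le_of_max_le_left hT) (C (Cint p 0 Q)) (PT p Q) (by
    intro i hi
    have hod : Odd (K4 p 1 i) := by
      obtain ⟨k', hk'⟩ := hKodd i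
      rw [hk']; simp
    have hr := PA_rel p hp2 (K4 p 1 i) (K4_dvd p hp2 1 i rfl) T (le_of_max_le_right hT) Q hQ
    rw [rN_odd _ _ hod, rD_odd _ _ hod] at hr
    rw [eval_PT, eval_C, u4_eq p hp2 1 i rfl]
    push_cast at hr
    have hr2 := dvd_neg.mpr hr
    rw [neg_sub] at hr2
    exact hr2)
  rw [ν4z_one, ν4z_three, μ4z_eq, TS_smul, eval_PT, eval_C] at h
  have h2 := clean p I (4*r) _ _ _ (prodμ4_ne p M) h (ratio4 p hp2 1 m M r hr hm hM)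
  refine le_trans (le_of_eq ?_) h2
  congr 1
  unfold Asum Dsum
  simp only [eval_one, eval_sub, eval_X, eval_C]
  push_cast
  ring

/-- half of the node, `B` case -/
def K2 (i : ℕ) : ℕ := (p*(2*i+1))/2

lemma K2_spec (hp2 : p ≠ 2) (i : ℕ) : 2 * K2 p i + 1 = p*(2*i+1) := by
  unfold K2
  have h1 : p % 2 = 1 := Nat.odd_iff.mp (hp.out.odd_of_ne_two hp2)
  have : (p*(2*i+1)) % 2 = 1 := by
    rw [Nat.mul_mod, h1]
    have : (2*i+1) % 2 = 1 := by omega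
    rw [this]
  omega

lemma u2_eq (hp2 : p ≠ 2) (i : ℕ) : u2 p i = (2*(K2 p i : ℤ)+1)^2 := by
  have h := K2_spec p hp2 i
  unfold u2
  congr 1
  have : ((p*(2*i+1) : ℕ) : ℤ) = ((2 * K2 p i + 1 : ℕ) : ℤ) := by rw [h]
  push_cast at this
  exact this

lemma K2_dvd (hp2 : p ≠ 2) (i : ℕ) : (p:ℤ) ∣ (2*(K2 p i : ℤ)+1) := by
  have h := K2_spec p hp2 i
  have : ((p*(2*i+1) : ℕ) : ℤ) = ((2 * K2 p i + 1 : ℕ) : ℤ) := by rw [h]
  push_cast at this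
  rw [← this]
  exact dvd_mul_right _ _

lemma K2_le (hp2 : p ≠ 2) (i m M : ℕ) (hM : p*(m+1) = M+1) (hi : i ≤ m) : K2 p i ≤ M := by
  have h := K2_spec p hp2 i
  have h1 : p*(2*i+1) ≤ p*(2*m+1) := Nat.mul_le_mul_left _ (by omega)
  have h2 : p*(2*m+1) + p = 2*(p*(m+1)) := by ring
  have := hp.out.two_le
  omega

lemma W_rel2 (hp2 : p ≠ 2) (i : ℕ) :
    W 0 (K2 p i) * ((rE (gV p 0) (K2 p i) : ℤ) : ℚ)
      = W 0 i * (if Even i then 1 else (p:ℚ)^2)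
        * ((rO (gV p 0) (K2 p i) : ℤ) : ℚ) := by
  have h := K2_spec p hp2 i
  have := W_rel p hp2 0 0 (by ring) (K2 p i) i h.symm
  push_cast at this
  exact this

lemma prodμ2_ne (M : ℕ) : ((∏ l ∈ range M, (μ2z l) : ℤ) : ℚ_[p]) ≠ 0 := by
  have : (∏ l ∈ range M, (μ2z l) : ℤ) ≠ 0 := prod_ne_zero_iff.mpr (fun l _ => μ2z_ne l)
  exact_mod_cast this

lemma K2_par1 (hp4 : p % 4 = 1) (i : ℕ) : Even (K2 p i) ↔ Even i := by
  have hK := K2_spec p (by omega) i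
  rw [Nat.even_iff, Nat.even_iff]
  obtain ⟨t, ht⟩ : ∃ t, p = 4*t+1 := ⟨p/4, by omega⟩
  have : p*(2*i+1) = 4*(t*(2*i+1))+(2*i+1) := by rw [ht]; ring
  omega

lemma K2_par3 (hp4 : p % 4 = 3) (i : ℕ) : Even (K2 p i) ↔ ¬ Even i := by
  have hK := K2_spec p (by omega) i
  rw [Nat.even_iff, Nat.even_iff]
  obtain ⟨t, ht⟩ : ∃ t, p = 4*t+3 := ⟨p/4, by omega⟩
  have : p*(2*i+1) = 4*(t*(2*i+1))+(6*i+3) := by rw [ht]; ring
  omega

lemma rN_dvd (hp2 : p ≠ 2) (i T Q : ℕ) (hT : 1 ≤ T) (hQ : p^T = 4*Q+1) :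
    (p:ℤ)^T ∣ (PBT p Q).eval (u2 p i) * rN (gV p 0) (K2 p i)
      - (C (Cint p 0 Q) : ℤ[X]).eval (u2 p i) * rD (gV p 0) (K2 p i) := by
  have hr := PB_rel p hp2 (K2 p i) (K2_dvd p hp2 i) T hT Q hQ
  rw [eval_PBT, eval_C, u2_eq p hp2 i]
  push_cast at hr
  exact hr

lemma not_dvd_rN (hp2 : p ≠ 2) (K : ℕ) : ¬ (p:ℤ) ∣ rN (gV p 0) K := by
  rcases Nat.even_or_odd K with h | h
  · rw [rN_even _ _ h]; exact not_dvd_rO p hp2 0 (dvd_zero _) K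
  · rw [rN_odd _ _ h]; exact not_dvd_rE p hp2 0 (dvd_zero _) K

lemma not_dvd_rD (hp2 : p ≠ 2) (K : ℕ) : ¬ (p:ℤ) ∣ rD (gV p 0) K := by
  rcases Nat.even_or_odd K with h | h
  · rw [rD_even _ _ h]; exact not_dvd_rE p hp2 0 (dvd_zero _) K
  · rw [rD_odd _ _ h]; exact not_dvd_rO p hp2 0 (dvd_zero _) K

/-- common part of the `B` steps -/
lemma hl2 (hp2 : p ≠ 2) (i : ℕ) :
    (((u2 p i : ℤ)) : ℚ) = (2*((K2 p i : ℕ):ℚ)+1)^2 ∧
    (((u2 p i : ℤ)) : ℚ) / (((p:ℤ)^2 : ℤ) : ℚ) = (2*(i:ℚ)+1)^2 := by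
  have hpq : (p:ℚ) ≠ 0 := by exact_mod_cast hp.out.ne_zero
  constructor
  · rw [u2_eq p hp2 i]; push_cast; ring
  · unfold u2
    push_cast
    field_simp

theorem stepB1 (hp4 : p % 4 = 1) (m M r : ℕ) (hr : 1 ≤ r) (hm : m + 1 = p^(r-1))
    (hM : M + 1 = p^r) :
    ∃ T0 : ℕ, ∀ T : ℕ, T0 ≤ T → ∀ Q : ℕ, p^T = 4*Q+1 →
      ‖((((Pint p 0 Q : ℤ) : ℚ) * Bsum M - ((Cint p 0 Q : ℤ) : ℚ) * Bsum m : ℚ) : ℚ_[p])‖
        ≤ (p:ℝ)^(-((2*r:ℕ):ℤ)) := by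
  have hp2 : p ≠ 2 := by omega
  have hMm : p * (m+1) = M+1 := by rw [hm, hM, ← pow_succ']; congr 1; omega
  have hppos : 0 < p := hp.out.pos
  obtain ⟨a, ha⟩ := lift_exists p be 0 M (fun k hk => by rw [pow_zero]; exact be_norm p hp2 k)
  obtain ⟨b, hb⟩ := lift_exists p be 0 m (fun k hk => by rw [pow_zero]; exact be_norm p hp2 k)
  have hpz : ((p:ℤ)^2) ≠ 0 := pow_ne_zero _ (by exact_mod_cast hppos.ne')
  obtain ⟨T0, hT0⟩ := step p 1 1 a b be be ((p:ℚ_[p])^0) ν2z ν2z μ2z 0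
    ((p:ℤ)^2) m M hMm ha hb hpz (μ2z_p p) μ2z_ne (u2 p) (u2_inj p) (u2_ne p)
    (fun i l => by rw [zero_mul, sub_zero]; exact μ2z_ne l)
    (fun i => rN (gV p 0) (K2 p i)) (fun i => rD (gV p 0) (K2 p i))
    (fun i => not_dvd_rD p hp2 _) (by
      intro i hi
      obtain ⟨h1, h2⟩ := hl2 p hp2 i
      have hW := W_rel2 p hp2 i
      rw [h2, h1, ν2z_eq, μ2z_eq]
      push_cast
      rw [clB _ M (K2_le p hp2 i m M hMm hi), clB i m hi]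
      by_cases hev : Even i
      · have hevK := (K2_par1 p hp4 i).mpr hev
        rw [if_pos hev] at hW
        rw [if_pos hev, if_pos hevK, rN_even _ _ hevK, rD_even _ _ hevK]
        simp only [eval_one, Int.cast_one, one_mul]
        rw [hW]; ring
      · have hevK : ¬ Even (K2 p i) := fun h => hev ((K2_par1 p hp4 i).mp h)
        rw [if_neg hev, if_neg hevK]
        ring)
  refine ⟨max T0 1, ?_⟩
  intro T hT Q hQ
  have h := hT0 T (le_of_max_le_left hT) (PBT p Q) (C (Cint p 0 Q)) (by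
    intro i hi
    exact rN_dvd p hp2 i T Q (le_of_max_le_right hT) hQ)
  rw [ν2z_eq, μ2z_eq, eval_PBT, eval_C, ← P_zero] at h
  have h2 := clean p 0 (2*r) _ _ _ (prodμ2_ne p M) h (ratio2 p hp2 m M r hr hm hM)
  refine le_trans (le_of_eq ?_) (h2.trans (le_of_eq ?_))
  · congr 1
    unfold Bsum
    simp only [eval_one]
    push_cast
    ring
  · congr 1
    push_cast
    ring

theorem stepB3 (hp4 : p % 4 = 3) (m M r : ℕ) (hr : 1 ≤ r) (hm : m + 1 = p^(r-1))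
    (hM : M + 1 = p^r) :
    ∃ T0 : ℕ, ∀ T : ℕ, T0 ≤ T → ∀ Q : ℕ, p^T = 4*Q+1 →
      ‖((((Pint p 0 Q : ℤ) : ℚ) * Bsum M - ((Cint p 0 Q : ℤ) : ℚ) * ((p:ℚ)^2 * Csum m) : ℚ) : ℚ_[p])‖
        ≤ (p:ℝ)^(-((2*r:ℕ):ℤ)) := by
  have hp2 : p ≠ 2 := by omega
  have hMm : p * (m+1) = M+1 := by rw [hm, hM, ← pow_succ']; congr 1; omega
  have hppos : 0 < p := hp.out.pos
  obtain ⟨a, ha⟩ := lift_exists p be 0 M (fun k hk => by rw [pow_zero]; exact be_norm p hp2 k)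
  obtain ⟨b, hb⟩ := lift_exists p (fun k => (p:ℚ)^2 * aC k) 0 m (fun k hk => by
    rw [pow_zero]
    have h1 := norm_p_mul p aC k 1 (aC_norm p hp2 k)
    have h2 := norm_p_mul p (fun k => (p:ℚ) * aC k) k 1 h1
    have e : (p:ℚ)^2 * aC k = (p:ℚ) * ((p:ℚ) * aC k) := by ring
    rw [e]
    exact h2)
  have hpz : ((p:ℤ)^2) ≠ 0 := pow_ne_zero _ (by exact_mod_cast hppos.ne')
  obtain ⟨T0, hT0⟩ := step p 1 1 a b be (fun k => (p:ℚ)^2 * aC k) ((p:ℚ_[p])^0) ν2z ν2z μ2z 0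
    ((p:ℤ)^2) m M hMm ha hb hpz (μ2z_p p) μ2z_ne (u2 p) (u2_inj p) (u2_ne p)
    (fun i l => by rw [zero_mul, sub_zero]; exact μ2z_ne l)
    (fun i => rN (gV p 0) (K2 p i)) (fun i => rD (gV p 0) (K2 p i))
    (fun i => not_dvd_rD p hp2 _) (by
      intro i hi
      obtain ⟨h1, h2⟩ := hl2 p hp2 i
      have hW := W_rel2 p hp2 i
      rw [h2, h1, ν2z_eq, μ2z_eq, TS_smul]
      push_cast
      rw [clB _ M (K2_le p hp2 i m M hMm hi), clC i m hi]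
      by_cases hev : Even i
      · have hevK : ¬ Even (K2 p i) := fun h => ((K2_par3 p hp4 i).mp h) hev
        rw [if_pos hev, if_neg hevK]
        ring
      · have hevK := (K2_par3 p hp4 i).mpr hev
        rw [if_neg hev] at hW
        rw [if_neg hev, if_pos hevK, rN_even _ _ hevK, rD_even _ _ hevK]
        simp only [eval_one, Int.cast_one, one_mul]
        rw [hW]; ring)
  refine ⟨max T0 1, ?_⟩
  intro T hT Q hQ
  have h := hT0 T (le_of_max_le_left hT) (PBT p Q) (C (Cint p 0 Q)) (by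
    intro i hi
    exact rN_dvd p hp2 i T Q (le_of_max_le_right hT) hQ)
  rw [ν2z_eq, μ2z_eq, TS_smul, eval_PBT, eval_C, ← P_zero] at h
  have h2 := clean p 0 (2*r) _ _ _ (prodμ2_ne p M) h (ratio2 p hp2 m M r hr hm hM)
  refine le_trans (le_of_eq ?_) (h2.trans (le_of_eq ?_))
  · congr 1
    unfold Bsum Csum
    simp only [eval_one]
    push_cast
    ring
  · congr 1
    push_cast
    ring

theorem stepB3' (hp4 : p % 4 = 3) (m M r : ℕ) (hr : 1 ≤ r) (hm : m + 1 = p^(r-1))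
    (hM : M + 1 = p^r) :
    ∃ T0 : ℕ, ∀ T : ℕ, T0 ≤ T → ∀ Q : ℕ, p^T = 4*Q+1 →
      ‖((((Cint p 0 Q : ℤ) : ℚ) * Csum M - ((Pint p 0 Q : ℤ) : ℚ) * Bsum m : ℚ) : ℚ_[p])‖
        ≤ (p:ℝ)^(-((2*r:ℕ):ℤ)) := by
  have hp2 : p ≠ 2 := by omega
  have hMm : p * (m+1) = M+1 := by rw [hm, hM, ← pow_succ']; congr 1; omega
  have hppos : 0 < p := hp.out.pos
  obtain ⟨a, ha⟩ := lift_exists p aC 0 M (fun k hk => by rw [pow_zero]; exact aC_norm p hp2 k)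
  obtain ⟨b, hb⟩ := lift_exists p be 0 m (fun k hk => by rw [pow_zero]; exact be_norm p hp2 k)
  have hpz : ((p:ℤ)^2) ≠ 0 := pow_ne_zero _ (by exact_mod_cast hppos.ne')
  obtain ⟨T0, hT0⟩ := step p 1 1 a b aC be ((p:ℚ_[p])^0) ν2z ν2z μ2z 0
    ((p:ℤ)^2) m M hMm ha hb hpz (μ2z_p p) μ2z_ne (u2 p) (u2_inj p) (u2_ne p)
    (fun i l => by rw [zero_mul, sub_zero]; exact μ2z_ne l)
    (fun i => rD (gV p 0) (K2 p i)) (fun i => rN (gV p 0) (K2 p i))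
    (fun i => not_dvd_rN p hp2 _) (by
      intro i hi
      obtain ⟨h1, h2⟩ := hl2 p hp2 i
      have hW := W_rel2 p hp2 i
      rw [h2, h1, ν2z_eq, μ2z_eq]
      push_cast
      rw [clC _ M (K2_le p hp2 i m M hMm hi), clB i m hi]
      by_cases hev : Even i
      · have hevK : ¬ Even (K2 p i) := fun h => ((K2_par3 p hp4 i).mp h) hev
        have hodK := Nat.not_even_iff_odd.mp hevK
        rw [if_pos hev] at hW
        rw [if_pos hev, if_neg hevK, rN_odd _ _ hodK, rD_odd _ _ hodK]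
        simp only [eval_one, Int.cast_one, one_mul]
        rw [hW]; ring
      · have hevK := (K2_par3 p hp4 i).mpr hev
        rw [if_neg hev, if_pos hevK]
        ring)
  refine ⟨max T0 1, ?_⟩
  intro T hT Q hQ
  have h := hT0 T (le_of_max_le_left hT) (C (Cint p 0 Q)) (PBT p Q) (by
    intro i hi
    have hr := rN_dvd p hp2 i T Q (le_of_max_le_right hT) hQ
    have hr2 := dvd_neg.mpr hr
    rw [neg_sub] at hr2
    exact hr2)
  rw [ν2z_eq, μ2z_eq, eval_PBT, eval_C, ← P_zero] at h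
  have h2 := clean p 0 (2*r) _ _ _ (prodμ2_ne p M) h (ratio2 p hp2 m M r hr hm hM)
  refine le_trans (le_of_eq ?_) (h2.trans (le_of_eq ?_))
  · congr 1
    unfold Bsum Csum
    simp only [eval_one]
    push_cast
    ring
  · congr 1
    push_cast
    ring

end Pool.Agent.NineA
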