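import Pool.Agent.NineA.Arith

set_option autoImplicit false
set_option linter.unusedSectionVars false
set_option linter.unusedVariables false

open Finset

namespace Pool.Agent.NineA

/-- `(1/2)_k / k!` -/
def be (k : ℕ) : ℚ := ∏ j ∈ range k, ((2*(j:ℚ)+1)/(2*(j:ℚ)+2))

lemma be_zero : be 0 = 1 := by simp [be]
lemma be_succ (k : ℕ) : be (k+1) = be k * ((2*(k:ℚ)+1)/(2*(k:ℚ)+2)) := by
  unfold be; rw [prod_range_succ]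

section B

def tB (w x : ℚ) (k : ℕ) : ℚ :=
  be k * ∏ j ∈ range k, (((2*(j:ℚ)+1)^2 - x^2)/((2*(j:ℚ)+2)^2 - w))

def vB (w x : ℚ) (k : ℕ) : ℚ :=
  be k * ∏ j ∈ range k, ((2*(j:ℚ)-3-x)*(2*(j:ℚ)+1+x)/((2*(j:ℚ)+2)^2 - w))

lemma tB_zero (w x : ℚ) : tB w x 0 = 1 := by simp [tB, be_zero]
lemma vB_zero (w x : ℚ) : vB w x 0 = 1 := by simp [vB, be_zero]

lemma tB_succ (w x : ℚ) (k : ℕ) : tB w x (k+1)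
    = tB w x k * ((2*(k:ℚ)+1)/(2*(k:ℚ)+2)) * (((2*(k:ℚ)+1)^2 - x^2)/((2*(k:ℚ)+2)^2 - w)) := by
  unfold tB; rw [prod_range_succ, be_succ]; ring

lemma vB_succ (w x : ℚ) (k : ℕ) : vB w x (k+1)
    = vB w x k * ((2*(k:ℚ)+1)/(2*(k:ℚ)+2)) *
      ((2*(k:ℚ)-3-x)*(2*(k:ℚ)+1+x)/((2*(k:ℚ)+2)^2 - w)) := by
  unfold vB; rw [prod_range_succ, be_succ]; ring

lemma tB_rel1 (w x : ℚ) (k : ℕ) :
    (x+1)*(x+3)*tB w x k = vB w x k * (2*(k:ℚ)-3-x)*(2*(k:ℚ)-1-x) := by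
  induction k with
  | zero => rw [tB_zero, vB_zero]; push_cast; ring
  | succ k ih =>
    rw [tB_succ, vB_succ]
    push_cast
    linear_combination (((2*(k:ℚ)+1)/(2*(k:ℚ)+2)) * (((2*(k:ℚ)+1)^2 - x^2)/((2*(k:ℚ)+2)^2 - w))) * ih

lemma tB_rel2 (w x : ℚ) (k : ℕ) :
    (x+1)*(x+3)*tB w (x+4) k = vB w x k * (2*(k:ℚ)+1+x)*(2*(k:ℚ)+3+x) := by
  induction k with
  | zero => rw [tB_zero, vB_zero]; push_cast; ring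
  | succ k ih =>
    rw [tB_succ, vB_succ]
    push_cast
    linear_combination (((2*(k:ℚ)+1)/(2*(k:ℚ)+2)) *
      (((2*(k:ℚ)+1)^2 - (x+4)^2)/((2*(k:ℚ)+2)^2 - w))) * ih

lemma vB_rel (w x : ℚ) (hw : ∀ j : ℕ, (2*(j:ℚ)+2)^2 - w ≠ 0) (k : ℕ) :
    vB w x (k+1) * (2*(k:ℚ)+2) * ((2*(k:ℚ)+2)^2 - w)
      = vB w x k * (2*(k:ℚ)+1) * (2*(k:ℚ)-3-x)*(2*(k:ℚ)+1+x) := by
  rw [vB_succ]
  have h1 := hw k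
  have h2 : (2*(k:ℚ)+2) ≠ 0 := by positivity
  have g1 := div_mul_cancel₀ (2*(k:ℚ)+1) h2
  have g2 := div_mul_cancel₀ ((2*(k:ℚ)-3-x)*(2*(k:ℚ)+1+x)) h1
  generalize (2*(k:ℚ)+1)/(2*(k:ℚ)+2) = G1 at *
  generalize (2*(k:ℚ)-3-x)*(2*(k:ℚ)+1+x)/((2*(k:ℚ)+2)^2 - w) = G2 at *
  linear_combination vB w x k * G2 * ((2*(k:ℚ)+2)^2 - w) * g1 + vB w x k * (2*(k:ℚ)+1) * g2

lemma partB (w x : ℚ) (hw : ∀ j : ℕ, (2*(j:ℚ)+2)^2 - w ≠ 0) (K : ℕ) :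
    (x+1)*(x+3)*(((x+3)^2-w) * ∑ k ∈ range (K+1), tB w (x+4) k
        - ((x+1)^2-w) * ∑ k ∈ range (K+1), tB w x k)
      = -4*(x+2)*(2*(K:ℚ)+1)*(2*(K:ℚ)-3-x)*(2*(K:ℚ)+1+x) * vB w x K := by
  induction K with
  | zero =>
    simp only [zero_add, range_one, sum_singleton, tB_zero, vB_zero]
    push_cast; ring
  | succ K ih =>
    rw [sum_range_succ, sum_range_succ _ (K+1)]
    have h1 := tB_rel1 w x (K+1)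
    have h2 := tB_rel2 w x (K+1)
    have h3 := vB_rel w x hw K
    push_cast at h1 h2 ⊢
    linear_combination ih + ((x+3)^2-w) * h2 - ((x+1)^2-w) * h1 + 4*(x+2) * h3

lemma tB_nat_zero (w : ℚ) (i k : ℕ) (h : i < k) : tB w (2*(i:ℚ)+1) k = 0 := by
  unfold tB
  have : ∏ j ∈ range k, (((2*(j:ℚ)+1)^2 - (2*(i:ℚ)+1)^2)/((2*(j:ℚ)+2)^2 - w)) = 0 := by
    apply prod_eq_zero (i := i) (by simpa using h)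
    simp
  rw [this, mul_zero]

def SB (w : ℚ) (i K : ℕ) : ℚ := ∑ k ∈ range (K+1), tB w (2*(i:ℚ)+1) k

lemma SB_trunc (w : ℚ) (i K : ℕ) (h : i ≤ K) : SB w i K = SB w i i := by
  unfold SB
  symm
  apply sum_subset (range_subset_range.mpr (by omega))
  intro k _ hk
  exact tB_nat_zero w i k (by simp at hk; omega)

lemma SB_step (w : ℚ) (hw : ∀ j : ℕ, (2*(j:ℚ)+2)^2 - w ≠ 0) (i : ℕ) :
    ((2*(i:ℚ)+4)^2-w) * SB w (i+2) (i+2) = ((2*(i:ℚ)+2)^2-w) * SB w i i := by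
  have h := partB w (2*(i:ℚ)+1) hw (i+2)
  have e0 : (2*((i+2:ℕ):ℚ)-3-(2*(i:ℚ)+1)) = 0 := by push_cast; ring
  rw [e0] at h
  have e1 : ∑ k ∈ range (i+2+1), tB w (2*(i:ℚ)+1+4) k = SB w (i+2) (i+2) := by
    unfold SB; apply sum_congr rfl; intro k _; congr 1; push_cast; ring
  have e2 : ∑ k ∈ range (i+2+1), tB w (2*(i:ℚ)+1) k = SB w i i := by
    rw [← SB_trunc w i (i+2) (by omega)]; rfl
  rw [e1, e2] at h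
  have h1 : (2*(i:ℚ)+1+1)*(2*(i:ℚ)+1+3) ≠ 0 := by positivity
  have h2 : (2*(i:ℚ)+1+1)*(2*(i:ℚ)+1+3) * (((2*(i:ℚ)+4)^2-w) * SB w (i+2) (i+2)
      - ((2*(i:ℚ)+2)^2-w) * SB w i i) = 0 := by
    linear_combination h
  have h3 := (mul_eq_zero.mp h2).resolve_left h1
  linear_combination h3

lemma SB_zero (w : ℚ) : SB w 0 0 = 1 := by simp [SB, tB_zero]

lemma SB_even (w : ℚ) (hw : ∀ j : ℕ, (2*(j:ℚ)+2)^2 - w ≠ 0) (m : ℕ) :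
    SB w (2*m) (2*m) = ∏ j ∈ range m, (((4*(j:ℚ)+2)^2 - w)/((4*(j:ℚ)+4)^2 - w)) := by
  induction m with
  | zero => simp [SB_zero]
  | succ m ih =>
    rw [prod_range_succ, ← ih]
    have h := SB_step w hw (2*m)
    have hd : (4*(m:ℚ)+4)^2 - w ≠ 0 := by
      have := hw (2*m+1)
      push_cast at this
      convert this using 2
      ring
    rw [mul_div_assoc', eq_div_iff hd, show 2*(m+1) = 2*m+2 by ring]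
    push_cast at h
    linear_combination h

lemma SB_one_zero : SB 0 1 1 = 0 := by
  unfold SB
  rw [sum_range_succ, range_one, sum_singleton, tB_zero, tB_succ, tB_zero]
  norm_num

lemma SB_odd (m : ℕ) : SB 0 (2*m+1) (2*m+1) = 0 := by
  induction m with
  | zero => exact SB_one_zero
  | succ m ih =>
    have hw : ∀ j : ℕ, (2*(j:ℚ)+2)^2 - 0 ≠ 0 := by
      intro j; rw [sub_zero]; positivity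
    have h := SB_step 0 hw (2*m+1)
    rw [ih, mul_zero] at h
    have hd : (2*((2*m+1:ℕ):ℚ)+4)^2 - 0 ≠ 0 := by rw [sub_zero]; positivity
    have := (mul_eq_zero.mp h).resolve_left hd
    rw [show 2*(m+1)+1 = 2*m+1+2 by ring]
    exact this

end B

section Bp

/-- summand of the companion sum -/
def tC (x : ℚ) (k : ℕ) : ℚ := -(4*(k:ℚ)^2)/(2*(k:ℚ)-1) * tB 0 x k

lemma odd_ne (k : ℕ) : (2*(k:ℚ)-1) ≠ 0 := by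
  intro h
  have : (2*(k:ℤ)-1 : ℤ) = 0 := by exact_mod_cast h
  omega

lemma partC (x : ℚ) (K : ℕ) :
    (x+1)*(x+3)*((x+1)^2 * ∑ k ∈ range (K+1), tC (x+4) k
        - (x+3)^2 * ∑ k ∈ range (K+1), tC x k)
      = 16*(x+2)*(K:ℚ)^2*(2*(K:ℚ)-3-x)*(2*(K:ℚ)+1+x) * vB 0 x K := by
  have hw : ∀ j : ℕ, (2*(j:ℚ)+2)^2 - 0 ≠ 0 := by
    intro j; rw [sub_zero]; positivity
  induction K with
  | zero =>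
    simp only [zero_add, range_one, sum_singleton, tC]
    push_cast; ring
  | succ K ih =>
    rw [sum_range_succ, sum_range_succ _ (K+1)]
    have h1 := tB_rel1 0 x (K+1)
    have h2 := tB_rel2 0 x (K+1)
    have h3 := vB_rel 0 x hw K
    have ho := odd_ne (K+1)
    have h4 : tC (x+4) (K+1) * (2*((K+1:ℕ):ℚ)-1) = -(4*((K+1:ℕ):ℚ)^2) * tB 0 (x+4) (K+1) := by
      unfold tC; rw [mul_right_comm, div_mul_cancel₀ _ ho]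
    have h5 : tC x (K+1) * (2*((K+1:ℕ):ℚ)-1) = -(4*((K+1:ℕ):ℚ)^2) * tB 0 x (K+1) := by
      unfold tC; rw [mul_right_comm, div_mul_cancel₀ _ ho]
    apply mul_right_cancel₀ ho
    push_cast at h1 h2 h3 h4 h5 ⊢
    -- K^2 (2K+1) v(K) (..) = K^2 * v(K+1) (2K+2) (2K+2)^2
    linear_combination (2*((K:ℚ)+1)-1) * ih + (x+1)*(x+3)*(x+1)^2 * h4 - (x+1)*(x+3)*(x+3)^2 * h5
      - 4*((K:ℚ)+1)^2*(x+1)^2 * h2 + 4*((K:ℚ)+1)^2*(x+3)^2 * h1 - 16*(x+2)*(K:ℚ)^2 * h3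

def SC (i K : ℕ) : ℚ := ∑ k ∈ range (K+1), tC (2*(i:ℚ)+1) k

lemma SC_trunc (i K : ℕ) (h : i ≤ K) : SC i K = SC i i := by
  unfold SC
  symm
  apply sum_subset (range_subset_range.mpr (by omega))
  intro k _ hk
  unfold tC
  rw [tB_nat_zero 0 i k (by simp at hk; omega), mul_zero]

lemma SC_step (i : ℕ) :
    ((i:ℚ)+1)^2 * SC (i+2) (i+2) = ((i:ℚ)+2)^2 * SC i i := by
  have h := partC (2*(i:ℚ)+1) (i+2)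
  have e0 : (2*((i+2:ℕ):ℚ)-3-(2*(i:ℚ)+1)) = 0 := by push_cast; ring
  rw [e0] at h
  have e1 : ∑ k ∈ range (i+2+1), tC (2*(i:ℚ)+1+4) k = SC (i+2) (i+2) := by
    unfold SC; apply sum_congr rfl; intro k _; congr 1; push_cast; ring
  have e2 : ∑ k ∈ range (i+2+1), tC (2*(i:ℚ)+1) k = SC i i := by
    rw [← SC_trunc i (i+2) (by omega)]; rfl
  rw [e1, e2] at h
  have h1 : (2*(i:ℚ)+1+1)*(2*(i:ℚ)+1+3) ≠ 0 := by positivity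
  have h2 : (2*(i:ℚ)+1+1)*(2*(i:ℚ)+1+3) * (((i:ℚ)+1)^2 * SC (i+2) (i+2)
      - ((i:ℚ)+2)^2 * SC i i) = 0 := by
    linear_combination (1/4) * h
  have h3 := (mul_eq_zero.mp h2).resolve_left h1
  linear_combination h3

lemma SC_even (m : ℕ) : SC (2*m) (2*m) = 0 := by
  induction m with
  | zero => simp [SC, tC]
  | succ m ih =>
    have h := SC_step (2*m)
    rw [ih, mul_zero] at h
    have hd : (((2*m:ℕ):ℚ)+1)^2 ≠ 0 := by positivity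
    exact (mul_eq_zero.mp h).resolve_left hd

lemma SC_odd (m : ℕ) : SC (2*m+1) (2*m+1)
    = (∏ j ∈ range (m+1), (4*(j:ℚ)+2)^2) / ∏ j ∈ range m, (4*(j:ℚ)+4)^2 := by
  induction m with
  | zero =>
    simp only [SC, tC, mul_zero, zero_add, sum_range_succ, range_one, sum_singleton, tB_succ,
      tB_zero, prod_range_succ, range_zero, prod_empty, sum_range_zero]
    norm_num
  | succ m ih =>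
    have h := SC_step (2*m+1)
    rw [prod_range_succ (fun j : ℕ => (4*(j:ℚ)+2)^2) (m+1),
      prod_range_succ (fun j : ℕ => (4*(j:ℚ)+4)^2) m]
    have hp : ∏ j ∈ range m, (4*(j:ℚ)+4)^2 ≠ 0 := prod_ne_zero_iff.mpr (fun j _ => by positivity)
    rw [eq_div_iff hp] at ih
    have h4 : (4*(m:ℚ)+4)^2 ≠ 0 := by positivity
    rw [eq_div_iff (mul_ne_zero hp h4), show 2*(m+1)+1 = 2*m+1+2 by ring]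
    push_cast at h ⊢
    linear_combination 4 * (∏ j ∈ range m, (4*(j:ℚ)+4)^2) * h + (4*(m:ℚ)+6)^2 * ih

end Bp

section A

def cA (e : ℚ) (k : ℕ) : ℚ :=
  ∏ j ∈ range k, ((e+4*(j:ℚ))*(4-2*e+4*(j:ℚ))/((4*(j:ℚ)+4)*(3*e+4*(j:ℚ))))

lemma cA_zero (e : ℚ) : cA e 0 = 1 := by simp [cA]
lemma cA_succ (e : ℚ) (k : ℕ) : cA e (k+1)
    = cA e k * ((e+4*(k:ℚ))*(4-2*e+4*(k:ℚ))/((4*(k:ℚ)+4)*(3*e+4*(k:ℚ)))) := by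
  unfold cA; rw [prod_range_succ]

def tA (e Y x : ℚ) (k : ℕ) : ℚ :=
  (e+8*(k:ℚ)) * cA e k * ∏ j ∈ range k, ((((4*(j:ℚ)+e)^2 - x^2)*((4*(j:ℚ)+e)^2 - Y))
    /(((4*(j:ℚ)+4)^2 - x^2)*((4*(j:ℚ)+4)^2 - Y)))

def vA (e Y x : ℚ) (k : ℕ) : ℚ :=
  cA e k * ∏ j ∈ range k, ((((e+4*(j:ℚ)-4-x)*(e+4*(j:ℚ)+x))*((4*(j:ℚ)+e)^2 - Y))
    /(((4*(j:ℚ)+4-x)*(4*(j:ℚ)+4+x))*((4*(j:ℚ)+4)^2 - Y)))

def rA (e Y x : ℚ) (k : ℕ) : ℚ :=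
  cA e k * ∏ j ∈ range k, ((((4*(j:ℚ)+e)^2 - x^2)*((4*(j:ℚ)+e)^2 - Y))
    /(((4*(j:ℚ)+4)^2 - x^2)*((4*(j:ℚ)+4)^2 - Y)))

lemma tA_eq (e Y x : ℚ) (k : ℕ) : tA e Y x k = (e+8*(k:ℚ)) * rA e Y x k := by
  unfold tA rA; ring

lemma rA_rel1 (e Y x : ℚ) (hx1 : ∀ j : ℕ, 4*(j:ℚ)+4-x ≠ 0) (hx2 : ∀ j : ℕ, 4*(j:ℚ)+4+x ≠ 0)
    (k : ℕ) :
    rA e Y x k * (e-4-x) = vA e Y x k * (e+4*(k:ℚ)-4-x) := by
  induction k with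
  | zero => simp [rA, vA]
  | succ k ih =>
    have e1 : rA e Y x (k+1) = rA e Y x k *
      ((e+4*(k:ℚ))*(4-2*e+4*(k:ℚ))/((4*(k:ℚ)+4)*(3*e+4*(k:ℚ)))) *
      ((((4*(k:ℚ)+e)^2 - x^2)*((4*(k:ℚ)+e)^2 - Y))
        /(((4*(k:ℚ)+4)^2 - x^2)*((4*(k:ℚ)+4)^2 - Y))) := by
      unfold rA; rw [prod_range_succ, cA_succ]; ring
    have e2 : vA e Y x (k+1) = vA e Y x k *
      ((e+4*(k:ℚ))*(4-2*e+4*(k:ℚ))/((4*(k:ℚ)+4)*(3*e+4*(k:ℚ)))) *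
      ((((e+4*(k:ℚ)-4-x)*(e+4*(k:ℚ)+x))*((4*(k:ℚ)+e)^2 - Y))
    /(((4*(k:ℚ)+4-x)*(4*(k:ℚ)+4+x))*((4*(k:ℚ)+4)^2 - Y))) := by
      unfold vA; rw [prod_range_succ, cA_succ]; ring
    have e3 : ((4*(k:ℚ)+4)^2 - x^2) = (4*(k:ℚ)+4-x)*(4*(k:ℚ)+4+x) := by ring
    rw [e1, e2, e3]
    push_cast
    linear_combination (((e+4*(k:ℚ))*(4-2*e+4*(k:ℚ))/((4*(k:ℚ)+4)*(3*e+4*(k:ℚ)))) *
      ((((4*(k:ℚ)+e)^2 - x^2)*((4*(k:ℚ)+e)^2 - Y))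
        /(((4*(k:ℚ)+4-x)*(4*(k:ℚ)+4+x))*((4*(k:ℚ)+4)^2 - Y)))) * ih

lemma rA_rel2 (e Y x : ℚ) (hx1 : ∀ j : ℕ, 4*(j:ℚ)+4-x ≠ 0) (hx2 : ∀ j : ℕ, 4*(j:ℚ)+4+x ≠ 0)
    (hx0 : x ≠ 0) (k : ℕ) :
    rA e Y (x+4) k * ((e+x)*(-x)*(4*(k:ℚ)+4+x))
      = vA e Y x k * ((e+4*(k:ℚ)+x)*(4*(k:ℚ)-x)*(4+x)) := by
  induction k with
  | zero =>
    simp only [rA, vA, cA, range_zero, prod_empty]
    push_cast; ring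
  | succ k ih =>
    have e1 : rA e Y (x+4) (k+1) = rA e Y (x+4) k *
      ((e+4*(k:ℚ))*(4-2*e+4*(k:ℚ))/((4*(k:ℚ)+4)*(3*e+4*(k:ℚ)))) *
      ((((4*(k:ℚ)+e)^2 - (x+4)^2)*((4*(k:ℚ)+e)^2 - Y))
        /(((4*(k:ℚ)+4)^2 - (x+4)^2)*((4*(k:ℚ)+4)^2 - Y))) := by
      unfold rA; rw [prod_range_succ, cA_succ]; ring
    have e2 : vA e Y x (k+1) = vA e Y x k *
      ((e+4*(k:ℚ))*(4-2*e+4*(k:ℚ))/((4*(k:ℚ)+4)*(3*e+4*(k:ℚ)))) *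
      ((((e+4*(k:ℚ)-4-x)*(e+4*(k:ℚ)+x))*((4*(k:ℚ)+e)^2 - Y))
    /(((4*(k:ℚ)+4-x)*(4*(k:ℚ)+4+x))*((4*(k:ℚ)+4)^2 - Y))) := by
      unfold vA; rw [prod_range_succ, cA_succ]; ring
    have a1 : (4*(k:ℚ)-x) ≠ 0 := by
      rcases k with _ | k
      · simp; exact hx0
      · have := hx1 k
        push_cast
        intro h; apply this; linear_combination h
    have a2 := hx1 k
    have a3 := hx2 k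
    have a4 : (4*(k:ℚ)+8+x) ≠ 0 := by
      have := hx2 (k+1)
      push_cast at this
      intro h; apply this; linear_combination h
    rw [e1, e2]
    -- cancel
    generalize hC : ((e+4*(k:ℚ))*(4-2*e+4*(k:ℚ))/((4*(k:ℚ)+4)*(3*e+4*(k:ℚ)))) = C0
    have f1 : (((4*(k:ℚ)+e)^2 - (x+4)^2)*((4*(k:ℚ)+e)^2 - Y))
        /(((4*(k:ℚ)+4)^2 - (x+4)^2)*((4*(k:ℚ)+4)^2 - Y))
        = (((e+4*(k:ℚ)-4-x)*(e+4*(k:ℚ)+4+x))/((4*(k:ℚ)-x)*(4*(k:ℚ)+8+x)))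
          * (((4*(k:ℚ)+e)^2 - Y)/((4*(k:ℚ)+4)^2 - Y)) := by
      rw [div_mul_div_comm]
      congr 1
      · ring
      · ring
    have f2 : (((e+4*(k:ℚ)-4-x)*(e+4*(k:ℚ)+x))*((4*(k:ℚ)+e)^2 - Y))
        /(((4*(k:ℚ)+4-x)*(4*(k:ℚ)+4+x))*((4*(k:ℚ)+4)^2 - Y))
        = (((e+4*(k:ℚ)-4-x)*(e+4*(k:ℚ)+x))/((4*(k:ℚ)+4-x)*(4*(k:ℚ)+4+x)))
          * (((4*(k:ℚ)+e)^2 - Y)/((4*(k:ℚ)+4)^2 - Y)) := by
      rw [div_mul_div_comm]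
    rw [f1, f2]
    generalize hY : ((4*(k:ℚ)+e)^2 - Y)/((4*(k:ℚ)+4)^2 - Y) = YY
    have g1 : ((e+4*(k:ℚ)-4-x)*(e+4*(k:ℚ)+4+x))/((4*(k:ℚ)-x)*(4*(k:ℚ)+8+x))
        * ((4*(k:ℚ)-x)*(4*(k:ℚ)+8+x)) = (e+4*(k:ℚ)-4-x)*(e+4*(k:ℚ)+4+x) :=
      div_mul_cancel₀ _ (mul_ne_zero a1 a4)
    have g2 : ((e+4*(k:ℚ)-4-x)*(e+4*(k:ℚ)+x))/((4*(k:ℚ)+4-x)*(4*(k:ℚ)+4+x))
        * ((4*(k:ℚ)+4-x)*(4*(k:ℚ)+4+x)) = (e+4*(k:ℚ)-4-x)*(e+4*(k:ℚ)+x) :=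
      div_mul_cancel₀ _ (mul_ne_zero a2 a3)
    generalize ((e+4*(k:ℚ)-4-x)*(e+4*(k:ℚ)+4+x))/((4*(k:ℚ)-x)*(4*(k:ℚ)+8+x)) = G1 at *
    generalize ((e+4*(k:ℚ)-4-x)*(e+4*(k:ℚ)+x))/((4*(k:ℚ)+4-x)*(4*(k:ℚ)+4+x)) = G2 at *
    apply mul_right_cancel₀ (mul_ne_zero a1 a3)
    push_cast
    have g1' : G1 * ((4*(k:ℚ)-x)*(4*((k:ℚ)+1)+4+x)) = (e+4*(k:ℚ)-4-x)*(e+4*(k:ℚ)+4+x) := by
      linear_combination g1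
    calc rA e Y (x+4) k * C0 * (G1*YY) * ((e+x)*(-x)*(4*((k:ℚ)+1)+4+x))
          * ((4*(k:ℚ)-x)*(4*(k:ℚ)+4+x))
        = (rA e Y (x+4) k * ((e+x)*(-x)*(4*(k:ℚ)+4+x))) * C0 * YY
          * (G1 * ((4*(k:ℚ)-x)*(4*((k:ℚ)+1)+4+x))) := by ring
      _ = (vA e Y x k * ((e+4*(k:ℚ)+x)*(4*(k:ℚ)-x)*(4+x))) * C0 * YY
          * ((e+4*(k:ℚ)-4-x)*(e+4*(k:ℚ)+4+x)) := by rw [ih, g1']
      _ = vA e Y x k * C0 * ((4*(k:ℚ)-x)*(4+x)) * YY * (e+4*(k:ℚ)+4+x)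
          * (G2 * ((4*(k:ℚ)+4-x)*(4*(k:ℚ)+4+x))) := by rw [g2]; ring
      _ = _ := by ring

lemma vA_rel (e Y x : ℚ) (hx1 : ∀ j : ℕ, 4*(j:ℚ)+4-x ≠ 0) (hx2 : ∀ j : ℕ, 4*(j:ℚ)+4+x ≠ 0)
    (hY : ∀ j : ℕ, (4*(j:ℚ)+4)^2 - Y ≠ 0) (he3 : ∀ j : ℕ, 3*e+4*(j:ℚ) ≠ 0) (k : ℕ) :
    vA e Y x (k+1) * ((4*(k:ℚ)+4)*(3*e+4*(k:ℚ))) * ((4*(k:ℚ)+4-x)*(4*(k:ℚ)+4+x))
        * ((4*(k:ℚ)+4)^2 - Y)
      = vA e Y x k * ((e+4*(k:ℚ))*(4-2*e+4*(k:ℚ))) * ((e+4*(k:ℚ)-4-x)*(e+4*(k:ℚ)+x))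
        * ((4*(k:ℚ)+e)^2 - Y) := by
  have e2 : vA e Y x (k+1) = vA e Y x k *
      ((e+4*(k:ℚ))*(4-2*e+4*(k:ℚ))/((4*(k:ℚ)+4)*(3*e+4*(k:ℚ)))) *
      ((((e+4*(k:ℚ)-4-x)*(e+4*(k:ℚ)+x))*((4*(k:ℚ)+e)^2 - Y))
    /(((4*(k:ℚ)+4-x)*(4*(k:ℚ)+4+x))*((4*(k:ℚ)+4)^2 - Y))) := by
      unfold vA; rw [prod_range_succ, cA_succ]; ring
  rw [e2]
  have h1 : (4*(k:ℚ)+4)*(3*e+4*(k:ℚ)) ≠ 0 := mul_ne_zero (by positivity) (he3 k)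
  have h2 : ((4*(k:ℚ)+4-x)*(4*(k:ℚ)+4+x))*((4*(k:ℚ)+4)^2 - Y) ≠ 0 :=
    mul_ne_zero (mul_ne_zero (hx1 k) (hx2 k)) (hY k)
  have g1 := div_mul_cancel₀ ((e+4*(k:ℚ))*(4-2*e+4*(k:ℚ))) h1
  have g2 := div_mul_cancel₀ (((e+4*(k:ℚ)-4-x)*(e+4*(k:ℚ)+x))*((4*(k:ℚ)+e)^2 - Y)) h2
  generalize (e+4*(k:ℚ))*(4-2*e+4*(k:ℚ))/((4*(k:ℚ)+4)*(3*e+4*(k:ℚ))) = G1 at *
  generalize (((e+4*(k:ℚ)-4-x)*(e+4*(k:ℚ)+x))*((4*(k:ℚ)+e)^2 - Y))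
    /(((4*(k:ℚ)+4-x)*(4*(k:ℚ)+4+x))*((4*(k:ℚ)+4)^2 - Y)) = G2 at *
  calc vA e Y x k * G1 * G2 * ((4*(k:ℚ)+4)*(3*e+4*(k:ℚ))) * ((4*(k:ℚ)+4-x)*(4*(k:ℚ)+4+x))
        * ((4*(k:ℚ)+4)^2 - Y)
      = vA e Y x k * (G1 * ((4*(k:ℚ)+4)*(3*e+4*(k:ℚ)))) *
        (G2 * (((4*(k:ℚ)+4-x)*(4*(k:ℚ)+4+x))*((4*(k:ℚ)+4)^2 - Y))) := by ring
    _ = _ := by rw [g1, g2]; ring

/-- polynomial identity behind the telescoping -/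
lemma core_id (e x k Y : ℚ) :
    -(2*e+x)*((x-e+4)^2-Y)*(e+8*k)*(e+4*k+x)*(4*k-x)*(e-4-x)
      -(x+4-2*e)*((x+e)^2-Y)*(e+4*k-4-x)*(e+8*k)*(e+x)*(4*k+4+x)
    = -2*(x+2)*(e+4*k)*(4-2*e+4*k)*(e+4*k-4-x)*(e+4*k+x)*((4*k+e)^2-Y)
      +8*(x+2)*k*(3*e+4*k-4)*(16*k^2-Y)*(4*k-x)*(4*k+4+x) := by ring

lemma partA (e Y x : ℚ) (hx1 : ∀ j : ℕ, 4*(j:ℚ)+4-x ≠ 0) (hx2 : ∀ j : ℕ, 4*(j:ℚ)+4+x ≠ 0)
    (hx0 : x ≠ 0)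
    (hY : ∀ j : ℕ, (4*(j:ℚ)+4)^2 - Y ≠ 0) (he3 : ∀ j : ℕ, 3*e+4*(j:ℚ) ≠ 0) (K : ℕ) :
    ((2*e+x)*x*((x-e+4)^2-Y) * ∑ k ∈ range (K+1), tA e Y (x+4) k
      - (x+4)*(x+4-2*e)*((x+e)^2-Y) * ∑ k ∈ range (K+1), tA e Y x k)
        * ((4*(K:ℚ)+4+x)*(e+x)*(e-4-x))
      = -2*(x+2)*(x+4)*(e+4*(K:ℚ))*(4-2*e+4*(K:ℚ))*(e+4*(K:ℚ)-4-x)*(e+4*(K:ℚ)+x)
        *((4*(K:ℚ)+e)^2-Y) * vA e Y x K := by
  -- one-term identity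
  have hterm : ∀ k : ℕ, ((2*e+x)*x*((x-e+4)^2-Y) * tA e Y (x+4) k
      - (x+4)*(x+4-2*e)*((x+e)^2-Y) * tA e Y x k) * ((4*(k:ℚ)+4+x)*(e+x)*(e-4-x))
      = (x+4) * vA e Y x k * (-2*(x+2)*(e+4*k)*(4-2*e+4*k)*(e+4*k-4-x)*(e+4*k+x)*((4*k+e)^2-Y)
      +8*(x+2)*k*(3*e+4*k-4)*(16*k^2-Y)*(4*k-x)*(4*k+4+x)) := by
    intro k
    rw [tA_eq, tA_eq]
    have h1 := rA_rel1 e Y x hx1 hx2 k
    have h2 := rA_rel2 e Y x hx1 hx2 hx0 k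
    have hc := core_id e x k Y
    linear_combination (-(2*e+x)*((x-e+4)^2-Y)*(e+8*(k:ℚ))*(e-4-x)) * h2
      - ((x+4)*(x+4-2*e)*((x+e)^2-Y)*(e+8*(k:ℚ))*(4*(k:ℚ)+4+x)*(e+x)) * h1
      + (x+4) * vA e Y x k * hc
  induction K with
  | zero =>
    have h := hterm 0
    simp only [zero_add, range_one, sum_singleton]
    push_cast at h ⊢
    linear_combination h
  | succ K ih =>
    rw [sum_range_succ, sum_range_succ _ (K+1)]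
    have h := hterm (K+1)
    have h3 := vA_rel e Y x hx1 hx2 hY he3 K
    have a1 := hx2 K
    have a2 := hx1 K
    -- multiply by (4K+4+x)
    apply mul_right_cancel₀ a1
    push_cast at h h3 ih ⊢
    linear_combination (4*((K:ℚ)+1)+4+x) * ih + (4*(K:ℚ)+4+x) * h
      + 2*(x+2)*(x+4)*(4*((K:ℚ)+1)+4+x) * h3

end A

end Pool.Agent.NineA
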