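import Pool.Agent.NineA.Step

set_option autoImplicit false
set_option linter.unusedSectionVars false
set_option linter.unusedVariables false

open Finset

namespace Pool.Agent.NineA

variable (p : ℕ) [hp : Fact p.Prime]

lemma asc_norm (k : ℕ) (x : ℤ_[p]) :
    ‖∏ j ∈ range k, (x + (j : ℤ_[p]))‖ ≤ ‖((k.factorial : ℕ) : ℤ_[p])‖ := by
  refine PadicInt.denseRange_natCast.induction_on x ?_ ?_
  · apply isClosed_le _ continuous_const
    apply Continuous.norm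
    apply continuous_finsetProd
    intro j _
    exact continuous_id.add continuous_const
  · intro n
    have h1 : ∏ j ∈ range k, ((n : ℤ_[p]) + (j : ℤ_[p])) = ((n.ascFactorial k : ℕ) : ℤ_[p]) := by
      rw [Nat.ascFactorial_eq_prod_range]
      push_cast
      rfl
    obtain ⟨c, hc⟩ := Nat.factorial_dvd_ascFactorial n k
    rw [h1, hc]
    push_cast
    rw [norm_mul]
    calc ‖((k.factorial : ℕ) : ℤ_[p])‖ * ‖(c : ℤ_[p])‖ ≤ ‖((k.factorial : ℕ) : ℤ_[p])‖ * 1 :=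
          mul_le_mul_of_nonneg_left (PadicInt.norm_le_one _) (norm_nonneg _)
      _ = _ := mul_one _

lemma norm_unit (z : ℤ) (hz : ¬ (p:ℤ) ∣ z) : ‖((z : ℤ) : ℚ_[p])‖ = 1 := by
  apply le_antisymm (Padic.norm_int_le_one z)
  by_contra hlt
  push Not at hlt
  exact hz (Padic.norm_intCast_lt_one_iff.mp hlt)

lemma norm_two (hp2 : p ≠ 2) : ‖(2 : ℚ_[p])‖ = 1 := by
  have h := norm_unit p 2 (by
    intro h
    have h' : p ∣ 2 := by exact_mod_cast h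
    exact hp2 ((Nat.prime_dvd_prime_iff_eq hp.out Nat.prime_two).mp h'))
  exact_mod_cast h

lemma norm_four (hp2 : p ≠ 2) : ‖(4 : ℚ_[p])‖ = 1 := by
  have : (4 : ℚ_[p]) = 2 * 2 := by norm_num
  rw [this, norm_mul, norm_two p hp2, mul_one]

lemma quarter (hp2 : p ≠ 2) (e : ℤ) : ∃ x : ℤ_[p], (x : ℚ_[p]) = (e : ℚ_[p]) / 4 := by
  refine ⟨⟨(e : ℚ_[p]) / 4, ?_⟩, rfl⟩
  rw [norm_div, norm_four p hp2, div_one]
  exact Padic.norm_int_le_one e

/-- products of an arithmetic progression of step 4 -/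
lemma ap_norm (hp2 : p ≠ 2) (e : ℤ) (k : ℕ) :
    ‖∏ j ∈ range k, ((e : ℚ_[p]) + 4 * (j : ℚ_[p]))‖ ≤ ‖((k.factorial : ℕ) : ℚ_[p])‖ := by
  obtain ⟨x, hx⟩ := quarter p hp2 e
  have h := asc_norm p k x
  have h1 : ∏ j ∈ range k, ((e : ℚ_[p]) + 4 * (j : ℚ_[p]))
      = 4^k * ((∏ j ∈ range k, (x + (j : ℤ_[p])) : ℤ_[p]) : ℚ_[p]) := by
    rw [coe_prodZ]
    have : (4:ℚ_[p])^k = ∏ _j ∈ range k, (4:ℚ_[p]) := by simp
    rw [this, ← prod_mul_distrib]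
    apply prod_congr rfl
    intro j _
    push_cast
    rw [hx]
    ring
  rw [h1, norm_mul, norm_pow, norm_four p hp2, one_pow, one_mul, ← PadicInt.norm_def]
  refine h.trans (le_of_eq ?_)
  rw [PadicInt.norm_def]
  push_cast
  rfl

/-- partial fractions bound -/
lemma inv_bound (B : ℝ) (k : ℕ) : ∀ e : ℤ, (∀ j : ℕ, j ≤ k → (e : ℤ) + 4 * j ≠ 0) →
    (∀ j : ℕ, j ≤ k → ‖((e : ℚ_[p]) + 4 * (j : ℚ_[p]))⁻¹‖ ≤ B) →
    ‖4^k * ((k.factorial : ℕ) : ℚ_[p]) / ∏ j ∈ range (k+1), ((e : ℚ_[p]) + 4 * (j : ℚ_[p]))‖ ≤ B := by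
  induction k with
  | zero =>
    intro e _ h
    have := h 0 (le_refl 0)
    simpa using this
  | succ k ih =>
    intro e h0 hB
    have h1 := ih e (fun j hj => h0 j (by omega)) (fun j hj => hB j (by omega))
    have h2 := ih (e+4) (fun j hj => by
      have := h0 (j+1) (by omega)
      push_cast at this
      intro h; apply this; linear_combination h) (fun j hj => by
      have := hB (j+1) (by omega)
      push_cast at this ⊢
      have e1 : (e : ℚ_[p]) + 4 + 4 * (j : ℚ_[p]) = (e : ℚ_[p]) + 4 * ((j : ℚ_[p]) + 1) := by ring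
      rw [e1]; exact this)
    set P := ∏ j ∈ range (k+1), ((e : ℚ_[p]) + 4 * (j : ℚ_[p])) with hP
    set P' := ∏ j ∈ range (k+1), (((e+4 : ℤ) : ℚ_[p]) + 4 * (j : ℚ_[p])) with hP'
    have hne : ∀ j : ℕ, j ≤ k+1 → ((e : ℚ_[p]) + 4 * (j : ℚ_[p])) ≠ 0 := by
      intro j hj h
      apply h0 j hj
      exact_mod_cast h
    have hPne : P ≠ 0 := prod_ne_zero_iff.mpr (fun j hj => hne j (by simp at hj; omega))
    have hP'ne : P' ≠ 0 := by
      rw [hP']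
      apply prod_ne_zero_iff.mpr
      intro j hj
      have := hne (j+1) (by simp at hj; omega)
      push_cast at this ⊢
      intro h; apply this; linear_combination h
    have f1 : ∏ j ∈ range (k+1+1), ((e : ℚ_[p]) + 4 * (j : ℚ_[p]))
        = P * ((e : ℚ_[p]) + 4 * ((k+1:ℕ) : ℚ_[p])) := by
      rw [prod_range_succ]
    have f2 : ∏ j ∈ range (k+1+1), ((e : ℚ_[p]) + 4 * (j : ℚ_[p]))
        = P' * (e : ℚ_[p]) := by
      rw [prod_range_succ']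
      congr 1
      · rw [hP']
        apply prod_congr rfl
        intro j _
        push_cast; ring
      · simp
    have he : (e : ℚ_[p]) ≠ 0 := by
      have := hne 0 (by omega)
      simpa using this
    have hek := hne (k+1) (le_refl _)
    have key : 4^(k+1) * (((k+1).factorial : ℕ) : ℚ_[p]) /
        ∏ j ∈ range (k+1+1), ((e : ℚ_[p]) + 4 * (j : ℚ_[p]))
        = 4^k * ((k.factorial : ℕ) : ℚ_[p]) / P - 4^k * ((k.factorial : ℕ) : ℚ_[p]) / P' := by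
      have g1 : 4^k * ((k.factorial : ℕ) : ℚ_[p]) / P
          = 4^k * ((k.factorial : ℕ) : ℚ_[p]) * ((e : ℚ_[p]) + 4 * ((k+1:ℕ) : ℚ_[p])) /
            ∏ j ∈ range (k+1+1), ((e : ℚ_[p]) + 4 * (j : ℚ_[p])) := by
        rw [f1, mul_div_mul_right _ _ hek]
      have g2 : 4^k * ((k.factorial : ℕ) : ℚ_[p]) / P'
          = 4^k * ((k.factorial : ℕ) : ℚ_[p]) * (e : ℚ_[p]) /
            ∏ j ∈ range (k+1+1), ((e : ℚ_[p]) + 4 * (j : ℚ_[p])) := by
        rw [f2, mul_div_mul_right _ _ he]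
      rw [g1, g2, ← sub_div]
      congr 1
      rw [Nat.factorial_succ]
      push_cast
      ring
    rw [key]
    have := Padic.nonarchimedean (4^k * ((k.factorial : ℕ) : ℚ_[p]) / P)
      (-(4^k * ((k.factorial : ℕ) : ℚ_[p]) / P'))
    rw [← sub_eq_add_neg, norm_neg] at this
    exact this.trans (max_le h1 h2)

lemma inv_nat_bound (n I : ℕ) (hn : 0 < n) (hlt : n < p^(I+1)) :
    ‖((n : ℚ_[p]))⁻¹‖ ≤ (p:ℝ)^I := by
  have hp0 : (0:ℝ) < p := by exact_mod_cast hp.out.pos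
  have hnn : (n : ℚ_[p]) ≠ 0 := by exact_mod_cast hn.ne'
  rw [norm_inv]
  have hpos : 0 < ‖(n : ℚ_[p])‖ := norm_pos_iff.mpr hnn
  rw [inv_le_comm₀ hpos (by positivity)]
  by_contra h
  push Not at h
  have h2 : ‖(n : ℚ_[p])‖ < (p:ℝ)^(-(I:ℤ)) := by
    rw [zpow_neg, zpow_natCast]; exact h
  rw [Padic.norm_lt_pow_iff_norm_le_pow_sub_one] at h2
  have h3 : ‖((n:ℤ) : ℚ_[p])‖ ≤ (p:ℝ)^(-((I+1:ℕ):ℤ)) := by
    have e : (-(I:ℤ) - 1) = -((I+1:ℕ):ℤ) := by push_cast; ring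
    rw [← e]
    exact_mod_cast h2
  rw [Padic.norm_int_le_pow_iff_dvd] at h3
  have h4 : p^(I+1) ∣ n := by exact_mod_cast h3
  have := Nat.le_of_dvd hn h4
  omega

lemma fac_ne (k : ℕ) : ((k.factorial : ℕ) : ℚ_[p]) ≠ 0 := by
  exact_mod_cast Nat.factorial_ne_zero k

lemma prod44 (k : ℕ) : ∏ j ∈ range k, (4 * (j : ℚ_[p]) + 4) = 4^k * ((k.factorial : ℕ) : ℚ_[p]) := by
  induction k with
  | zero => simp
  | succ k ih => rw [prod_range_succ, ih, Nat.factorial_succ]; push_cast; ring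

lemma norm44 (hp2 : p ≠ 2) (k : ℕ) : ‖∏ j ∈ range k, (4 * (j : ℚ_[p]) + 4)‖
    = ‖((k.factorial : ℕ) : ℚ_[p])‖ := by
  rw [prod44, norm_mul, norm_pow, norm_four p hp2, one_pow, one_mul]

/-- `(2+4j)/(4+4j)` products -/
lemma be_norm (hp2 : p ≠ 2) (k : ℕ) : ‖((be k : ℚ) : ℚ_[p])‖ ≤ 1 := by
  have h1 : ((be k : ℚ) : ℚ_[p]) = (∏ j ∈ range k, (((2:ℤ) : ℚ_[p]) + 4 * (j : ℚ_[p])))
      / ∏ j ∈ range k, (4 * (j : ℚ_[p]) + 4) := by
    unfold be
    push_cast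
    rw [← prod_div_distrib]
    apply prod_congr rfl
    intro j _
    have e1 : (2:ℚ_[p]) + 4 * j = 2 * (2*j+1) := by ring
    have e2 : 4 * (j:ℚ_[p]) + 4 = 2 * (2*j+2) := by ring
    rw [e1, e2, mul_div_mul_left _ _ (by norm_num : (2:ℚ_[p]) ≠ 0)]
  rw [h1, norm_div, norm44 p hp2]
  apply div_le_one_of_le₀ (ap_norm p hp2 2 k) (norm_nonneg _)

lemma aC_eq (k : ℕ) : aC (k+1) = -(2*((k:ℚ)+1)) * be k := by
  unfold aC
  rw [be_succ]
  have h1 : (2*((k+1:ℕ):ℚ)-1) ≠ 0 := odd_ne (k+1)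
  have h2 : (2*(k:ℚ)+2) ≠ 0 := by positivity
  have h3 : (2*((k+1:ℕ):ℚ)-1) = 2*(k:ℚ)+1 := by push_cast; ring
  rw [h3] at h1 ⊢
  push_cast
  field_simp
  ring

lemma aC_norm (hp2 : p ≠ 2) (k : ℕ) : ‖((aC k : ℚ) : ℚ_[p])‖ ≤ 1 := by
  rcases k with _ | k
  · simp [aC]
  · rw [aC_eq]
    push_cast
    rw [norm_mul]
    have h1 : ‖-(2*((k:ℚ_[p])+1))‖ ≤ 1 := by
      have := Padic.norm_int_le_one (p := p) (-(2*((k:ℤ)+1)))
      push_cast at this
      exact this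
    have h2 := be_norm p hp2 k
    calc ‖-(2*((k:ℚ_[p])+1))‖ * ‖((be k : ℚ) : ℚ_[p])‖ ≤ 1 * 1 :=
          mul_le_mul h1 h2 (norm_nonneg _) (by norm_num)
      _ = 1 := one_mul 1

lemma cast_den_ne (e : ℕ) (he : 0 < e) (j : ℕ) : ((e : ℤ) : ℚ_[p]) + 4 * (j : ℚ_[p]) ≠ 0 := by
  have : ((e + 4*j : ℕ) : ℚ_[p]) ≠ 0 := by
    rw [Nat.cast_ne_zero]; omega
  push_cast at this ⊢
  exact this

/-- bound for the coefficients of `A` -/
lemma aA_norm (hp2 : p ≠ 2) (I k : ℕ) (h : 4*k < p^(I+1) ) :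
    ‖((aA k : ℚ) : ℚ_[p])‖ ≤ (p:ℝ)^I := by
  have hp1 : (1:ℝ) ≤ p := by exact_mod_cast hp.out.one_lt.le
  have h8 : ‖(1+8*(k:ℚ_[p]))‖ ≤ 1 := by
    have := Padic.norm_int_le_one (p := p) (1+8*(k:ℤ))
    push_cast at this
    exact this
  rcases k with _ | k
  · simp only [aA, cA_zero]
    push_cast
    rw [mul_one]
    exact h8.trans (one_le_pow₀ hp1)
  · -- decompose
    set q1 := ∏ j ∈ range (k+1), (((1:ℤ) : ℚ_[p]) + 4 * (j : ℚ_[p])) with hq1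
    set q2 := ∏ j ∈ range (k+1), (((2:ℤ) : ℚ_[p]) + 4 * (j : ℚ_[p])) with hq2
    set q3 := ∏ j ∈ range (k+1), (((3:ℤ) : ℚ_[p]) + 4 * (j : ℚ_[p])) with hq3
    set q4 := ∏ j ∈ range (k+1), (4 * (j : ℚ_[p]) + 4) with hq4
    have hq3ne : q3 ≠ 0 := prod_ne_zero_iff.mpr (fun j _ => cast_den_ne p 3 (by norm_num) j)
    have hcA : ((cA 1 (k+1) : ℚ) : ℚ_[p]) = q1 * q2 / (q4 * q3) := by
      unfold cA
      push_cast
      rw [hq1, hq2, hq3, hq4, ← prod_mul_distrib, ← prod_mul_distrib, ← prod_div_distrib]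
      apply prod_congr rfl
      intro j _
      push_cast
      congr 1
      · ring
      · ring
    have e1 : ((aA (k+1) : ℚ) : ℚ_[p]) = (1+8*((k+1:ℕ):ℚ_[p])) *
        ((q1 / (4^k * ((k.factorial : ℕ) : ℚ_[p]))) * (q2 / q4) *
          (4^k * ((k.factorial : ℕ) : ℚ_[p]) / q3)) := by
      unfold aA
      push_cast
      rw [hcA]
      have hk := fac_ne p k
      have h4k : (4:ℚ_[p])^k ≠ 0 := pow_ne_zero _ (by norm_num)
      have hq4ne : q4 ≠ 0 := by rw [hq4, prod44]; exact mul_ne_zero (pow_ne_zero _ (by norm_num)) (fac_ne p _)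
      generalize ((k.factorial : ℕ) : ℚ_[p]) = F at *
      generalize (4:ℚ_[p])^k = G at *
      field_simp
    have n1 : ‖q1 / (4^k * ((k.factorial : ℕ) : ℚ_[p]))‖ ≤ 1 := by
      rw [norm_div, norm_mul, norm_pow, norm_four p hp2, one_pow, one_mul]
      apply div_le_one_of_le₀ _ (norm_nonneg _)
      refine (ap_norm p hp2 1 (k+1)).trans ?_
      rw [Nat.factorial_succ]
      push_cast
      rw [norm_mul]
      have : ‖((k:ℚ_[p])+1)‖ ≤ 1 := by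
        have := Padic.norm_int_le_one (p := p) ((k:ℤ)+1)
        push_cast at this
        exact this
      calc ‖((k:ℚ_[p])+1)‖ * ‖((k.factorial : ℕ) : ℚ_[p])‖ ≤ 1 * ‖((k.factorial : ℕ) : ℚ_[p])‖ :=
            mul_le_mul_of_nonneg_right this (norm_nonneg _)
        _ = _ := one_mul _
    have n2 : ‖q2 / q4‖ ≤ 1 := by
      rw [norm_div, hq4, norm44 p hp2]
      exact div_le_one_of_le₀ (ap_norm p hp2 2 (k+1)) (norm_nonneg _)
    have n3 : ‖4^k * ((k.factorial : ℕ) : ℚ_[p]) / q3‖ ≤ (p:ℝ)^I := by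
      apply inv_bound p _ k 3
      · intro j _; omega
      · intro j hj
        have := inv_nat_bound p (3+4*j) I (by omega) (by omega)
        push_cast at this ⊢
        exact this
    rw [e1, norm_mul, norm_mul, norm_mul]
    have n12 : ‖q1 / (4^k * ((k.factorial : ℕ) : ℚ_[p]))‖ * ‖q2 / q4‖ ≤ 1 :=
      mul_le_one₀ n1 (norm_nonneg _) n2
    have n123 : ‖q1 / (4^k * ((k.factorial : ℕ) : ℚ_[p]))‖ * ‖q2 / q4‖ *
        ‖4^k * ((k.factorial : ℕ) : ℚ_[p]) / q3‖ ≤ 1 * (p:ℝ)^I :=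
      mul_le_mul n12 n3 (norm_nonneg _) (by norm_num)
    rw [one_mul] at n123
    calc _ ≤ 1 * (p:ℝ)^I := mul_le_mul h8 n123 (by positivity) (by norm_num)
      _ = _ := one_mul _

/-- bound for the coefficients of the companion sum -/
lemma aD_norm (hp2 : p ≠ 2) (I k : ℕ) (h : 4*k+5 < p^(I+1)) :
    ‖((aD k : ℚ) : ℚ_[p])‖ ≤ (p:ℝ)^I := by
  have h8 : ‖(3+8*(k:ℚ_[p]))‖ ≤ 1 := by
    have := Padic.norm_int_le_one (p := p) (3+8*(k:ℤ))
    push_cast at this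
    exact this
  set q1 := ∏ j ∈ range (k+2), (((1:ℤ) : ℚ_[p]) + 4 * (j : ℚ_[p])) with hq1
  set q2 := ∏ j ∈ range k, (((-2:ℤ) : ℚ_[p]) + 4 * (j : ℚ_[p])) with hq2
  set q3 := ∏ j ∈ range k, (((3:ℤ) : ℚ_[p]) + 4 * (j : ℚ_[p])) with hq3
  set q4 := ∏ j ∈ range k, (4 * (j : ℚ_[p]) + 4) with hq4
  have hq1ne : q1 ≠ 0 := prod_ne_zero_iff.mpr (fun j _ => cast_den_ne p 1 (by norm_num) j)
  have hq4ne : q4 ≠ 0 := by
    rw [hq4, prod44]; exact mul_ne_zero (pow_ne_zero _ (by norm_num)) (fac_ne p _)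
  have hq1' : q1 = 5 * ∏ j ∈ range k, (3*3+4*(j:ℚ_[p])) := by
    rw [hq1, prod_range_succ', prod_range_succ']
    have : ∏ j ∈ range k, (((1:ℤ) : ℚ_[p]) + 4 * ((j+1+1:ℕ) : ℚ_[p]))
        = ∏ j ∈ range k, (3*3+4*(j:ℚ_[p])) := by
      apply prod_congr rfl
      intro j _
      push_cast; ring
    rw [this]
    push_cast
    ring
  have hcA : ((aD k : ℚ) : ℚ_[p]) = (3+8*(k:ℚ_[p])) * (q3 * q2 / (q4 * q1)) := by
    unfold aD cA
    push_cast
    rw [hq1', hq2, hq3, hq4]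
    have h9 : ∏ j ∈ range k, (3*3+4*(j:ℚ_[p])) ≠ 0 := by
      intro h0
      apply hq1ne
      rw [hq1', h0, mul_zero]
    have e : ∏ j ∈ range k, ((3+4*(j:ℚ_[p]))*(4-2*3+4*(j:ℚ_[p]))/((4*(j:ℚ_[p])+4)*(3*3+4*(j:ℚ_[p]))))
        = (∏ j ∈ range k, (((3:ℤ) : ℚ_[p]) + 4 * (j : ℚ_[p]))) *
          (∏ j ∈ range k, (((-2:ℤ) : ℚ_[p]) + 4 * (j : ℚ_[p]))) /
          ((∏ j ∈ range k, (4 * (j : ℚ_[p]) + 4)) * ∏ j ∈ range k, (3*3+4*(j:ℚ_[p]))) := by
      rw [← prod_mul_distrib, ← prod_mul_distrib, ← prod_div_distrib]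
      apply prod_congr rfl
      intro j _
      push_cast
      congr 1
      ring
    rw [e]
    rw [mul_div_assoc, div_div]
    congr 2
    ring
  have e1 : ((aD k : ℚ) : ℚ_[p]) = (3+8*(k:ℚ_[p])) *
      ((q3 / (4^(k+1) * (((k+1).factorial : ℕ) : ℚ_[p]))) * (q2 / q4) *
        (4^(k+1) * (((k+1).factorial : ℕ) : ℚ_[p]) / q1)) := by
    rw [hcA]
    have hk := fac_ne p (k+1)
    have h4k : (4:ℚ_[p])^(k+1) ≠ 0 := pow_ne_zero _ (by norm_num)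
    generalize (((k+1).factorial : ℕ) : ℚ_[p]) = F at *
    generalize (4:ℚ_[p])^(k+1) = G at *
    field_simp
  have n1 : ‖q3 / (4^(k+1) * (((k+1).factorial : ℕ) : ℚ_[p]))‖ ≤ 1 := by
    rw [norm_div, norm_mul, norm_pow, norm_four p hp2, one_pow, one_mul]
    apply div_le_one_of_le₀ _ (norm_nonneg _)
    have h1 := ap_norm p hp2 (-1) (k+1)
    have h2 : ∏ j ∈ range (k+1), (((-1:ℤ) : ℚ_[p]) + 4 * (j : ℚ_[p])) = -q3 := by
      rw [prod_range_succ', hq3]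
      have : ∏ j ∈ range k, (((-1:ℤ) : ℚ_[p]) + 4 * ((j+1:ℕ) : ℚ_[p]))
          = ∏ j ∈ range k, (((3:ℤ) : ℚ_[p]) + 4 * (j : ℚ_[p])) := by
        apply prod_congr rfl
        intro j _
        push_cast; ring
      rw [this]
      push_cast
      ring
    rw [h2, norm_neg] at h1
    exact h1
  have n2 : ‖q2 / q4‖ ≤ 1 := by
    rw [norm_div, hq4, norm44 p hp2]
    exact div_le_one_of_le₀ (ap_norm p hp2 (-2) k) (norm_nonneg _)
  have n3 : ‖4^(k+1) * (((k+1).factorial : ℕ) : ℚ_[p]) / q1‖ ≤ (p:ℝ)^I := by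
    apply inv_bound p _ (k+1) 1
    · intro j _; omega
    · intro j hj
      have := inv_nat_bound p (1+4*j) I (by omega) (by omega)
      push_cast at this ⊢
      exact this
  rw [e1, norm_mul, norm_mul, norm_mul]
  have n12 : ‖q3 / (4^(k+1) * (((k+1).factorial : ℕ) : ℚ_[p]))‖ * ‖q2 / q4‖ ≤ 1 :=
    mul_le_one₀ n1 (norm_nonneg _) n2
  have n123 : ‖q3 / (4^(k+1) * (((k+1).factorial : ℕ) : ℚ_[p]))‖ * ‖q2 / q4‖ *
      ‖4^(k+1) * (((k+1).factorial : ℕ) : ℚ_[p]) / q1‖ ≤ 1 * (p:ℝ)^I :=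
    mul_le_mul n12 n3 (norm_nonneg _) (by norm_num)
  rw [one_mul] at n123
  calc _ ≤ 1 * (p:ℝ)^I := mul_le_mul h8 n123 (by positivity) (by norm_num)
    _ = _ := one_mul _

/-- valuation of the product of the nodes against the denominators (linear version) -/
lemma node_ratio (hp2 : p ≠ 2) (e : ℤ) (m M r : ℕ) (hr : 1 ≤ r) (hm : m + 1 = p^(r-1))
    (hM : M + 1 = p^r) :
    ‖∏ i ∈ range (m+1), ((p : ℚ_[p]) * ((e : ℚ_[p]) + 4 * (i : ℚ_[p])))‖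
      ≤ (p:ℝ)^(-(r:ℤ)) * ‖∏ l ∈ range M, (4 * (l : ℚ_[p]) + 4)‖ := by
  have hp0 : (0:ℝ) < p := by exact_mod_cast hp.out.pos
  have hp1 : 1 ≤ p := hp.out.one_lt.le
  have hMm : p * (m+1) = M+1 := by rw [hm, hM, ← pow_succ']; congr 1; omega
  rw [norm44 p hp2, prod_mul_distrib, prod_const, card_range, norm_mul, norm_pow, Padic.norm_p]
  have h1 := ap_norm p hp2 e (m+1)
  have h2 : ‖((M.factorial : ℕ) : ℚ_[p])‖ = (p:ℝ)⁻¹^m * ‖((m.factorial : ℕ) : ℚ_[p])‖ := by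
    have hs := range_split' (fun j => ((j : ℕ) : ℚ_[p])) p m M hp1 hMm
    have e1 : ∏ l ∈ range M, (((l+1 : ℕ)) : ℚ_[p]) = ((M.factorial : ℕ) : ℚ_[p]) := by
      rw [← prod_range_add_one_eq_factorial]; push_cast; rfl
    have e2 : ∏ l ∈ range m, (((p*(l+1) : ℕ)) : ℚ_[p]) = (p:ℚ_[p])^m * ((m.factorial : ℕ) : ℚ_[p]) := by
      rw [← prod_range_add_one_eq_factorial]
      push_cast
      rw [prod_mul_distrib, prod_const, card_range]
    have e3 : ‖∏ l ∈ range M, (if p ∣ (l+1) then (1 : ℚ_[p]) else (((l+1 : ℕ)) : ℚ_[p]))‖ = 1 := by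
      rw [norm_prod]
      apply prod_eq_one
      intro l _
      split_ifs with h
      · exact norm_one
      · have := norm_unit p ((l+1 : ℕ) : ℤ) (by
          intro hd; apply h; exact_mod_cast hd)
        exact_mod_cast this
    rw [e1, e2] at hs
    rw [hs, norm_mul, e3, one_mul, norm_mul, norm_pow, Padic.norm_p]
  have h3 : ‖(((m+1).factorial : ℕ) : ℚ_[p])‖ = (p:ℝ)⁻¹^(r-1) * ‖((m.factorial : ℕ) : ℚ_[p])‖ := by
    rw [Nat.factorial_succ, hm]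
    push_cast
    rw [norm_mul, norm_pow, Padic.norm_p]
  rw [h2]
  rw [h3] at h1
  calc (p:ℝ)⁻¹^(m+1) * ‖∏ i ∈ range (m+1), ((e : ℚ_[p]) + 4 * (i : ℚ_[p]))‖
      ≤ (p:ℝ)⁻¹^(m+1) * ((p:ℝ)⁻¹^(r-1) * ‖((m.factorial : ℕ) : ℚ_[p])‖) :=
        mul_le_mul_of_nonneg_left h1 (by positivity)
    _ = _ := by
      have e : (p:ℝ)^(-(r:ℤ)) = (p:ℝ)⁻¹ * (p:ℝ)⁻¹^(r-1) := by
        rw [← pow_succ', Nat.sub_add_cancel hr, zpow_neg, zpow_natCast, inv_pow]
      rw [e, pow_succ]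
      ring

end Pool.Agent.NineA
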